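import Mathlib

/-
Affine arithmetic with four noise symbols in biased fixed point: the natural number `n` stands for the real `(n - 2^96) / 2^48`.
HINTS. B = 2^96, S = 2^48, RG = 2^71.  Put z n = (n : Int) - 2^96 or work in the reals with (n : Real) - 2^96.  ab n = |n - B|.
In range (|x - B|, |y - B| <= 2^71): ad x y - B = (x-B) + (y-B), sb x y - B = (x-B) - (y-B) exactly (omega),
ml p x - B = floor((p-B)(x-B)/S), lin p x q y - B = floor(((p-B)(x-B) + (q-B)(y-B))/S)  (no truncation since 2 * 2^142 <= B S; Nat.shiftRight_eq_div_pow, Nat.shiftLeft_eq).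
So vl (ml p x) is in (vl p * vl x - 1/S, vl p * vl x].  mul: x y = c c' + sum (c g' + c' g) eps + c rho' + c' rho + (dev)(dev'), |dev| <= R/S; five floors + one.
sq: x^2 = c^2 + 2 c dev + dev^2, dev^2 in [0, (R/S)^2], centred.  inv: 1/x = 1/c - (x-c)/c^2 + (x-c)^2/(c^2 x), c - R/S >= 2^-11,
 k = floor(S^3/cn^2) <= 2^70, the last term lies in [0, R^2/(c^2 (c-R))], centred.  exp: x/64, Real.exp_bound with n = 9 for |y| <= 1/4
 (|y|^9 * 10/(9! 9) <= 4^-9 * 10/(9! 9) < 3300/2^48), then six squarings.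
-/

set_option autoImplicit false

namespace Pool.Agent.MP_b5eafd_co

structure AF where
  c : Nat
  g0 : Nat
  g1 : Nat
  g2 : Nat
  g3 : Nat
  r : Nat
  R : Nat
  M : Nat
  ok : Bool

namespace AF

def ab (x : Nat) : Nat :=
  Nat.add (Nat.sub x 79228162514264337593543950336) (Nat.sub 79228162514264337593543950336 x)
def mk' (c g0 g1 g2 g3 r : Nat) (ok : Bool) : AF :=
  let R := Nat.add (Nat.add (Nat.add (ab g0) (ab g1)) (Nat.add (ab g2) (ab g3))) r
  let M := ab c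
  ⟨c, g0, g1, g2, g3, r, R, M, and ok (Nat.ble (Nat.add M R) 2361183241434822606848)⟩
def ad (x y : Nat) : Nat := Nat.sub (Nat.add x y) 79228162514264337593543950336
def sb (x y : Nat) : Nat := Nat.sub (Nat.add x 79228162514264337593543950336) y
/-- `B^2 + B S`. -/
def ml (p x : Nat) : Nat :=
  Nat.shiftRight (Nat.sub (Nat.add (Nat.mul p x)
    6277101735386703064580987953830807951820628092825540493312) (Nat.shiftLeft (Nat.add p x) 96)) 48
/-- `2 B^2 + B S`. -/
def lin (p x q y : Nat) : Nat :=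
  Nat.shiftRight (Nat.sub (Nat.add (Nat.add (Nat.mul p x) (Nat.mul q y))
    12554203470773383828416777377038474367922983537289575006208)
    (Nat.shiftLeft (Nat.add (Nat.add p x) (Nat.add q y)) 96)) 48
/-- `- k g` for an unbiased `k`. -/
def nk (k g : Nat) : Nat :=
  Nat.shiftRight (Nat.sub (Nat.shiftLeft (Nat.add k 281474976710656) 96) (Nat.mul g k)) 48

def add (a b : AF) : AF := match a, b with
  | ⟨c, g0, g1, g2, g3, r, _, _, ok⟩, ⟨c', g0', g1', g2', g3', r', _, _, ok'⟩ =>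
    mk' (ad c c') (ad g0 g0') (ad g1 g1') (ad g2 g2') (ad g3 g3') (Nat.add r r') (and ok ok')
def sub (a b : AF) : AF := match a, b with
  | ⟨c, g0, g1, g2, g3, r, _, _, ok⟩, ⟨c', g0', g1', g2', g3', r', _, _, ok'⟩ =>
    mk' (sb c c') (sb g0 g0') (sb g1 g1') (sb g2 g2') (sb g3 g3') (Nat.add r r') (and ok ok')
def mul (a b : AF) : AF := match a, b with
  | ⟨c, g0, g1, g2, g3, r, R, M, ok⟩, ⟨c', g0', g1', g2', g3', r', R', M', ok'⟩ =>
    mk' (ml c c') (lin c g0' c' g0) (lin c g1' c' g1) (lin c g2' c' g2) (lin c g3' c' g3)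
      (Nat.add (Nat.shiftRight (Nat.add (Nat.mul R R') (Nat.add (Nat.mul M r') (Nat.mul M' r))) 48) 6)
      (and ok ok')
def sq (a : AF) : AF := match a with
  | ⟨c, g0, g1, g2, g3, r, R, M, ok⟩ =>
    let h := Nat.shiftRight (Nat.mul R R) 49
    mk' (Nat.add (ml c c) h) (ml (ad c c) g0) (ml (ad c c) g1) (ml (ad c c) g2) (ml (ad c c) g3)
      (Nat.add (Nat.add (Nat.shiftRight (Nat.mul M r) 47) h) 9) ok
def inv (a : AF) : AF := match a with
  | ⟨c, g0, g1, g2, g3, r, R, _, ok⟩ =>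
    let cn := Nat.sub c 79228162514264337593543950336
    let c2 := Nat.mul cn cn
    let k := Nat.div 22300745198530623141535718272648361505980416 c2
    let h := Nat.div (Nat.shiftLeft (Nat.mul R R) 95) (Nat.mul c2 (Nat.sub cn R))
    mk' (Nat.add (Nat.add 79228162514264337593543950336 (Nat.div 79228162514264337593543950336 cn)) h)
      (nk k g0) (nk k g1) (nk k g2) (nk k g3)
      (Nat.add (Nat.add (Nat.add (Nat.shiftRight (Nat.mul k r) 48) (Nat.shiftRight R 48)) h) 10)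
      (and ok (Nat.ble (Nat.add R 137438953472) cn))
/-- the exact constant with biased code `n`. -/
def cst (n : Nat) : AF :=
  mk' n 79228162514264337593543950336 79228162514264337593543950336 79228162514264337593543950336
    79228162514264337593543950336 0 true
/-- a natural number. -/
def nat (n : Nat) : AF := cst (Nat.add 79228162514264337593543950336 (Nat.shiftLeft n 48))
/-- the fraction `p / q`. -/
def rat (p q : Nat) : AF :=
  mk' (Nat.add 79228162514264337593543950336 (Nat.div (Nat.shiftLeft p 48) q))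
    79228162514264337593543950336 79228162514264337593543950336 79228162514264337593543950336
    79228162514264337593543950336 1 true
/-- an interval given by biased end points, without noise symbol. -/
def itv (lo hi : Nat) : AF :=
  mk' (Nat.shiftRight (Nat.add lo hi) 1) 79228162514264337593543950336 79228162514264337593543950336
    79228162514264337593543950336 79228162514264337593543950336
    (Nat.add (Nat.shiftRight (Nat.sub hi lo) 1) 1) true
def mid (lo hi : Nat) : Nat := Nat.shiftRight (Nat.add lo hi) 1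
def rad (lo hi : Nat) : Nat :=
  Nat.add (Nat.shiftRight (Nat.sub hi lo) 1) 79228162514264337593543950337
def var0 (lo hi : Nat) : AF := mk' (mid lo hi) (rad lo hi) 79228162514264337593543950336
  79228162514264337593543950336 79228162514264337593543950336 0 true
def var1 (lo hi : Nat) : AF := mk' (mid lo hi) 79228162514264337593543950336 (rad lo hi)
  79228162514264337593543950336 79228162514264337593543950336 0 true
def var2 (lo hi : Nat) : AF := mk' (mid lo hi) 79228162514264337593543950336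
  79228162514264337593543950336 (rad lo hi) 79228162514264337593543950336 0 true
def var3 (lo hi : Nat) : AF := mk' (mid lo hi) 79228162514264337593543950336
  79228162514264337593543950336 79228162514264337593543950336 (rad lo hi) 0 true
/-- enlarge the error by `e` units provided the magnitude is at most `b` units. -/
def widen (a : AF) (y : AF) (b e : Nat) : AF := match a with
  | ⟨c, g0, g1, g2, g3, r, _, _, ok⟩ =>
    mk' c g0 g1 g2 g3 (Nat.add r e) (and ok (and y.ok (Nat.ble (Nat.add y.M y.R) b)))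
def exp (a : AF) : AF :=
  let y := mul a (rat 1 64)
  let p := add (nat 1) (mul y (add (nat 1) (mul y (add (rat 1 2) (mul y (add (rat 1 6) (mul y
    (add (rat 1 24) (mul y (add (rat 1 120) (mul y (add (rat 1 720) (mul y (add (rat 1 5040)
    (mul y (rat 1 40320))))))))))))))))
  sq (sq (sq (sq (sq (sq (widen p y 70368744177664 3300))))))
/-- the whole enclosure is negative. -/
def neg (a : AF) : Bool := and a.ok (Nat.blt (Nat.add a.c a.R) 79228162514264337593543950336)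
/-- the whole enclosure is positive. -/
def pos (a : AF) : Bool := and a.ok (Nat.blt (Nat.add 79228162514264337593543950336 a.R) a.c)

end AF

/-- the real number with biased code `n`. -/
noncomputable def vl (n : Nat) : ℝ := ((n : ℝ) - 2 ^ 96) / 2 ^ 48

/-- values of the noise symbols. -/
structure Noise where
  e0 : ℝ
  e1 : ℝ
  e2 : ℝ
  e3 : ℝ
  h0 : |e0| ≤ 1
  h1 : |e1| ≤ 1
  h2 : |e2| ≤ 1
  h3 : |e3| ≤ 1

/-- `x` lies in the affine form `a` at the noise `ε`. -/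
def Mem (ε : Noise) (x : ℝ) (a : AF) : Prop :=
  a.ok = true →
    a.M = AF.ab a.c ∧ a.R = AF.ab a.g0 + AF.ab a.g1 + (AF.ab a.g2 + AF.ab a.g3) + a.r ∧
    a.M + a.R ≤ 2 ^ 71 ∧
    |x - (vl a.c + vl a.g0 * ε.e0 + vl a.g1 * ε.e1 + vl a.g2 * ε.e2 + vl a.g3 * ε.e3)|
      ≤ (a.r : ℝ) / 2 ^ 48

namespace AFAux

theorem ab_cast (n : Nat) : ((AF.ab n : Nat) : ℝ) = |(n : ℝ) - 2 ^ 96| := by
  have hB : ((79228162514264337593543950336 : Nat) : ℝ) = 2 ^ 96 := by norm_num
  rcases le_total n 79228162514264337593543950336 with h | h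
  · have h' : (n : ℝ) ≤ 2 ^ 96 := by rw [← hB]; exact_mod_cast h
    have : AF.ab n = 79228162514264337593543950336 - n := by
      simp only [AF.ab, Nat.add_eq, Nat.sub_eq]; omega
    rw [this, Nat.cast_sub h, hB, abs_of_nonpos (by linarith)]; ring
  · have h' : (2 : ℝ) ^ 96 ≤ n := by rw [← hB]; exact_mod_cast h
    have : AF.ab n = n - 79228162514264337593543950336 := by
      simp only [AF.ab, Nat.add_eq, Nat.sub_eq]; omega
    rw [this, Nat.cast_sub h, hB, abs_of_nonneg (by linarith)]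

theorem abs_vl (n : Nat) : |vl n| = ((AF.ab n : Nat) : ℝ) / 2 ^ 48 := by
  rw [ab_cast, vl, abs_div, abs_of_pos (by positivity : (0 : ℝ) < 2 ^ 48)]

theorem vl_B : vl 79228162514264337593543950336 = 0 := by
  simp only [vl]; norm_num

theorem vl_add (n h : Nat) : vl (Nat.add n h) = vl n + (h : ℝ) / 2 ^ 48 := by
  simp only [vl, Nat.add_eq, Nat.cast_add]; ring

theorem mul_eps {t e d : ℝ} (ht : |t| ≤ d) (he : |e| ≤ 1) : |t * e| ≤ d := by
  rw [abs_mul]
  calc |t| * |e| ≤ |t| * 1 := by gcongr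
    _ ≤ d := by linarith

theorem mem_mk {ε : Noise} {x : ℝ} {c g0 g1 g2 g3 r : Nat} {ok : Bool}
    (h : ok = true →
      |x - (vl c + vl g0 * ε.e0 + vl g1 * ε.e1 + vl g2 * ε.e2 + vl g3 * ε.e3)|
        ≤ (r : ℝ) / 2 ^ 48) : Mem ε x (AF.mk' c g0 g1 g2 g3 r ok) := by
  intro hok
  simp only [AF.mk', Bool.and_eq_true, Nat.ble_eq, Nat.add_eq] at hok
  refine ⟨rfl, rfl, ?_, h hok.1⟩
  exact hok.2

theorem dev_le {ε : Noise} {x : ℝ} {a : AF} (hx : Mem ε x a) (ok : a.ok = true) :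
    |x - vl a.c| ≤ (a.R : ℝ) / 2 ^ 48 := by
  obtain ⟨_, hR, _, h⟩ := hx ok
  have h0 := abs_le.1 (mul_eps (abs_vl a.g0).le ε.h0)
  have h1 := abs_le.1 (mul_eps (abs_vl a.g1).le ε.h1)
  have h2 := abs_le.1 (mul_eps (abs_vl a.g2).le ε.h2)
  have h3 := abs_le.1 (mul_eps (abs_vl a.g3).le ε.h3)
  have h4 := abs_le.1 h
  rw [hR]
  push_cast
  rw [abs_le]
  constructor <;> linarith [h0.1, h0.2, h1.1, h1.2, h2.1, h2.2, h3.1, h3.2, h4.1, h4.2]

theorem vl_ad {x y : Nat} (hx : AF.ab x ≤ 2 ^ 71) (hy : AF.ab y ≤ 2 ^ 71) :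
    vl (AF.ad x y) = vl x + vl y := by
  have h : 79228162514264337593543950336 ≤ x + y := by
    simp only [AF.ab, Nat.add_eq, Nat.sub_eq] at hx hy; omega
  have e : AF.ad x y + 79228162514264337593543950336 = x + y := by
    unfold AF.ad
    rw [Nat.sub_eq, Nat.add_eq]
    exact Nat.sub_add_cancel h
  have e' : ((AF.ad x y : Nat) : ℝ) + 2 ^ 96 = x + y := by exact_mod_cast e
  simp only [vl]
  linarith

theorem vl_sb {x y : Nat} (hx : AF.ab x ≤ 2 ^ 71) (hy : AF.ab y ≤ 2 ^ 71) :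
    vl (AF.sb x y) = vl x - vl y := by
  have h : y ≤ x + 79228162514264337593543950336 := by
    simp only [AF.ab, Nat.add_eq, Nat.sub_eq] at hx hy; omega
  simp only [vl, AF.sb, Nat.add_eq, Nat.sub_eq]
  rw [Nat.cast_sub h]
  push_cast
  ring

theorem div_lo (n d : Nat) : ((n / d : Nat) : ℝ) ≤ (n : ℝ) / d := Nat.cast_div_le

theorem div_hi (n d : Nat) : (n : ℝ) / d ≤ ((n / d : Nat) : ℝ) + 1 := by
  rcases Nat.eq_zero_or_pos d with rfl | hd
  · simp
  · have hd' : (0 : ℝ) < d := by exact_mod_cast hd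
    rw [div_le_iff₀ hd']
    have : n ≤ (n / d + 1) * d := by
      have := Nat.lt_div_mul_add (a := n) hd
      rw [add_mul, one_mul]; exact this.le
    exact_mod_cast this

theorem sr_lo (n k : Nat) : ((Nat.shiftRight n k : Nat) : ℝ) ≤ (n : ℝ) / 2 ^ k := by
  have := div_lo n (2 ^ k)
  rw [← Nat.shiftRight_eq_div_pow] at this
  push_cast at this
  exact this

theorem sr_hi (n k : Nat) : (n : ℝ) / 2 ^ k ≤ ((Nat.shiftRight n k : Nat) : ℝ) + 1 := by
  have := div_hi n (2 ^ k)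
  rw [← Nat.shiftRight_eq_div_pow] at this
  push_cast at this
  exact this

theorem sl_cast (n k : Nat) : ((Nat.shiftLeft n k : Nat) : ℝ) = (n : ℝ) * 2 ^ k := by
  have : Nat.shiftLeft n k = n * 2 ^ k := Nat.shiftLeft_eq n k
  rw [this]; push_cast; ring

theorem vl_floor (A D : Nat) (t : ℝ) (h : (A : ℝ) - D = t * 2 ^ 96 + 2 ^ 144)
    (ht : |t| ≤ 2 ^ 48) : |t - vl (Nat.shiftRight (Nat.sub A D) 48)| ≤ 1 / 2 ^ 48 := by
  have h1 : D ≤ A := by
    have : (D : ℝ) ≤ A := by linarith [(abs_le.1 ht).1]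
    exact_mod_cast this
  have h2 := sr_lo (Nat.sub A D) 48
  have h3 := sr_hi (Nat.sub A D) 48
  rw [Nat.sub_eq, Nat.cast_sub h1, h] at h2 h3
  simp only [vl, Nat.sub_eq]
  rw [abs_le]
  constructor <;> linarith

theorem abs_vl_le {n k : Nat} (h : AF.ab n ≤ 2 ^ (k + 48)) : |vl n| ≤ 2 ^ k := by
  rw [abs_vl, div_le_iff₀ (by positivity), ← pow_add]
  exact_mod_cast h

theorem vl_ml {p x : Nat} (hp : |vl p| ≤ 2 ^ 24) (hx : AF.ab x ≤ 2 ^ 71) :
    |vl p * vl x - vl (AF.ml p x)| ≤ 1 / 2 ^ 48 := by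
  have hx' := abs_vl_le (k := 23) hx
  refine vl_floor _ _ _ ?_ ?_
  · rw [sl_cast]
    simp only [vl, Nat.add_eq, Nat.mul_eq]
    push_cast
    ring
  · rw [abs_mul]
    calc |vl p| * |vl x| ≤ 2 ^ 24 * 2 ^ 23 := by gcongr
      _ ≤ _ := by norm_num

theorem vl_lin {p x q y : Nat} (hp : AF.ab p ≤ 2 ^ 71) (hx : AF.ab x ≤ 2 ^ 71)
    (hq : AF.ab q ≤ 2 ^ 71) (hy : AF.ab y ≤ 2 ^ 71) :
    |vl p * vl x + vl q * vl y - vl (AF.lin p x q y)| ≤ 1 / 2 ^ 48 := by
  have hp' := abs_vl_le (k := 23) hp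
  have hx' := abs_vl_le (k := 23) hx
  have hq' := abs_vl_le (k := 23) hq
  have hy' := abs_vl_le (k := 23) hy
  refine vl_floor _ _ _ ?_ ?_
  · rw [sl_cast]
    simp only [vl, Nat.add_eq, Nat.mul_eq]
    push_cast
    ring
  · refine (abs_add_le _ _).trans ?_
    rw [abs_mul, abs_mul]
    calc |vl p| * |vl x| + |vl q| * |vl y| ≤ 2 ^ 23 * 2 ^ 23 + 2 ^ 23 * 2 ^ 23 := by gcongr
      _ ≤ _ := by norm_num

theorem vl_nk {k g : Nat} (hk : (k : ℝ) ≤ 2 ^ 70) (hg : AF.ab g ≤ 2 ^ 71) :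
    |-((k : ℝ) / 2 ^ 48 * vl g) - vl (AF.nk k g)| ≤ 1 / 2 ^ 48 := by
  have hg' := abs_vl_le (k := 23) hg
  refine vl_floor _ _ _ ?_ ?_
  · rw [sl_cast]
    simp only [vl, Nat.add_eq, Nat.mul_eq]
    push_cast
    ring
  · rw [abs_neg, abs_mul, abs_of_nonneg (by positivity : (0 : ℝ) ≤ (k : ℝ) / 2 ^ 48)]
    calc (k : ℝ) / 2 ^ 48 * |vl g| ≤ 2 ^ 70 / 2 ^ 48 * 2 ^ 23 := by gcongr
      _ ≤ _ := by norm_num

theorem abs_mul_le' {s t u v : ℝ} (h1 : |s| ≤ u / 2 ^ 48) (h2 : |t| ≤ v / 2 ^ 48) :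
    |s * t| ≤ u * v / 2 ^ 96 := by
  rw [abs_mul]
  calc |s| * |t| ≤ u / 2 ^ 48 * (v / 2 ^ 48) :=
        mul_le_mul h1 h2 (abs_nonneg _) ((abs_nonneg _).trans h1)
    _ = _ := by ring

theorem nk_term {k g : Nat} {K e : ℝ} (hk : (k : ℝ) ≤ 2 ^ 70) (hg : AF.ab g ≤ 2 ^ 71)
    (hK : |(k : ℝ) / 2 ^ 48 - K| ≤ 1 / 2 ^ 48) (he : |e| ≤ 1) :
    |(-(K * vl g) - vl (AF.nk k g)) * e| ≤ 1 / 2 ^ 48 + ((AF.ab g : Nat) : ℝ) / 2 ^ 96 := by
  refine mul_eps ?_ he
  have h1 := abs_le.1 (vl_nk hk hg)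
  have h2 := abs_le.1 (abs_mul_le' hK (abs_vl g).le)
  rw [abs_le]
  constructor <;> nlinarith [h1.1, h1.2, h2.1, h2.2]

theorem mem_widen {ε : Noise} {x x' y : ℝ} {a b : AF} {m e : Nat} (hx : Mem ε x a)
    (hy : Mem ε y b) (h : |y| ≤ (m : ℝ) / 2 ^ 48 → |x' - x| ≤ (e : ℝ) / 2 ^ 48) :
    Mem ε x' (AF.widen a b m e) := by
  obtain ⟨c, g0, g1, g2, g3, r, R, M, ok⟩ := a
  refine mem_mk fun hok => ?_
  simp only [Bool.and_eq_true, Nat.ble_eq, Nat.add_eq] at hok
  obtain ⟨_, _, _, h1⟩ := hx hok.1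
  have h2 := abs_le.1 (dev_le hy hok.2.1)
  have h3 := abs_le.1 (abs_vl b.c).le
  have h4 : ((AF.ab b.c : Nat) : ℝ) + b.R ≤ m := by
    have := hok.2.2
    rw [(hy hok.2.1).1] at this
    exact_mod_cast this
  have h5 := abs_le.1 (h (by rw [abs_le]; constructor <;> linarith [h2.1, h2.2, h3.1, h3.2]))
  have h6 := abs_le.1 h1
  simp only [Nat.add_eq] at h6 ⊢
  push_cast
  rw [abs_le]
  constructor <;> linarith [h5.1, h5.2, h6.1, h6.2]

theorem mid_le {x : ℝ} {lo hi : Nat} (h1 : vl lo ≤ x) (h2 : x ≤ vl hi) :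
    |x - vl (AF.mid lo hi)| ≤ (((Nat.shiftRight (Nat.sub hi lo) 1 : Nat) : ℝ) + 1) / 2 ^ 48 := by
  have h3 : lo ≤ hi := by
    have : (lo : ℝ) ≤ hi := by simp only [vl] at h1 h2; linarith
    exact_mod_cast this
  have e1 : Nat.shiftRight (Nat.sub hi lo) 1 = (hi - lo) / 2 := Nat.shiftRight_eq_div_pow _ _
  have e2 : AF.mid lo hi = (lo + hi) / 2 := Nat.shiftRight_eq_div_pow _ _
  have h4 : hi ≤ AF.mid lo hi + (Nat.shiftRight (Nat.sub hi lo) 1 + 1) := by omega
  have h5 : AF.mid lo hi ≤ lo + (Nat.shiftRight (Nat.sub hi lo) 1 + 1) := by omega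
  have h4' : (hi : ℝ) ≤ (AF.mid lo hi : Nat) +
      (((Nat.shiftRight (Nat.sub hi lo) 1 : Nat) : ℝ) + 1) := by exact_mod_cast h4
  have h5' : ((AF.mid lo hi : Nat) : ℝ) ≤ lo +
      (((Nat.shiftRight (Nat.sub hi lo) 1 : Nat) : ℝ) + 1) := by exact_mod_cast h5
  simp only [vl] at h1 h2 ⊢
  rw [abs_le]
  constructor <;> linarith

theorem exists_eps {x : ℝ} {lo hi : Nat} (h1 : vl lo ≤ x) (h2 : x ≤ vl hi) :
    ∃ e : ℝ, |e| ≤ 1 ∧ x = vl (AF.mid lo hi) + vl (AF.rad lo hi) * e := by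
  have h3 := mid_le h1 h2
  have h4 : vl (AF.rad lo hi) =
      (((Nat.shiftRight (Nat.sub hi lo) 1 : Nat) : ℝ) + 1) / 2 ^ 48 := by
    simp only [vl, AF.rad, Nat.add_eq]
    push_cast
    ring
  have h5 : 0 < vl (AF.rad lo hi) := by rw [h4]; positivity
  refine ⟨(x - vl (AF.mid lo hi)) / vl (AF.rad lo hi), ?_, ?_⟩
  · rw [abs_div, abs_of_pos h5, div_le_one h5, h4]
    exact h3
  · field_simp
    ring

end AFAux

open AFAux

variable {ε : Noise} {x y : ℝ} {a b : AF}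

theorem mem_add (hx : Mem ε x a) (hy : Mem ε y b) : Mem ε (x + y) (AF.add a b) := by
  obtain ⟨c, g0, g1, g2, g3, r, R, M, ok⟩ := a
  obtain ⟨c', g0', g1', g2', g3', r', R', M', ok'⟩ := b
  refine mem_mk fun hok => ?_
  simp only [Bool.and_eq_true] at hok
  obtain ⟨hM, hR, hle, h⟩ := hx hok.1
  obtain ⟨hM', hR', hle', h'⟩ := hy hok.2
  dsimp only at hM hR hle h hM' hR' hle' h'
  rw [vl_ad (by omega) (by omega), vl_ad (by omega) (by omega), vl_ad (by omega) (by omega),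
    vl_ad (by omega) (by omega), vl_ad (by omega) (by omega)]
  rw [abs_le] at h h' ⊢
  simp only [Nat.add_eq]
  push_cast
  constructor <;> linarith [h.1, h.2, h'.1, h'.2]

theorem mem_sub (hx : Mem ε x a) (hy : Mem ε y b) : Mem ε (x - y) (AF.sub a b) := by
  obtain ⟨c, g0, g1, g2, g3, r, R, M, ok⟩ := a
  obtain ⟨c', g0', g1', g2', g3', r', R', M', ok'⟩ := b
  refine mem_mk fun hok => ?_
  simp only [Bool.and_eq_true] at hok
  obtain ⟨hM, hR, hle, h⟩ := hx hok.1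
  obtain ⟨hM', hR', hle', h'⟩ := hy hok.2
  dsimp only at hM hR hle h hM' hR' hle' h'
  rw [vl_sb (by omega) (by omega), vl_sb (by omega) (by omega), vl_sb (by omega) (by omega),
    vl_sb (by omega) (by omega), vl_sb (by omega) (by omega)]
  rw [abs_le] at h h' ⊢
  simp only [Nat.add_eq]
  push_cast
  constructor <;> linarith [h.1, h.2, h'.1, h'.2]

theorem mem_mul (hx : Mem ε x a) (hy : Mem ε y b) : Mem ε (x * y) (AF.mul a b) := by
  obtain ⟨c, g0, g1, g2, g3, r, R, M, ok⟩ := a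
  obtain ⟨c', g0', g1', g2', g3', r', R', M', ok'⟩ := b
  refine mem_mk fun hok => ?_
  simp only [Bool.and_eq_true] at hok
  have d := dev_le hx hok.1
  have d' := dev_le hy hok.2
  obtain ⟨hM, hR, hle, h⟩ := hx hok.1
  obtain ⟨hM', hR', hle', h'⟩ := hy hok.2
  dsimp only at hM hR hle h hM' hR' hle' h' d d'
  have t := abs_le.1 (vl_ml (p := c) (x := c')
    ((abs_vl_le (k := 23) (by omega)).trans (by norm_num)) (by omega))
  have t0 := abs_le.1 (mul_eps (vl_lin (p := c) (x := g0') (q := c') (y := g0)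
    (by omega) (by omega) (by omega) (by omega)) ε.h0)
  have t1 := abs_le.1 (mul_eps (vl_lin (p := c) (x := g1') (q := c') (y := g1)
    (by omega) (by omega) (by omega) (by omega)) ε.h1)
  have t2 := abs_le.1 (mul_eps (vl_lin (p := c) (x := g2') (q := c') (y := g2)
    (by omega) (by omega) (by omega) (by omega)) ε.h2)
  have t3 := abs_le.1 (mul_eps (vl_lin (p := c) (x := g3') (q := c') (y := g3)
    (by omega) (by omega) (by omega) (by omega)) ε.h3)
  have u1 := abs_le.1 (abs_mul_le' d d')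
  have u2 := abs_le.1 (abs_mul_le' (abs_vl c).le h')
  have u3 := abs_le.1 (abs_mul_le' (abs_vl c').le h)
  have s := sr_hi (Nat.add (Nat.mul R R') (Nat.add (Nat.mul M r') (Nat.mul M' r))) 48
  rw [← hM] at u2
  rw [← hM'] at u3
  generalize Nat.shiftRight (Nat.add (Nat.mul R R') (Nat.add (Nat.mul M r') (Nat.mul M' r))) 48
    = q at s ⊢
  simp only [Nat.add_eq, Nat.mul_eq] at s ⊢
  push_cast at s ⊢
  rw [abs_le]
  constructor <;> linarith [t.1, t.2, t0.1, t0.2, t1.1, t1.2, t2.1, t2.2, t3.1, t3.2, u1.1, u1.2,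
    u2.1, u2.2, u3.1, u3.2]

theorem mem_sq (hx : Mem ε x a) : Mem ε (x ^ 2) (AF.sq a) := by
  obtain ⟨c, g0, g1, g2, g3, r, R, M, ok⟩ := a
  refine mem_mk fun hok => ?_
  have d := dev_le hx hok
  obtain ⟨hM, hR, hle, h⟩ := hx hok
  dsimp only at hM hR hle h d
  have hc := abs_vl_le (n := c) (k := 23) (by omega)
  have e2 : vl (AF.ad c c) = vl c + vl c := vl_ad (by omega) (by omega)
  have hc2 : |vl (AF.ad c c)| ≤ 2 ^ 24 := by
    rw [e2]; refine (abs_add_le _ _).trans ?_; linarith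
  have t := abs_le.1 (vl_ml (p := c) (x := c) (hc.trans (by norm_num)) (by omega))
  have t0 := abs_le.1 (mul_eps (vl_ml (x := g0) hc2 (by omega)) ε.h0)
  have t1 := abs_le.1 (mul_eps (vl_ml (x := g1) hc2 (by omega)) ε.h1)
  have t2 := abs_le.1 (mul_eps (vl_ml (x := g2) hc2 (by omega)) ε.h2)
  have t3 := abs_le.1 (mul_eps (vl_ml (x := g3) hc2 (by omega)) ε.h3)
  have u1 := abs_le.1 (abs_mul_le' d d)
  have u1' := mul_self_nonneg (x - vl c)
  have u2 := abs_le.1 (abs_mul_le' (abs_vl c).le h)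
  have s1 := sr_hi (Nat.mul R R) 49
  have s2 := sr_hi (Nat.mul M r) 47
  rw [← hM] at u2
  rw [e2] at t0 t1 t2 t3
  rw [vl_add]
  generalize Nat.shiftRight (Nat.mul R R) 49 = q1 at s1 ⊢
  generalize Nat.shiftRight (Nat.mul M r) 47 = q2 at s2 ⊢
  simp only [Nat.add_eq, Nat.mul_eq] at s1 s2 ⊢
  push_cast at s1 s2 ⊢
  rw [abs_le]
  constructor <;> linarith [t.1, t.2, t0.1, t0.2, t1.1, t1.2, t2.1, t2.2, t3.1, t3.2, u1.1, u1.2,
    u2.1, u2.2]

theorem mem_inv (hx : Mem ε x a) : Mem ε x⁻¹ (AF.inv a) := by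
  obtain ⟨c, g0, g1, g2, g3, r, R, M, ok⟩ := a
  refine mem_mk fun hok => ?_
  simp only [Bool.and_eq_true, Nat.ble_eq, Nat.add_eq, Nat.sub_eq] at hok
  have d := dev_le hx hok.1
  obtain ⟨hM, hR, hle, h⟩ := hx hok.1
  dsimp only at hM hR hle h d
  obtain ⟨n, hn⟩ : ∃ n, c = 79228162514264337593543950336 + n :=
    ⟨c - 79228162514264337593543950336, by omega⟩
  have hn' : Nat.sub c 79228162514264337593543950336 = n := by simp only [Nat.sub_eq]; omega
  have hRn : R + 137438953472 ≤ n := by omega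
  have hRn' : (R : ℝ) + 2 ^ 37 ≤ n := by exact_mod_cast hRn
  have hc : vl c = n / 2 ^ 48 := by rw [hn]; simp only [vl]; push_cast; ring
  have hRle : R ≤ n := by omega
  have b0 : AF.ab g0 ≤ 2 ^ 71 := by omega
  have b1 : AF.ab g1 ≤ 2 ^ 71 := by omega
  have b2 : AF.ab g2 ≤ 2 ^ 71 := by omega
  have b3 : AF.ab g3 ≤ 2 ^ 71 := by omega
  have hRc : (R : ℝ) = ((AF.ab g0 : Nat) : ℝ) + (AF.ab g1 : Nat) + ((AF.ab g2 : Nat) +
      (AF.ab g3 : Nat)) + r := by exact_mod_cast hR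
  rw [hn', vl_add, vl_add, vl_B]
  clear hn hn' hok hRn hle hM hR hx
  have hR0 : (0 : ℝ) ≤ R := Nat.cast_nonneg R
  have hn0 : (0 : ℝ) < n := by linarith
  have hnR : (0 : ℝ) < n - R := by linarith
  have k1 := div_lo 22300745198530623141535718272648361505980416 (n * n)
  have k2 := div_hi 22300745198530623141535718272648361505980416 (n * n)
  have i1 := div_lo 79228162514264337593543950336 n
  have i2 := div_hi 79228162514264337593543950336 n
  have j2 := div_hi (Nat.shiftLeft (R * R) 95) (n * n * (n - R))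
  rw [sl_cast, Nat.cast_mul (n * n), Nat.cast_sub hRle] at j2
  change |x⁻¹ - (0 + ((79228162514264337593543950336 / n : Nat) : ℝ) / 2 ^ 48 +
    ((Nat.shiftLeft (R * R) 95 / (n * n * (n - R)) : Nat) : ℝ) / 2 ^ 48 +
    vl (AF.nk (22300745198530623141535718272648361505980416 / (n * n)) g0) * ε.e0 +
    vl (AF.nk (22300745198530623141535718272648361505980416 / (n * n)) g1) * ε.e1 +
    vl (AF.nk (22300745198530623141535718272648361505980416 / (n * n)) g2) * ε.e2 +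
    vl (AF.nk (22300745198530623141535718272648361505980416 / (n * n)) g3) * ε.e3)| ≤
    ((Nat.shiftRight (22300745198530623141535718272648361505980416 / (n * n) * r) 48 +
      Nat.shiftRight R 48 + Nat.shiftLeft (R * R) 95 / (n * n * (n - R)) + 10 : Nat) : ℝ) / 2 ^ 48
  generalize 22300745198530623141535718272648361505980416 / (n * n) = k at k1 k2 ⊢
  generalize 79228162514264337593543950336 / n = i at i1 i2 ⊢
  generalize Nat.shiftLeft (R * R) 95 / (n * n * (n - R)) = j at j2 ⊢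
  have s1 := sr_hi (k * r) 48
  have s2 := sr_hi R 48
  generalize Nat.shiftRight (k * r) 48 = q1 at s1 ⊢
  generalize Nat.shiftRight R 48 = q2 at s2 ⊢
  push_cast at k1 k2 i1 i2 j2 s1 s2 ⊢
  obtain ⟨K, hK⟩ : ∃ K : ℝ, K = 2 ^ 96 / (n * n) := ⟨_, rfl⟩
  have eK : (22300745198530623141535718272648361505980416 : ℝ) / (n * n) = K * 2 ^ 48 := by
    rw [hK]; field_simp; norm_num
  rw [eK] at k1 k2
  have hk : (k : ℝ) ≤ 2 ^ 70 := by
    refine k1.trans ?_
    rw [hK, div_mul_eq_mul_div, div_le_iff₀ (by positivity)]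
    have h37 : (2 : ℝ) ^ 37 ≤ n := by linarith
    have := mul_le_mul h37 h37 (by norm_num) hn0.le
    linarith
  have hKk : |(k : ℝ) / 2 ^ 48 - K| ≤ 1 / 2 ^ 48 := by
    rw [abs_le]; constructor <;> linarith
  have t0 := abs_le.1 (nk_term hk b0 hKk ε.h0)
  have t1 := abs_le.1 (nk_term hk b1 hKk ε.h1)
  have t2 := abs_le.1 (nk_term hk b2 hKk ε.h2)
  have t3 := abs_le.1 (nk_term hk b3 hKk ε.h3)
  have hK0 : 0 ≤ K := by rw [hK]; positivity
  have u2 := abs_le.1 (abs_mul_le' (s := K) (u := k + 1)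
    (by rw [abs_of_nonneg hK0]; linarith) h)
  have hx0 : ((n : ℝ) - R) / 2 ^ 48 ≤ x := by linarith [(abs_le.1 d).1]
  have hxp : 0 < x := lt_of_lt_of_le (by positivity) hx0
  obtain ⟨T, hT⟩ : ∃ T : ℝ, T = K * ((x - vl c) * (x - vl c)) / x := ⟨_, rfl⟩
  have hT0 : 0 ≤ T := by rw [hT]; exact div_nonneg (mul_nonneg hK0 (mul_self_nonneg _)) hxp.le
  have hT1 : T ≤ (R : ℝ) * R * 2 ^ 95 / (n * n * (n - R)) / 2 ^ 47 := by
    rw [hT]
    calc K * ((x - vl c) * (x - vl c)) / x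
        ≤ K * (R * R / 2 ^ 96) / ((n - R) / 2 ^ 48) := by
          gcongr
          exact (abs_le.1 (abs_mul_le' d d)).2
      _ = _ := by rw [hK]; field_simp
  have key : x⁻¹ = (79228162514264337593543950336 : ℝ) / n / 2 ^ 48 - K * (x - vl c) + T := by
    rw [hT, hK, hc]; field_simp; ring
  rw [key, abs_le]
  constructor <;> linarith [t0.1, t0.2, t1.1, t1.2, t2.1, t2.2, t3.1, t3.2, u2.1, u2.2]

theorem mem_cst (ε : Noise) (n : Nat) : Mem ε (vl n) (AF.cst n) := by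
  refine mem_mk fun _ => ?_
  rw [vl_B]; simp

theorem mem_nat (ε : Noise) (n : Nat) : Mem ε (n : ℝ) (AF.nat n) := by
  have h := mem_cst ε (Nat.add 79228162514264337593543950336 (Nat.shiftLeft n 48))
  rw [vl_add, vl_B, sl_cast, zero_add, mul_div_cancel_right₀ _ (by positivity)] at h
  exact h

theorem mem_rat (ε : Noise) (p q : Nat) : Mem ε ((p : ℝ) / (q : ℝ)) (AF.rat p q) := by
  refine mem_mk fun _ => ?_
  have h1 := div_lo (Nat.shiftLeft p 48) q
  have h2 := div_hi (Nat.shiftLeft p 48) q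
  rw [sl_cast, mul_div_right_comm] at h1 h2
  rw [vl_add, vl_B]
  change |(p : ℝ) / q - (0 + ((Nat.shiftLeft p 48 / q : Nat) : ℝ) / 2 ^ 48 + 0 * ε.e0 + 0 * ε.e1 +
    0 * ε.e2 + 0 * ε.e3)| ≤ ((1 : Nat) : ℝ) / 2 ^ 48
  rw [abs_le, Nat.cast_one]
  constructor <;> linarith

theorem mem_exp (hx : Mem ε x a) : Mem ε (Real.exp x) (AF.exp a) := by
  have hy := mem_mul hx (mem_rat ε 1 64)
  have hp := mem_add (mem_nat ε 1) (mem_mul hy (mem_add (mem_nat ε 1) (mem_mul hy
    (mem_add (mem_rat ε 1 2) (mem_mul hy (mem_add (mem_rat ε 1 6) (mem_mul hy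
    (mem_add (mem_rat ε 1 24) (mem_mul hy (mem_add (mem_rat ε 1 120) (mem_mul hy
    (mem_add (mem_rat ε 1 720) (mem_mul hy (mem_add (mem_rat ε 1 5040)
    (mem_mul hy (mem_rat ε 1 40320))))))))))))))))
  have e : Real.exp x = (((((Real.exp (x * (((1 : Nat) : ℝ) / ((64 : Nat) : ℝ))) ^ 2) ^ 2) ^ 2)
      ^ 2) ^ 2) ^ 2 := by
    simp only [← Real.exp_nat_mul]
    congr 1
    push_cast
    ring
  rw [e]
  unfold AF.exp
  refine mem_sq (mem_sq (mem_sq (mem_sq (mem_sq (mem_sq (mem_widen hp hy fun h => ?_))))))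
  generalize x * (((1 : Nat) : ℝ) / ((64 : Nat) : ℝ)) = y at h ⊢
  have h4 : |y| ≤ 1 / 4 := h.trans (by norm_num)
  have hb := Real.exp_bound (x := y) (h4.trans (by norm_num)) (n := 9) (by norm_num)
  have h9 : |y| ^ 9 ≤ (1 / 4) ^ 9 := by gcongr
  simp only [Finset.sum_range_succ, Finset.sum_range_zero, Nat.factorial] at hb
  push_cast at hb ⊢
  rw [abs_le] at hb ⊢
  constructor <;> linarith [hb.1, hb.2]

theorem mem_itv (ε : Noise) {lo hi : Nat} (h1 : vl lo ≤ x) (h2 : x ≤ vl hi) :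
    Mem ε x (AF.itv lo hi) := by
  refine mem_mk fun _ => ?_
  have h := mid_le h1 h2
  rw [vl_B]
  rw [Nat.add_eq (x := Nat.shiftRight _ _), Nat.cast_add, Nat.cast_one]
  simp only [zero_mul, add_zero]
  exact h

theorem exists_noise {x0 x1 x2 x3 : ℝ} {l0 h0 l1 h1 l2 h2 l3 h3 : Nat}
    (a0 : vl l0 ≤ x0) (b0 : x0 ≤ vl h0) (a1 : vl l1 ≤ x1) (b1 : x1 ≤ vl h1)
    (a2 : vl l2 ≤ x2) (b2 : x2 ≤ vl h2) (a3 : vl l3 ≤ x3) (b3 : x3 ≤ vl h3) :
    ∃ ε : Noise, Mem ε x0 (AF.var0 l0 h0) ∧ Mem ε x1 (AF.var1 l1 h1) ∧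
      Mem ε x2 (AF.var2 l2 h2) ∧ Mem ε x3 (AF.var3 l3 h3) := by
  obtain ⟨e0, p0, q0⟩ := exists_eps a0 b0
  obtain ⟨e1, p1, q1⟩ := exists_eps a1 b1
  obtain ⟨e2, p2, q2⟩ := exists_eps a2 b2
  obtain ⟨e3, p3, q3⟩ := exists_eps a3 b3
  refine ⟨⟨e0, e1, e2, e3, p0, p1, p2, p3⟩, mem_mk fun _ => ?_, mem_mk fun _ => ?_,
    mem_mk fun _ => ?_, mem_mk fun _ => ?_⟩
  · rw [vl_B, q0]; simp
  · rw [vl_B, q1]; simp
  · rw [vl_B, q2]; simp
  · rw [vl_B, q3]; simp

theorem lt_of_neg (hx : Mem ε x a) (h : AF.neg a = true) : x < 0 := by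
  simp only [AF.neg, Bool.and_eq_true, Nat.blt_eq, Nat.add_eq] at h
  have d := (abs_le.1 (dev_le hx h.1)).2
  have h2 : (a.c : ℝ) + a.R < 2 ^ 96 := by exact_mod_cast h.2
  simp only [vl] at d
  linarith

theorem lt_of_pos (hx : Mem ε x a) (h : AF.pos a = true) : 0 < x := by
  simp only [AF.pos, Bool.and_eq_true, Nat.blt_eq, Nat.add_eq] at h
  have d := (abs_le.1 (dev_le hx h.1)).1
  have h2 : (2 : ℝ) ^ 96 + a.R < a.c := by exact_mod_cast h.2
  simp only [vl] at d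
  linarith

end Pool.Agent.MP_b5eafd_co
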