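import Pool.Agent.MP_b5eafd_co.VDefs

/-! Parameters and scalar inequalities of the core argument. -/

set_option autoImplicit false
open Finset

namespace Pool.Agent.MP_b5eafd_co
noncomputable section
open Classical

/-- parameters of one run of the core argument. -/
structure Par where
  β : ℝ
  u : ℝ
  ch0 : ℝ
  C : ℝ
  s : ℝ
  K0 : ℝ
  em : ℝ
  m0 : ℝ
  l1 : ℝ
  l2 : ℝ
  V : ℝ

namespace Par
def a (P : Par) : ℝ := P.β * (1 - P.u ^ 3) / 2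
def L (P : Par) : ℝ := 2 - P.C / P.β
def bE (P : Par) (Δ e : ℝ) : ℝ := aC P.C Δ * (1 + e) + bC P.C Δ * (P.β * P.u ^ 3 + (P.β + 2) * e)
def TE (P : Par) (Δ e : ℝ) : ℝ := P.ch0 * P.bE Δ e - dC P.C Δ

structure OK (P : Par) : Prop where
  β_pos : 0 < P.β
  u_pos : 0 < P.u
  u_lt : P.u < 1
  ch_pos : 0 < P.ch0
  L_nonneg : 0 ≤ P.L
  K0_le : P.K0 ≤ 1 + P.u
  em_nonneg : 0 ≤ P.em
  em_lt : P.em < 1
  m0_nonneg : 0 ≤ P.m0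

/-- the row certificate. -/
def RowOK (P : Par) (D : Finset ℝ) (δ1 : ℝ) : Prop :=
  ∀ e : ℝ, -P.em ≤ e → e ≤ P.a + δ1 → ∃ Δ ∈ D, 0 < Δ ∧ 0 < P.bE Δ e ∧
    P.K0 * P.s ^ 2 * e ^ 2 / (1 + e) - (P.a - e) * P.TE Δ e / P.β ^ 2 ≤
      -(P.a * P.u ^ 4) - P.m0 + P.l1 * e + P.l2 * e ^ 2

def mu (P : Par) (δ l lam : ℝ) : ℝ := P.u + (lam ^ 3 - 1 + l ^ 3 + δ * (L1 + 1)) / (3 * P.u ^ 2)
def Kt (P : Par) (δ l lam : ℝ) : ℝ := lam ^ 3 * (lam + P.mu δ l lam)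
def At (P : Par) (δ l lam : ℝ) : ℝ :=
  P.L * (1 - P.a) - 2 * P.mu δ l lam / P.β + P.l2 + (P.Kt δ l lam - P.K0) * P.s ^ 2 / (1 - P.em)
/-- the scalar majorant. -/
def v (P : Par) (δ c x l lam : ℝ) : ℝ :=
  P.a * (P.Kt δ l lam - 1 - P.mu δ l lam * (1 - P.u ^ 3) - P.u ^ 4)
    + l ^ 3 * (l + P.mu δ l lam) * (P.a + P.em)
    + (P.At δ l lam + P.L * lam) * (lam - 1) ^ 2 * c ^ 2
    + (1 - c ^ 2) * ((P.At δ l lam + P.L * x) * (1 - x) ^ 2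
        + max 0 (P.At δ l lam + P.L * (l + δ - 2 * (1 - x))) * ((l + δ - x) * (x + P.mu δ l lam)))
    - P.Kt δ l lam * (2 * (1 + P.s) * (lam - 1) * c - 2 * (1 - c)) - P.m0

/-- the constraints on the spectral scalars. -/
structure Cons (P : Par) (δ c x l lam : ℝ) : Prop where
  c0 : 0 ≤ c
  c1 : c ≤ 1
  l0 : 0 ≤ l
  lam1 : 1 ≤ lam
  rel : (lam - 1) * c ^ 2 = (1 - c ^ 2) * (1 - x)
  xl : x ≤ l + δ
  xmu : -P.mu δ l lam ≤ x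
  eta : (1 - c ^ 2) * (1 - x) ^ 2 ≤ (P.a + (P.β + 1) * δ) * P.em
  lup : l ≤ (6 + 8 * P.a + 4 * P.β * δ) * ((P.a + (P.β + 1) * δ) * P.em) + δ
  lc : l * c ^ 2 ≤ (1 - c ^ 2) * max 0 ((6 + 8 * P.a + 4 * P.β * δ) * c ^ 2 * (lam - l) ^ 2 - lam) + δ
  xV : x ^ 2 ≤ P.V - 1
  lamV : lam ^ 2 + l ^ 2 ≤ P.V
  SV : (max 0 (lam ^ 3 + l ^ 3 - (1 - P.u ^ 3) - δ)) ^ 2 ≤ (P.V - lam ^ 2 - l ^ 2) ^ 3

/-- the scalar certificate. -/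
def ScalOK (P : Par) : Prop :=
  ∀ c x l lam : ℝ, P.Cons 0 c x l lam → 0 ≤ P.v 0 c x l lam → c = 1

/-- certificate for the lower bound on the degrees. -/
def EmOK (P : Par) : Prop :=
  ∃ y0 : ℝ, 0 < P.β + 1 - y0 ∧
    -(P.em * (P.β + 1 - y0)) < y0 + 1 - P.β * P.u ^ 3 - Real.exp y0 / P.ch0

/-- certificate for the bound on `tr U^2` (linear regime). -/
def VOK (P : Par) : Prop :=
  Real.exp P.β / P.ch0 ≤ P.V ∨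
  ∃ r κ : ℝ, 0 ≤ r ∧ 0 < κ ∧ 2 * κ * Real.exp (-r) ≤ 1 ∧
    -(r * Real.exp (-r)) + (1 - r) * (Real.exp (P.β - 2 * P.β * P.u ^ 3 / 3) - Real.exp (-r))
      + κ * (Real.exp (P.β - 2 * P.β * P.u ^ 3 / 3) - Real.exp (-r)) ^ 2
      ≤ Real.exp (P.β - 2 * P.β * P.u ^ 3 / 3) * (P.β - 2 * P.β * P.u ^ 3 / 3) ∧
    P.β * P.u ^ 3 / 3 + r * Real.exp (-r) - (1 - r) * (1 - Real.exp (-r))
      ≤ κ * (P.V - 2 * Real.exp (-r) + Real.exp (-r) ^ 2)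

end Par

end
end Pool.Agent.MP_b5eafd_co
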