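import Pool.Agent.MP_b5eafd_co.VDefs

/-! Elementary inequalities for step kernels. -/

set_option autoImplicit false
open Finset Filter Topology

namespace Pool.Agent.MP_b5eafd_co
noncomputable section
open Classical

namespace KernAux

variable {ι : Type} [Fintype ι] {w : ι → ℝ}

theorem mass_mono (hw : ∀ a, 0 ≤ w a) {F G : ι → ι → ℝ} (h : ∀ a b, F a b ≤ G a b) :
    mass w F ≤ mass w G :=
  sum_le_sum fun a _ => sum_le_sum fun b _ =>
    mul_le_mul_of_nonneg_left (h a b) (mul_nonneg (hw a) (hw b))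

theorem mass_add (F G : ι → ι → ℝ) :
    mass w (fun a b => F a b + G a b) = mass w F + mass w G := by
  simp only [mass, mul_add, sum_add_distrib]

theorem mass_sub (F G : ι → ι → ℝ) :
    mass w (fun a b => F a b - G a b) = mass w F - mass w G := by
  simp only [mass, mul_sub, sum_sub_distrib]

theorem mass_mul (c : ℝ) (F : ι → ι → ℝ) : mass w (fun a b => c * F a b) = c * mass w F := by
  simp only [mass, mul_sum]
  exact sum_congr rfl fun a _ => sum_congr rfl fun b _ => by ring

theorem mass_prod (f g : ι → ℝ) :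
    mass w (fun a b => f a * g b) = (∑ a, w a * f a) * ∑ b, w b * g b := by
  simp only [mass, sum_mul_sum]
  exact sum_congr rfl fun a _ => sum_congr rfl fun b _ => by ring

theorem mass_const (hs : ∑ a, w a = 1) (c : ℝ) : mass w (fun _ _ => c) = c := by
  have := mass_prod (w := w) (fun _ => c) fun _ => 1
  simpa [← sum_mul, hs] using this

theorem mass_nonneg (hw : ∀ a, 0 ≤ w a) {F : ι → ι → ℝ} (h : ∀ a b, 0 ≤ F a b) : 0 ≤ mass w F :=
  sum_nonneg fun a _ => sum_nonneg fun b _ => mul_nonneg (mul_nonneg (hw a) (hw b)) (h a b)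

theorem cs1 {κ : Type} [Fintype κ] {v : κ → ℝ} (hv : ∀ a, 0 ≤ v a) (f g : κ → ℝ) :
    (∑ a, v a * (f a * g a)) ^ 2 ≤ (∑ a, v a * f a ^ 2) * ∑ a, v a * g a ^ 2 :=
  sum_sq_le_sum_mul_sum_of_sq_le_mul _ (fun a _ => mul_nonneg (hv a) (sq_nonneg _))
    (fun a _ => mul_nonneg (hv a) (sq_nonneg _)) fun a _ => le_of_eq (by ring)

theorem cs2 (hw : ∀ a, 0 ≤ w a) (F G : ι → ι → ℝ) :
    mass w (fun a b => F a b * G a b) ^ 2 ≤
      mass w (fun a b => F a b ^ 2) * mass w fun a b => G a b ^ 2 := by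
  have := cs1 (v := fun p : ι × ι => w p.1 * w p.2) (fun p => mul_nonneg (hw _) (hw _))
    (fun p => F p.1 p.2) fun p => G p.1 p.2
  simpa only [mass, Fintype.sum_prod_type] using this

/-- The trilinear form. -/
def tri3 (w : ι → ℝ) (A B C : ι → ι → ℝ) : ℝ :=
  ∑ a, ∑ b, ∑ c, w a * w b * w c * (A a b * B b c * C c a)

theorem tri3_cyc (A B C : ι → ι → ℝ) : tri3 w A B C = tri3 w B C A := by
  simp only [tri3]
  rw [sum_comm]
  refine sum_congr rfl fun b _ => ?_
  rw [sum_comm]
  exact sum_congr rfl fun c _ => sum_congr rfl fun a _ => by ring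

theorem tri3_eq (A B C : ι → ι → ℝ) :
    tri3 w A B C = mass w fun a b => A a b * ∑ c, w c * (B b c * C c a) := by
  simp only [tri3, mass, mul_sum]
  exact sum_congr rfl fun a _ => sum_congr rfl fun b _ => sum_congr rfl fun c _ => by ring

theorem tri3_sq_le (hw : ∀ a, 0 ≤ w a) (A B C : ι → ι → ℝ) :
    tri3 w A B C ^ 2 ≤ mass w (fun a b => A a b ^ 2) *
      (mass w (fun a b => B a b ^ 2) * mass w fun a b => C a b ^ 2) := by
  rw [tri3_eq]
  refine (cs2 hw _ _).trans (mul_le_mul_of_nonneg_left ?_ (mass_nonneg hw fun _ _ => sq_nonneg _))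
  have h := mass_mono hw (F := fun a b => (∑ c, w c * (B b c * C c a)) ^ 2)
    (G := fun a b => (∑ c, w c * C c a ^ 2) * ∑ c, w c * B b c ^ 2) fun a b => by
      rw [mul_comm]
      exact cs1 hw (fun c => B b c) fun c => C c a
  refine h.trans_eq ?_
  rw [mass_prod, mul_comm]
  congr 1
  · simp only [mass, mul_sum, mul_assoc]
  · simp only [mass, mul_sum]
    rw [sum_comm]
    exact sum_congr rfl fun a _ => sum_congr rfl fun b _ => by ring

theorem tri3_abs_le (hw : ∀ a, 0 ≤ w a) {A B C : ι → ι → ℝ} {x y z : ℝ} (hx : 0 ≤ x) (hy : 0 ≤ y)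
    (hz : 0 ≤ z) (hA : mass w (fun a b => A a b ^ 2) ≤ x ^ 2)
    (hB : mass w (fun a b => B a b ^ 2) ≤ y ^ 2) (hC : mass w (fun a b => C a b ^ 2) ≤ z ^ 2) :
    |tri3 w A B C| ≤ x * y * z := by
  refine abs_le_of_sq_le_sq' ((tri3_sq_le hw A B C).trans ?_) (by positivity) |> abs_le.2
  have h0 : ∀ F : ι → ι → ℝ, 0 ≤ mass w fun a b => F a b ^ 2 := fun F =>
    mass_nonneg hw fun _ _ => sq_nonneg _
  calc _ ≤ x ^ 2 * (y ^ 2 * z ^ 2) :=
        mul_le_mul hA (mul_le_mul hB hC (h0 _) (sq_nonneg _)) (mul_nonneg (h0 _) (h0 _))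
          (sq_nonneg _)
    _ = _ := by ring

theorem tri3_one_one (hs : ∑ a, w a = 1) (A : ι → ι → ℝ) :
    tri3 w A (fun _ _ => 1) (fun _ _ => 1) = mass w A := by
  rw [tri3_eq]
  simp [hs]

theorem tri3_one (A : ι → ι → ℝ) (hA : ∀ a b, A a b = A b a) :
    tri3 w (fun _ _ => 1) A A = ∑ c, w c * (∑ a, w a * A c a) ^ 2 := by
  rw [tri3_cyc, tri3_cyc]
  simp only [tri3, pow_two, sum_mul_sum]
  simp only [mul_sum]
  refine sum_congr rfl fun c _ => sum_congr rfl fun a _ => sum_congr rfl fun b _ => ?_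
  rw [hA b c]
  ring

theorem tri3_one_ge (hw : ∀ a, 0 ≤ w a) (hs : ∑ a, w a = 1) (A : ι → ι → ℝ)
    (hA : ∀ a b, A a b = A b a) : mass w A ^ 2 ≤ tri3 w (fun _ _ => 1) A A := by
  have := cs1 hw (fun c => ∑ a, w a * A c a) fun _ => 1
  simp only [mul_one, one_pow, hs] at this
  rw [tri3_one A hA]
  refine le_of_eq_of_le ?_ this
  simp only [mass, mul_sum, mul_assoc]

theorem tri_W {U : ι → ι → ℝ} (h : IsKer w U) :
    tri3 w (fun a b => U a b - 1) (fun a b => U a b - 1) (fun a b => U a b - 1) ≤ tri w U - 1 := by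
  set W : ι → ι → ℝ := fun a b => U a b - 1 with hW
  have h0 : mass w W = 0 := by rw [hW, mass_sub, mass_const h.w_sum, h.mass_one, sub_self]
  have h1 := tri3_one_ge h.w_nonneg h.w_sum W fun a b => by simp only [hW, h.symm a b]
  have h2 := tri3_one_one h.w_sum W
  have h3 := tri3_one_one h.w_sum fun _ _ => (1 : ℝ)
  rw [mass_const h.w_sum] at h3
  have e : tri w U = tri3 w W W W + (tri3 w (fun _ _ => 1) W W + tri3 w W (fun _ _ => 1) W +
      tri3 w W W fun _ _ => 1) + (tri3 w W (fun _ _ => 1) (fun _ _ => 1) +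
      tri3 w (fun _ _ => 1) W (fun _ _ => 1) + tri3 w (fun _ _ => 1) (fun _ _ => 1) W) +
      tri3 w (fun _ _ => 1) (fun _ _ => 1) fun _ _ => 1 := by
    simp only [tri, tri3, ← sum_add_distrib, hW]
    exact sum_congr rfl fun a _ => sum_congr rfl fun b _ => sum_congr rfl fun c _ => by ring
  rw [tri3_cyc W (fun _ _ => 1) W, ← tri3_cyc (fun _ _ => 1) W W,
    tri3_cyc (fun _ _ => 1) W (fun _ _ => 1), ← tri3_cyc W (fun _ _ => 1) (fun _ _ => 1), h2, h3,
    h0] at e
  nlinarith [sq_nonneg (mass w W)]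

theorem fenchel {u : ℝ} (hu : 0 ≤ u) (l : ℝ) : l * u - Real.exp l + u ≤ u * Real.log u := by
  rcases hu.eq_or_lt with rfl | hu
  · simpa using (Real.exp_pos l).le
  · have := Real.log_le_sub_one_of_pos (div_pos (Real.exp_pos l) hu)
    rw [Real.log_div (Real.exp_pos l).ne' hu.ne', Real.log_exp] at this
    have h2 := mul_le_mul_of_nonneg_left this hu.le
    rw [mul_sub, mul_sub, mul_div_cancel₀ _ hu.ne'] at h2
    linarith

/-- The sign of a point with respect to a set. -/
def sgn (S : Finset ι) (a : ι) : ℝ := if a ∈ S then 1 else -1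

/-- The indicator of crossing pairs. -/
def chi (S : Finset ι) (a b : ι) : ℝ := (1 - sgn S a * sgn S b) / 2

omit [Fintype ι] in
theorem chi_cases (S : Finset ι) (a b : ι) : chi S a b = 0 ∨ chi S a b = 1 := by
  simp only [chi, sgn]
  split_ifs <;> norm_num

theorem cutK_eq {U : ι → ι → ℝ} (hU : ∀ a b, U a b = U b a) (S : Finset ι) :
    cutK w U S = mass w fun a b => chi S a b * U a b := by
  have e1 : ∑ a ∈ S, ∑ b ∈ Sᶜ, w a * w b * U a b =
      ∑ a, ∑ b, if a ∈ S ∧ b ∉ S then w a * w b * U a b else 0 := by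
    rw [← sum_ite_mem_eq]
    refine sum_congr rfl fun a _ => ?_
    rw [← sum_ite_mem_eq]
    by_cases h : a ∈ S <;> simp [h]
  rw [cutK, two_mul, e1]
  nth_rewrite 2 [sum_comm]
  simp only [mass, ← sum_add_distrib]
  refine sum_congr rfl fun a _ => sum_congr rfl fun b _ => ?_
  rw [hU b a]
  by_cases ha : a ∈ S <;> by_cases hb : b ∈ S <;> simp [chi, sgn, ha, hb, mul_comm]

theorem mass_chi (hs : ∑ a, w a = 1) (S : Finset ι) : mass w (chi S) ≤ 1 / 2 := by
  have : mass w (chi S) = mass w fun a b => 1 / 2 - 1 / 2 * (sgn S a * sgn S b) := by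
    congr 1
    funext a b
    rw [chi]
    ring
  rw [this, mass_sub, mass_mul, mass_const hs, mass_prod]
  nlinarith [mul_self_nonneg (∑ a, w a * sgn S a)]

theorem cutK_le (hw : ∀ a, 0 ≤ w a) {U : ι → ι → ℝ} (hU : ∀ a b, U a b = U b a)
    (h0 : ∀ a b, 0 ≤ U a b) (S : Finset ι) : 0 ≤ cutK w U S ∧ cutK w U S ≤ mass w U := by
  rw [cutK_eq hU]
  refine ⟨mass_nonneg hw fun a b => ?_, mass_mono hw fun a b => ?_⟩ <;>
  rcases chi_cases S a b with h | h <;> simp [h, h0]

theorem log_L0 : 23 / 2 ≤ Real.log L0 := by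
  have h1 : Real.exp 23 ≤ L0 ^ 2 := by
    have := Real.exp_one_lt_d9.le
    have h2 : Real.exp 23 = Real.exp 1 ^ 23 := by rw [← Real.exp_nat_mul]; norm_num
    rw [h2]
    refine (pow_le_pow_left₀ (Real.exp_pos _).le this 23).trans ?_
    norm_num [L0]
  have h2 := Real.log_le_log (Real.exp_pos _) h1
  rw [Real.log_exp, Real.log_pow] at h2
  push_cast at h2
  linarith

end KernAux

open KernAux

theorem ent_nonneg {ι : Type} [Fintype ι] {w : ι → ℝ} {U : ι → ι → ℝ} (h : IsKer w U) :
    0 ≤ ent w U := by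
  have := mass_mono h.w_nonneg (F := fun a b => U a b - 1)
    (G := fun a b => U a b * Real.log (U a b)) fun a b => by
      have := fenchel (h.nonneg a b) 0
      rw [Real.exp_zero] at this
      linarith
  rwa [mass_sub, mass_const h.w_sum, h.mass_one, sub_self] at this

theorem tri_nonneg {ι : Type} [Fintype ι] {w : ι → ℝ} {U : ι → ι → ℝ} (h : IsKer w U) :
    0 ≤ tri w U :=
  sum_nonneg fun a _ => sum_nonneg fun b _ => sum_nonneg fun c _ =>
    mul_nonneg (mul_nonneg (mul_nonneg (h.w_nonneg a) (h.w_nonneg b)) (h.w_nonneg c))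
      (mul_nonneg (mul_nonneg (h.nonneg _ _) (h.nonneg _ _)) (h.nonneg _ _))

theorem mantel {ι : Type} [Fintype ι] {w : ι → ℝ} {U : ι → ι → ℝ} (h : IsKer w U)
    (ht : tri w U = 0) : Real.log 2 ≤ ent w U := by
  have hw := h.w_nonneg
  set I : ι → ι → ℝ := fun a b => if U a b = 0 then 0 else 1 with hI
  have hsymm : ∀ a b, I a b = I b a := fun a b => by simp only [hI, h.symm a b]
  have hn : ∀ a b c, 0 ≤ w a * w b * w c * (U a b * U b c * U c a) := fun a b c =>
    mul_nonneg (mul_nonneg (mul_nonneg (hw a) (hw b)) (hw c))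
      (mul_nonneg (mul_nonneg (h.nonneg _ _) (h.nonneg _ _)) (h.nonneg _ _))
  have hz : ∀ a b c, w a * w b * w c * (U a b * U b c * U c a) = 0 := fun a b c =>
    (sum_eq_zero_iff_of_nonneg fun c _ => hn a b c).1
      ((sum_eq_zero_iff_of_nonneg fun b _ => sum_nonneg fun c _ => hn a b c).1
        ((sum_eq_zero_iff_of_nonneg fun a _ => sum_nonneg fun b _ => sum_nonneg fun c _ =>
          hn a b c).1 ht a (mem_univ _)) b (mem_univ _)) c (mem_univ _)
  have h1 : tri3 w I I (fun _ _ => 1) + tri3 w I (fun _ _ => 1) I ≤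
      tri3 w I (fun _ _ => 1) fun _ _ => 1 := by
    simp only [tri3, ← sum_add_distrib]
    refine sum_le_sum fun a _ => sum_le_sum fun b _ => sum_le_sum fun c _ => ?_
    have h0 : 0 ≤ w a * w b * w c := mul_nonneg (mul_nonneg (hw a) (hw b)) (hw c)
    rcases mul_eq_zero.1 (hz a b c) with e | e
    · simp [e]
    · simp only [hI]
      split_ifs with e1 e2 e3 e4 <;> first | linarith | simp_all
  rw [tri3_cyc I (fun _ _ => 1) I, ← tri3_cyc (fun _ _ => 1) I I, tri3_one_one h.w_sum] at h1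
  have h2 := tri3_one_ge hw h.w_sum I hsymm
  have h3 : mass w I ≤ 1 / 2 := by nlinarith
  have h4 := mass_mono hw (F := fun a b => (Real.log 2 + 1) * U a b - 2 * I a b)
    (G := fun a b => U a b * Real.log (U a b)) fun a b => by
      have := fenchel (h.nonneg a b) (Real.log 2)
      rw [Real.exp_log two_pos] at this
      simp only [hI]
      split_ifs with e
      · simp [e]
      · linarith
  rw [mass_sub, mass_mul, mass_mul, h.mass_one] at h4
  have h5 : mass w (fun a b => U a b * Real.log (U a b)) = ent w U := rfl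
  linarith

theorem tri_ge {ι : Type} [Fintype ι] {w : ι → ℝ} {U : ι → ι → ℝ} (h : IsKer w U)
    (r : ℝ) (hr0 : 0 ≤ r) (hr : tr2 w U - 1 ≤ r ^ 2) : 1 - r ^ 3 ≤ tri w U := by
  have h1 : mass w (fun a b => (U a b - 1) ^ 2) ≤ r ^ 2 := by
    have : mass w (fun a b => (U a b - 1) ^ 2) =
        mass w fun a b => U a b ^ 2 - 2 * U a b + 1 := by
      congr 1
      funext a b
      ring
    rw [this, mass_add, mass_sub, mass_mul, mass_const h.w_sum, h.mass_one]
    have : mass w (fun a b => U a b ^ 2) = tr2 w U := rfl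
    linarith
  have h2 := (abs_le.1 (tri3_abs_le h.w_nonneg hr0 hr0 hr0 h1 h1 h1)).1
  have h3 := tri_W h
  nlinarith

theorem ent_ge_of_cut {ι : Type} [Fintype ι] {w : ι → ℝ} {U : ι → ι → ℝ} (h : IsKer w U)
    (ε : ℝ) (hε : 0 ≤ ε) (S : Finset ι) (hS : 1 / 2 + ε ≤ cutK w U S) : ε ^ 2 ≤ ent w U := by
  have h1 := (cutK_le h.w_nonneg h.symm h.nonneg S).2
  rw [h.mass_one] at h1
  have h2 := mass_mono h.w_nonneg
    (F := fun a b => 2 * ε * (chi S a b * U a b) + (1 - ε) * U a b - 2 * ε * chi S a b +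
      (ε - 1 - ε ^ 2))
    (G := fun a b => U a b * Real.log (U a b)) fun a b => by
      rcases chi_cases S a b with e | e
      · have a1 := fenchel (h.nonneg a b) (-ε)
        have a2 := (abs_le.1 (Real.abs_exp_sub_one_sub_id_le (x := -ε)
          (by rw [abs_neg, abs_of_nonneg hε]; linarith))).2
        rw [e]
        nlinarith
      · have a1 := fenchel (h.nonneg a b) ε
        have a2 := (abs_le.1 (Real.abs_exp_sub_one_sub_id_le (x := ε)
          (by rw [abs_of_nonneg hε]; linarith))).2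
        rw [e]
        nlinarith
  rw [mass_add, mass_sub, mass_add, mass_mul, mass_mul, mass_mul, mass_const h.w_sum, h.mass_one,
    ← cutK_eq h.symm] at h2
  have h3 := mass_chi h.w_sum S
  have h5 : mass w (fun a b => U a b * Real.log (U a b)) = ent w U := rfl
  nlinarith

theorem trunc_reduce {ι : Type} [Fintype ι] {w : ι → ℝ} {U : ι → ι → ℝ} (h : IsKer w U)
    (β : ℝ) (hβ : 0 ≤ β) (hF : ent w U + β / 3 * tri w (trunc L0 U) ≤ 1) :
    ∃ (U' : ι → ι → ℝ) (κ : ℝ), Adm w U' ∧ 0 ≤ κ ∧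
      ent w U' + β / 3 * tri w U' + 6 * κ ≤ ent w U + β / 3 * tri w (trunc L0 U) ∧
      ∀ S, |cutK w U' S - cutK w U S| ≤ 2 * κ := by
  have hw := h.w_nonneg
  have hL : (0 : ℝ) < L0 := by norm_num [L0]
  set B := trunc L0 U with hB
  have b0 : ∀ a b, 0 ≤ B a b := fun a b => le_min (h.nonneg a b) hL.le
  have b1 : ∀ a b, B a b ≤ U a b := fun a b => min_le_left _ _
  have b2 : ∀ a b, B a b ≤ L0 := fun a b => min_le_right _ _
  have bs : ∀ a b, B a b = B b a := fun a b => by simp only [hB, trunc, h.symm a b]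
  set m := mass w B with hm
  have m1 : m ≤ 1 := h.mass_one ▸ mass_mono hw b1
  have hT : 0 ≤ tri w B := sum_nonneg fun a _ => sum_nonneg fun b _ => sum_nonneg fun c _ =>
    mul_nonneg (mul_nonneg (mul_nonneg (hw a) (hw b)) (hw c))
      (mul_nonneg (mul_nonneg (b0 _ _) (b0 _ _)) (b0 _ _))
  have hT' : 0 ≤ β / 3 * tri w B := by positivity
  have e0 := ent_nonneg h
  have e1 : ent w B + 25 / 2 * (1 - m) ≤ ent w U := by
    have := mass_mono hw (F := fun a b => B a b * Real.log (B a b) + 25 / 2 * (U a b - B a b))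
      (G := fun a b => U a b * Real.log (U a b)) fun a b => by
        rcases le_total (U a b) L0 with e | e
        · have : B a b = U a b := min_eq_left e
          rw [this]
          linarith
        · have : B a b = L0 := min_eq_right e
          rw [this]
          have a1 := fenchel (h.nonneg a b) (Real.log L0)
          rw [Real.exp_log hL] at a1
          nlinarith [log_L0]
    rwa [mass_add, mass_mul, mass_sub, h.mass_one] at this
  have e2 : m - 1 ≤ ent w B := by
    have := mass_mono hw (F := fun a b => B a b - 1)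
      (G := fun a b => B a b * Real.log (B a b)) fun a b => by
        have := fenchel (b0 a b) 0
        rw [Real.exp_zero] at this
        linarith
    rwa [mass_sub, mass_const h.w_sum] at this
  have m2 : 21 / 23 ≤ m := by linarith
  have m0 : 0 < m := by linarith
  have hi : m⁻¹ * m = 1 := inv_mul_cancel₀ m0.ne'
  have i0 : 0 < m⁻¹ := inv_pos.2 m0
  have i1 : m⁻¹ ≤ 23 / 21 := by nlinarith
  have i2 : 1 ≤ m⁻¹ := by nlinarith
  have hker : IsKer w fun a b => m⁻¹ * B a b :=
    ⟨hw, h.w_sum, fun a b => by rw [bs], fun a b => mul_nonneg i0.le (b0 a b),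
      by rw [mass_mul, hi]⟩
  refine ⟨fun a b => m⁻¹ * B a b, 1 - m, ⟨hker, fun a b => ?_⟩, by linarith, ?_, fun S => ?_⟩
  · have := b2 a b
    have := b0 a b
    simp only [L0, L1] at *
    nlinarith
  · have a1 : ent w (fun a b => m⁻¹ * B a b) = m⁻¹ * ent w B + Real.log m⁻¹ := by
      have : ent w (fun a b => m⁻¹ * B a b) = mass w fun a b =>
          m⁻¹ * (B a b * Real.log (B a b)) + Real.log m⁻¹ * (m⁻¹ * B a b) := by
        refine sum_congr rfl fun a _ => sum_congr rfl fun b _ => ?_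
        congr 1
        rcases (b0 a b).eq_or_lt with e | e
        · simp [← e]
        · rw [Real.log_mul i0.ne' e.ne']
          ring
      rw [this, mass_add, mass_mul, mass_mul, hker.mass_one, mul_one]
      rfl
    have a2 : tri w (fun a b => m⁻¹ * B a b) = m⁻¹ ^ 3 * tri w B := by
      simp only [tri, mul_sum]
      exact sum_congr rfl fun a _ => sum_congr rfl fun b _ => sum_congr rfl fun c _ => by ring
    have a3 := Real.log_le_sub_one_of_pos i0
    have a4 : m⁻¹ - 1 ≤ 11 / 10 * (1 - m) := by nlinarith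
    have a5 : m⁻¹ ^ 3 - 1 ≤ 37 / 10 * (1 - m) := by
      have : m⁻¹ ^ 3 - 1 = (m⁻¹ ^ 3 + m⁻¹ ^ 2 + m⁻¹) * (1 - m) := by
        field_simp
        ring
      rw [this]
      refine mul_le_mul_of_nonneg_right ?_ (by linarith)
      have c2 := pow_le_pow_left₀ i0.le i1 2
      have c3 := pow_le_pow_left₀ i0.le i1 3
      linarith
    have a6 : (m⁻¹ - 1) * ent w B ≤ m⁻¹ - 1 := by nlinarith
    have a7 : (m⁻¹ ^ 3 - 1) * (β / 3 * tri w B) ≤ m⁻¹ ^ 3 - 1 := by
      have : 1 ≤ m⁻¹ ^ 3 := one_le_pow₀ i2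
      nlinarith
    rw [a1, a2]
    nlinarith
  · have c1 := cutK_le hw hker.symm hker.nonneg S
    have c2 := cutK_le hw (U := fun a b => U a b - B a b) (fun a b => by rw [h.symm, bs])
      (fun a b => sub_nonneg.2 (b1 a b)) S
    rw [hker.mass_one] at c1
    rw [mass_sub, h.mass_one] at c2
    have c3 : cutK w (fun a b => U a b - B a b) S =
        cutK w U S - m * cutK w (fun a b => m⁻¹ * B a b) S := by
      simp only [cutK, mul_sum, ← sum_sub_distrib]
      refine sum_congr rfl fun a _ => sum_congr rfl fun b _ => ?_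
      field_simp
    rw [c3] at c2
    rw [abs_le]
    constructor <;> nlinarith [c1.1, c1.2, c2.1, c2.2]

theorem cut_of_xi (σ ε : ℝ) (hσ0 : 0 < σ) (hσ1 : σ < 1) (hε : 0 < ε) :
    ∃ ε' : ℝ, 0 < ε' ∧ ∀ (ι : Type) [Fintype ι] (w : ι → ℝ) (U : ι → ι → ℝ), Adm w U →
      exi (1 - σ) (1 + σ) w U ≤ ε' → tri w U ≤ 1 - σ ^ 3 + ε' →
      (∀ S, cutK w U S ≤ (1 + σ) / 2 + ε) ∧ ∃ S, (1 + σ) / 2 - ε ≤ cutK w U S := by
  obtain ⟨r, r0, r1, r2⟩ : ∃ r : ℝ, 0 < r ∧ r ≤ 1 ∧ r ≤ ε * σ ^ 3 / 10 :=
    ⟨min 1 (ε * σ ^ 3 / 10), lt_min one_pos (by positivity), min_le_left _ _, min_le_right _ _⟩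
  have s2 : σ ^ 2 ≤ 1 := pow_le_one₀ hσ0.le hσ1.le
  have s3 : σ ^ 3 ≤ σ := by nlinarith
  have s30 : 0 < σ ^ 3 := by positivity
  refine ⟨σ ^ 2 * r ^ 2, by positivity, fun ι _ w U hU hx ht => ?_⟩
  have h := hU.1
  have hw := h.w_nonneg
  set s : ι → ι → ℝ := fun a b => if 1 ≤ U a b then 1 else -1 with hs
  have sc : ∀ a b, s a b = 1 ∨ s a b = -1 := fun a b => by
    simp only [hs]
    split_ifs <;> simp
  have ssym : ∀ a b, s a b = s b a := fun a b => by simp only [hs, h.symm a b]
  set R : ι → ι → ℝ := fun a b => U a b - 1 - σ * s a b with hR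
  have hR2 : mass w (fun a b => R a b ^ 2) ≤ r ^ 2 := by
    have := mass_mono hw (F := fun a b => σ ^ 2 * R a b ^ 2)
      (G := fun a b => xi (1 - σ) (1 + σ) (U a b)) fun a b => by
        simp only [hR, hs, xi]
        split_ifs with e
        · have : σ ^ 2 ≤ (U a b - (1 - σ)) ^ 2 := pow_le_pow_left₀ hσ0.le (by linarith) 2
          nlinarith [sq_nonneg (U a b - (1 + σ))]
        · have : σ ^ 2 ≤ ((1 + σ) - U a b) ^ 2 := pow_le_pow_left₀ hσ0.le (by linarith) 2
          nlinarith [sq_nonneg (U a b - (1 - σ))]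
    rw [mass_mul] at this
    exact le_of_mul_le_mul_left (this.trans hx) (by positivity)
  have hRF : ∀ F : ι → ι → ℝ, (∀ a b, F a b ^ 2 ≤ 1) → |mass w fun a b => F a b * R a b| ≤ r :=
    fun F hF => by
      have a1 := mass_mono hw hF
      rw [mass_const h.w_sum] at a1
      refine abs_le.2 (abs_le_of_sq_le_sq' ((cs2 hw F R).trans ?_) r0.le)
      have a2 := mass_nonneg hw (F := fun a b => R a b ^ 2) fun _ _ => sq_nonneg _
      nlinarith
  have hchi : ∀ S : Finset ι, ∀ a b, chi S a b ^ 2 ≤ 1 := fun S a b => by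
    rcases chi_cases S a b with e | e <;> simp [e]
  have hcut : ∀ S : Finset ι, cutK w U S = mass w (fun a b => chi S a b * (1 + σ * s a b)) +
      mass w fun a b => chi S a b * R a b := fun S => by
    rw [cutK_eq h.symm, ← mass_add]
    congr 1
    funext a b
    simp only [hR]
    ring
  have r3 : r ≤ ε := by nlinarith
  refine ⟨fun S => ?_, ?_⟩
  · have a1 := mass_mono hw (F := fun a b => chi S a b * (1 + σ * s a b))
      (G := fun a b => (1 + σ) * chi S a b) fun a b => by
        rcases chi_cases S a b with e | e <;> rcases sc a b with e' | e' <;> rw [e, e'] <;>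
          linarith
    rw [mass_mul] at a1
    have a2 := mass_chi h.w_sum S
    have a3 := (abs_le.1 (hRF _ (hchi S))).2
    rw [hcut]
    nlinarith
  · set W : ι → ι → ℝ := fun a b => U a b - 1 with hW
    have hs2 : mass w (fun a b => s a b ^ 2) ≤ 1 ^ 2 := by
      have := mass_mono hw (F := fun a b => s a b ^ 2) (G := fun _ _ => 1 ^ 2) fun a b => by
        rcases sc a b with e | e <;> simp [e]
      rwa [mass_const h.w_sum] at this
    have hW2 : mass w (fun a b => W a b ^ 2) ≤ 2 ^ 2 := by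
      have := mass_mono hw (F := fun a b => W a b ^ 2) (G := fun a b => 2 + 2 * R a b ^ 2)
        fun a b => by
          have e1 : W a b = σ * s a b + R a b := by simp only [hW, hR]; ring
          have e2 : (σ * s a b) ^ 2 ≤ 1 := by rcases sc a b with e | e <;> simpa [e] using s2
          rw [e1]
          nlinarith [sq_nonneg (σ * s a b - R a b)]
      rw [mass_add, mass_mul, mass_const h.w_sum] at this
      nlinarith
    have a1 := (abs_le.1 (tri3_abs_le hw r0.le two_pos.le two_pos.le hR2 hW2 hW2)).1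
    have a2 := (abs_le.1 (tri3_abs_le hw one_pos.le r0.le two_pos.le hs2 hR2 hW2)).1
    have a3 := (abs_le.1 (tri3_abs_le hw one_pos.le one_pos.le r0.le hs2 hs2 hR2)).1
    have a4 : tri3 w W W W = σ ^ 3 * tri3 w s s s + tri3 w R W W + σ * tri3 w s R W +
        σ ^ 2 * tri3 w s s R := by
      simp only [tri3, mul_sum, ← sum_add_distrib, hW, hR]
      exact sum_congr rfl fun a _ => sum_congr rfl fun b _ => sum_congr rfl fun c _ => by ring
    have a5 : tri3 w W W W ≤ tri w U - 1 := tri_W h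
    have a6 : σ ^ 3 * (1 + tri3 w s s s) ≤ 8 * r := by
      have c1 : -(2 * r) ≤ σ * tri3 w s R W := by nlinarith
      have c2 : -r ≤ σ ^ 2 * tri3 w s s R := by nlinarith [sq_nonneg σ]
      have c3 : σ ^ 2 * r ^ 2 ≤ r := by nlinarith [sq_nonneg r]
      linarith
    have a7 : 1 + tri3 w s s s ≤ 8 / 10 * ε := by
      refine le_of_mul_le_mul_left (a6.trans ?_) s30
      linarith
    have a8 : ∑ z, w z * mass w (fun a b => 1 + s a b * (s z a * s z b)) = 1 + tri3 w s s s := by
      simp only [mass_add, mass_const h.w_sum, mul_add, sum_add_distrib, mul_one, h.w_sum]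
      congr 1
      simp only [tri3, mass, mul_sum]
      refine sum_congr rfl fun z _ => sum_congr rfl fun a _ => sum_congr rfl fun b _ => ?_
      rw [ssym b z]
      ring
    obtain ⟨z, hz⟩ : ∃ z, mass w (fun a b => 1 + s a b * (s z a * s z b)) ≤ 8 / 10 * ε := by
      by_contra hc
      push Not at hc
      obtain ⟨z, -, hz⟩ := exists_ne_zero_of_sum_ne_zero (h.w_sum.trans_ne one_ne_zero)
      have := sum_lt_sum (s := univ) (fun z _ => mul_le_mul_of_nonneg_left (hc z).le (hw z))
        ⟨z, mem_univ _, mul_lt_mul_of_pos_left (hc z) ((hw z).lt_of_ne' hz)⟩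
      rw [← sum_mul, h.w_sum, a8] at this
      linarith
    let S : Finset ι := univ.filter fun a => 1 ≤ U z a
    have hS : ∀ a, sgn S a = s z a := fun a => by simp [sgn, S, hs]
    refine ⟨S, ?_⟩
    have b1 := mass_mono hw
      (F := fun a b => (1 + σ) / 2 * (s a b + 1 - (1 + s a b * (s z a * s z b))))
      (G := fun a b => chi S a b * (1 + σ * s a b)) fun a b => by
        rw [chi, hS, hS]
        rcases sc a b with e | e <;> rcases sc z a with e1 | e1 <;> rcases sc z b with e2 | e2 <;>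
          rw [e, e1, e2] <;> linarith
    rw [mass_mul, mass_sub, mass_add, mass_const h.w_sum] at b1
    have b2 := (abs_le.1 (hRF (fun _ _ => 1) fun _ _ => by simp)).2
    have b3 : mass w (fun a b => 1 * R a b) = -(σ * mass w s) := by
      simp only [one_mul, hR]
      rw [mass_sub, mass_sub, mass_mul, mass_const h.w_sum, h.mass_one]
      ring
    have b4 : -(ε / 10) ≤ mass w s := by
      refine le_of_mul_le_mul_left ?_ hσ0
      nlinarith
    have b5 := (abs_le.1 (hRF _ (hchi S))).1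
    have b6 : r ≤ ε / 10 := by nlinarith
    rw [hcut]
    nlinarith

end
end Pool.Agent.MP_b5eafd_co
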