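import Pool.Agent.MP_b5eafd_co.CDefs
import Pool.Agent.MP_b5eafd_co.Kern

/-! Auxiliary lemmas for `Core`: weighted averages and row identities. -/

set_option autoImplicit false
open Finset

namespace Pool.Agent.MP_b5eafd_co
noncomputable section
open Classical

namespace CoreAux

variable {ι : Type} [Fintype ι]

/-- weighted average. -/
def E (w : ι → ℝ) (f : ι → ℝ) : ℝ := ∑ y, w y * f y

theorem E_add (w : ι → ℝ) (f g : ι → ℝ) : E w (fun y => f y + g y) = E w f + E w g := by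
  simp only [E, mul_add, sum_add_distrib]

theorem E_sub (w : ι → ℝ) (f g : ι → ℝ) : E w (fun y => f y - g y) = E w f - E w g := by
  simp only [E, mul_sub, sum_sub_distrib]

theorem E_cmul (w : ι → ℝ) (c : ℝ) (f : ι → ℝ) : E w (fun y => c * f y) = c * E w f := by
  simp only [E, mul_sum]
  exact sum_congr rfl fun y _ => by ring

theorem E_const {w : ι → ℝ} (h1 : ∑ y, w y = 1) (c : ℝ) : E w (fun _ => c) = c := by
  simp only [E]
  rw [← sum_mul, h1, one_mul]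

theorem E_mono {w : ι → ℝ} (h0 : ∀ y, 0 ≤ w y) {f g : ι → ℝ} (h : ∀ y, f y ≤ g y) :
    E w f ≤ E w g :=
  sum_le_sum fun y _ => mul_le_mul_of_nonneg_left (h y) (h0 y)

theorem E_nonneg {w : ι → ℝ} (h0 : ∀ y, 0 ≤ w y) {f : ι → ℝ} (h : ∀ y, 0 ≤ f y) : 0 ≤ E w f :=
  sum_nonneg fun y _ => mul_nonneg (h0 y) (h y)

theorem E_congr (w : ι → ℝ) {f g : ι → ℝ} (h : ∀ y, f y = g y) : E w f = E w g :=
  sum_congr rfl fun y _ => by rw [h y]

theorem E_le_const {w : ι → ℝ} (h0 : ∀ y, 0 ≤ w y) (h1 : ∑ y, w y = 1) {f : ι → ℝ} {c : ℝ}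
    (h : ∀ y, f y ≤ c) : E w f ≤ c := by
  have := E_mono h0 (f := f) (g := fun _ => c) h
  rwa [E_const h1] at this

/-- linear combination of three functions and a constant. -/
theorem E_lin3 {w : ι → ℝ} (h1 : ∑ y, w y = 1) (c0 c1 c2 c3 : ℝ) (g1 g2 g3 : ι → ℝ) :
    E w (fun y => c0 + c1 * g1 y + c2 * g2 y + c3 * g3 y)
      = c0 + c1 * E w g1 + c2 * E w g2 + c3 * E w g3 := by
  rw [E_add, E_add, E_add, E_cmul, E_cmul, E_cmul, E_const h1]

theorem E_lin4 {w : ι → ℝ} (h1 : ∑ y, w y = 1) (c0 c1 c2 c3 c4 : ℝ) (g1 g2 g3 g4 : ι → ℝ) :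
    E w (fun y => c0 + c1 * g1 y + c2 * g2 y + c3 * g3 y + c4 * g4 y)
      = c0 + c1 * E w g1 + c2 * E w g2 + c3 * E w g3 + c4 * E w g4 := by
  rw [E_add, E_lin3 h1, E_cmul]

theorem E_lin5 {w : ι → ℝ} (h1 : ∑ y, w y = 1) (c0 c1 c2 c3 c4 c5 : ℝ) (g1 g2 g3 g4 g5 : ι → ℝ) :
    E w (fun y => c0 + c1 * g1 y + c2 * g2 y + c3 * g3 y + c4 * g4 y + c5 * g5 y)
      = c0 + c1 * E w g1 + c2 * E w g2 + c3 * E w g3 + c4 * E w g4 + c5 * E w g5 := by
  rw [E_add, E_lin4 h1, E_cmul]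

theorem E_lin6 {w : ι → ℝ} (h1 : ∑ y, w y = 1) (c0 c1 c2 c3 c4 c5 c6 : ℝ)
    (g1 g2 g3 g4 g5 g6 : ι → ℝ) :
    E w (fun y => c0 + c1 * g1 y + c2 * g2 y + c3 * g3 y + c4 * g4 y + c5 * g5 y + c6 * g6 y)
      = c0 + c1 * E w g1 + c2 * E w g2 + c3 * E w g3 + c4 * E w g4 + c5 * E w g5
        + c6 * E w g6 := by
  rw [E_add, E_lin5 h1, E_cmul]

theorem E_lin7 {w : ι → ℝ} (h1 : ∑ y, w y = 1) (c0 c1 c2 c3 c4 c5 c6 c7 : ℝ)
    (g1 g2 g3 g4 g5 g6 g7 : ι → ℝ) :
    E w (fun y => c0 + c1 * g1 y + c2 * g2 y + c3 * g3 y + c4 * g4 y + c5 * g5 y + c6 * g6 y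
        + c7 * g7 y)
      = c0 + c1 * E w g1 + c2 * E w g2 + c3 * E w g3 + c4 * E w g4 + c5 * E w g5
        + c6 * E w g6 + c7 * E w g7 := by
  rw [E_add, E_lin6 h1, E_cmul]

variable {w : ι → ℝ} {U : ι → ι → ℝ}

theorem deg_eq (x : ι) : deg w U x = E w (U x) := rfl

theorem sum_deg (h : IsKer w U) : E w (deg w U) = 1 := by
  have := h.mass_one
  simp only [mass] at this
  rw [← this]
  simp only [E, deg, mul_sum]
  exact sum_congr rfl fun a _ => sum_congr rfl fun b _ => by ring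

theorem sum_e (h : IsKer w U) : E w (fun x => deg w U x - 1) = 0 := by
  rw [E_sub, sum_deg h, E_const h.w_sum, sub_self]

theorem deg_nonneg (h : IsKer w U) (x : ι) : 0 ≤ deg w U x :=
  E_nonneg h.w_nonneg (h.nonneg x)

theorem deg_le (h : IsKer w U) {M : ℝ} (hM : ∀ x y, U x y ≤ M) (x : ι) : deg w U x ≤ M :=
  E_le_const h.w_nonneg h.w_sum (hM x)

theorem sqK_nonneg (h : IsKer w U) (x y : ι) : 0 ≤ sqK w U x y :=
  E_nonneg h.w_nonneg (f := fun z => U x z * U z y) fun z => mul_nonneg (h.nonneg x z) (h.nonneg z y)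

theorem sqK_le (h : IsKer w U) {M : ℝ} (hM : ∀ x y, U x y ≤ M) (x y : ι) :
    sqK w U x y ≤ M ^ 2 := by
  refine E_le_const h.w_nonneg h.w_sum (f := fun z => U x z * U z y) fun z => ?_
  have h1 := h.nonneg x z
  have h2 := h.nonneg z y
  have h3 := hM x z
  have h4 := hM z y
  nlinarith

theorem tau_nonneg (h : IsKer w U) (x : ι) : 0 ≤ tau w U x :=
  E_nonneg h.w_nonneg (f := fun y => U x y * sqK w U x y)
    fun y => mul_nonneg (h.nonneg x y) (sqK_nonneg h x y)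

theorem eta_eq : eta w U = E w (fun x => (deg w U x - 1) ^ 2) := rfl

theorem eta_nonneg (h : IsKer w U) : 0 ≤ eta w U :=
  E_nonneg h.w_nonneg (f := fun x => (deg w U x - 1) ^ 2) fun _ => sq_nonneg _

/-- the row sums of `U^2`. -/
def Ud (w : ι → ℝ) (U : ι → ι → ℝ) (x : ι) : ℝ := E w (sqK w U x)

theorem Ud_eq (x : ι) : Ud w U x = ∑ z, w z * (U x z * deg w U z) := by
  simp only [Ud, E, sqK, deg, mul_sum]
  rw [sum_comm]
  exact sum_congr rfl fun z _ => sum_congr rfl fun y _ => by ring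

theorem E_mul_Ud (f : ι → ℝ) :
    E w (fun x => f x * Ud w U x) = qf w U f (deg w U) := by
  simp only [E, qf, Ud_eq, mul_sum]
  exact sum_congr rfl fun x _ => sum_congr rfl fun z _ => by ring

theorem qf_one_left (h : IsKer w U) (g : ι → ℝ) :
    qf w U (fun _ => 1) g = E w (fun z => g z * deg w U z) := by
  simp only [E, qf, deg, mul_sum]
  rw [sum_comm]
  exact sum_congr rfl fun z _ => sum_congr rfl fun x _ => by rw [h.symm z x]; ring

theorem qf_one_right (f : ι → ℝ) :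
    qf w U f (fun _ => 1) = E w (fun x => f x * deg w U x) := by
  simp only [E, qf, deg, mul_sum]
  exact sum_congr rfl fun z _ => sum_congr rfl fun x _ => by ring

theorem qf_sub_right (f g k : ι → ℝ) :
    qf w U f (fun x => g x - k x) = qf w U f g - qf w U f k := by
  simp only [qf, ← sum_sub_distrib]
  exact sum_congr rfl fun z _ => sum_congr rfl fun x _ => by ring

theorem sum_e_deg (h : IsKer w U) : E w (fun x => (deg w U x - 1) * deg w U x) = eta w U := by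
  have h1 : E w (fun x => (deg w U x - 1) * deg w U x)
      = E w (fun x => (deg w U x - 1) ^ 2 + (deg w U x - 1)) := E_congr w fun x => by ring
  rw [h1, E_add, sum_e h, add_zero, eta_eq]

theorem sum_Ud (h : IsKer w U) : E w (Ud w U) = 1 + eta w U := by
  have h1 : E w (Ud w U) = E w (fun x => (1 : ℝ) * Ud w U x) := E_congr w fun x => by ring
  rw [h1, E_mul_Ud, qf_one_left h]
  have h2 : E w (fun z => deg w U z * deg w U z)
      = E w (fun x => (deg w U x - 1) * deg w U x + deg w U x) := E_congr w fun x => by ring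
  rw [h2, E_add, sum_e_deg h, sum_deg h, add_comm]

theorem sum_e_Ud (h : IsKer w U) :
    E w (fun x => (deg w U x - 1) * Ud w U x) = eta w U + eUe w U := by
  rw [E_mul_Ud, eUe, qf_sub_right, qf_one_right, sum_e_deg h]
  ring

theorem L1_pos : (0 : ℝ) < L1 := by unfold L1; norm_num

variable {β ν δ : ℝ}

theorem exp_Y (h : Crit w U β ν δ) (x y : ι) :
    Real.exp (Real.log (U x y) + β - ν) = Real.exp (β - ν) * U x y := by
  rw [show Real.log (U x y) + β - ν = (β - ν) + Real.log (U x y) by ring, Real.exp_add,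
    Real.exp_log (h.upos x y)]

theorem ch_le (h : Crit w U β ν δ) (hβ : 0 ≤ β) (hδ : δ ≤ 1) :
    Real.exp (β - ν) ≤ Real.exp (β + 1) := by
  have h1 := ent_nonneg h.adm.1
  have h2 := tri_nonneg h.adm.1
  have h3 := (abs_le.1 h.nu).1
  have h4 := mul_nonneg hβ h2
  exact Real.exp_le_exp.2 (by linarith)

theorem tau_bound (h : Crit w U β ν δ) (hβ : 0 ≤ β) {t : ℝ} (ht : |tri w U - t| ≤ δ) (x : ι) :
    |β * tau w U x - (β * t - 2 * (deg w U x - 1))| ≤ (β + 1) * δ := by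
  have h1 := abs_le.1 (h.row x)
  have h2 := abs_le.1 ht
  have h3 := mul_le_mul_of_nonneg_left h2.1 hβ
  have h4 := mul_le_mul_of_nonneg_left h2.2 hβ
  rw [abs_le]
  constructor <;> nlinarith

theorem UY_bound (h : Crit w U β ν δ) (hβ : 0 ≤ β) (hδ : 0 ≤ δ) {t : ℝ}
    (ht : |tri w U - t| ≤ δ) (x : ι) :
    |E w (fun y => U x y * (Real.log (U x y) + β - ν))
      - (β * (1 - t) + (β + 2) * (deg w U x - 1))| ≤ δ * (L1 + β + 1) := by
  have hk := h.adm.1
  have h1 := abs_le.1 (tau_bound h hβ ht x)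
  have hd := deg_le hk h.adm.2 x
  have hdd := mul_le_mul_of_nonneg_left hd hδ
  have hup : E w (fun y => U x y * (Real.log (U x y) + β - ν))
      ≤ E w (fun y => 0 + (β + δ) * U x y + (-β) * (U x y * sqK w U x y) + 0 * U x y) := by
    refine E_mono hk.w_nonneg fun y => ?_
    have h2 := (abs_le.1 (h.el x y)).2
    have h3 := mul_le_mul_of_nonneg_left h2 (hk.nonneg x y)
    nlinarith
  have hlo : E w (fun y => 0 + (β - δ) * U x y + (-β) * (U x y * sqK w U x y) + 0 * U x y)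
      ≤ E w (fun y => U x y * (Real.log (U x y) + β - ν)) := by
    refine E_mono hk.w_nonneg fun y => ?_
    have h2 := (abs_le.1 (h.el x y)).1
    have h3 := mul_le_mul_of_nonneg_left h2 (hk.nonneg x y)
    nlinarith
  rw [E_lin3 hk.w_sum] at hup hlo
  have e1 : E w (U x) = deg w U x := rfl
  have e2 : E w (fun y => U x y * sqK w U x y) = tau w U x := rfl
  rw [e1, e2] at hup hlo
  rw [abs_le]
  constructor <;> nlinarith

/-- the error constant of the row inequality. -/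
def Kr (β C Δ : ℝ) : ℝ :=
  2 * β * (1 + L1 ^ 2) + 1 + |C| + Real.exp (β + 1) * |bC C Δ| * (L1 + β + 1)

theorem Kr_nonneg (hβ : 0 ≤ β) (C Δ : ℝ) : 0 ≤ Kr β C Δ := by
  have := L1_pos
  unfold Kr
  positivity

theorem sq_pt {β C δ p r : ℝ} (hβ : 0 ≤ β) (hδ1 : δ ≤ 1) (hp0 : 0 ≤ p) (hp : p ≤ L1 ^ 2)
    (hr : |r| ≤ δ) :
    (β * (1 - p) + r) ^ 2 - C * (β * (1 - p) + r) ≤
      β ^ 2 * (1 - p) ^ 2 - C * β * (1 - p) + δ * (2 * β * (1 + L1 ^ 2) + 1 + |C|) := by
  have hδ0 : 0 ≤ δ := le_trans (abs_nonneg r) hr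
  have h1 : |1 - p| ≤ 1 + L1 ^ 2 := by
    rw [abs_le]; constructor <;> nlinarith [sq_nonneg L1]
  have h2 : (1 - p) * r ≤ (1 + L1 ^ 2) * δ := by
    calc (1 - p) * r ≤ |(1 - p) * r| := le_abs_self _
      _ = |1 - p| * |r| := abs_mul _ _
      _ ≤ (1 + L1 ^ 2) * δ := mul_le_mul h1 hr (abs_nonneg _) (by positivity)
  have h3 : r ^ 2 ≤ δ := by
    have : r ^ 2 ≤ δ ^ 2 := by
      rw [← sq_abs r]; exact pow_le_pow_left₀ (abs_nonneg r) hr 2
    nlinarith
  have h4 : -(C * r) ≤ |C| * δ := by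
    calc -(C * r) ≤ |C * r| := neg_le_abs _
      _ = |C| * |r| := abs_mul _ _
      _ ≤ |C| * δ := mul_le_mul_of_nonneg_left hr (abs_nonneg _)
  have h5 := mul_le_mul_of_nonneg_left h2 hβ
  nlinarith

/-- the averaged two point function along a row. -/
theorem row_fT (P : Par) (hP : P.OK) (h : Crit w U P.β ν δ) (hδ0 : 0 ≤ δ) (hδ1 : δ ≤ 1)
    (ht : |tri w U - (1 - P.u ^ 3)| ≤ δ) (Δ : ℝ) (x : ι) :
    E w (fun y => fT P.C Δ (Real.log (U x y) + P.β - ν)) ≤
      P.β ^ 2 * (sq2 w U x - 1 - P.L * (Ud w U x - 1)) + dC P.C Δ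
        - Real.exp (P.β - ν) * P.bE Δ (deg w U x - 1) + δ * Kr P.β P.C Δ := by
  have hk := h.adm.1
  have hβ := hP.β_pos
  set ch := Real.exp (P.β - ν) with hch
  have hch0 : 0 < ch := Real.exp_pos _
  have hch1 : ch ≤ Real.exp (P.β + 1) := ch_le h hβ.le hδ1
  have h1 : E w (fun y => fT P.C Δ (Real.log (U x y) + P.β - ν)) ≤
      E w (fun y => (P.β ^ 2 - P.C * P.β + dC P.C Δ + δ * (2 * P.β * (1 + L1 ^ 2) + 1 + |P.C|))
        + (P.C * P.β - 2 * P.β ^ 2) * sqK w U x y + P.β ^ 2 * sqK w U x y ^ 2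
        + (-(aC P.C Δ * ch)) * U x y
        + (-(bC P.C Δ * ch)) * (U x y * (Real.log (U x y) + P.β - ν))) := by
    refine E_mono hk.w_nonneg fun y => ?_
    have h2 := sq_pt (C := P.C) hβ.le hδ1 (sqK_nonneg hk x y) (sqK_le hk h.adm.2 x y) (h.el x y)
    have e1 : P.β * (1 - sqK w U x y) + (Real.log (U x y) - ν + P.β * sqK w U x y)
        = Real.log (U x y) + P.β - ν := by ring
    rw [e1] at h2
    simp only [fT]
    rw [exp_Y h, ← hch]
    nlinarith
  rw [E_lin4 hk.w_sum] at h1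
  have e1 : E w (U x) = deg w U x := rfl
  have e2 : E w (fun y => sqK w U x y ^ 2) = sq2 w U x := rfl
  have e3 : E w (sqK w U x) = Ud w U x := rfl
  rw [e1, e2, e3] at h1
  have h3 := UY_bound h hβ.le hδ0 ht x
  set Z := E w (fun y => U x y * (Real.log (U x y) + P.β - ν)) with hZ
  set r3 := Z - (P.β * (1 - (1 - P.u ^ 3)) + (P.β + 2) * (deg w U x - 1)) with hr3
  have h4 : -(bC P.C Δ * ch * r3) ≤ δ * (Real.exp (P.β + 1) * |bC P.C Δ| * (L1 + P.β + 1)) := by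
    calc -(bC P.C Δ * ch * r3) ≤ |bC P.C Δ * ch * r3| := neg_le_abs _
      _ = ch * |bC P.C Δ| * |r3| := by rw [abs_mul, abs_mul, abs_of_pos hch0]; ring
      _ ≤ Real.exp (P.β + 1) * |bC P.C Δ| * (δ * (L1 + P.β + 1)) :=
        mul_le_mul (mul_le_mul_of_nonneg_right hch1 (abs_nonneg _)) h3 (abs_nonneg _)
          (by positivity)
      _ = _ := by ring
  have e4 : P.β ^ 2 * P.L = 2 * P.β ^ 2 - P.C * P.β := by
    unfold Par.L; field_simp
  have e5 : Z = r3 + (P.β * P.u ^ 3 + (P.β + 2) * (deg w U x - 1)) := by rw [hr3]; ring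
  have e6 : P.β ^ 2 * (sq2 w U x - 1 - P.L * (Ud w U x - 1))
      = P.β ^ 2 * (sq2 w U x - 1) - (2 * P.β ^ 2 - P.C * P.β) * (Ud w U x - 1) := by
    rw [← e4]; ring
  rw [e6]
  rw [e5] at h1
  unfold Kr Par.bE
  nlinarith

end CoreAux

end
end Pool.Agent.MP_b5eafd_co
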