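import Pool.Agent.MP_b5eafd_co.CoreA

/-! Auxiliary lemmas for `Core`: the weighted average of the row inequalities. -/

set_option autoImplicit false
open Finset

namespace Pool.Agent.MP_b5eafd_co
noncomputable section
open Classical

namespace CoreAux

variable {ι : Type} [Fintype ι] {w : ι → ℝ}

theorem psi_pt {d s ψ : ℝ} (hd : 0 < d) :
    2 * (d + s * (d - 1)) * ψ - (d + 2 * s * (d - 1) + s ^ 2 * ((d - 1) ^ 2 / d)) ≤ d * ψ ^ 2 := by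
  have h1 : 0 ≤ (d * ψ - (d + s * (d - 1))) ^ 2 / d := div_nonneg (sq_nonneg _) hd.le
  have h2 : (d * ψ - (d + s * (d - 1))) ^ 2 / d = d * ψ ^ 2 -
      (2 * (d + s * (d - 1)) * ψ - (d + 2 * s * (d - 1) + s ^ 2 * ((d - 1) ^ 2 / d))) := by
    field_simp; ring
  linarith

/-- the abstract averaging step. -/
theorem scalar_avg (h0 : ∀ y, 0 ≤ w y) (h1 : ∑ y, w y = 1) (d ψ φ Ud T : ι → ℝ)
    (a em dl κ Kt K0 Lq μ t0 ib L s c lam η eue B m l1 l2 : ℝ)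
    (hd : E w d = 1) (hη : E w (fun x => (d x - 1) ^ 2) = η) (hUd : E w Ud = 1 + η)
    (heU : E w (fun x => (d x - 1) * Ud x) = η + eue)
    (hψ : E w (fun x => ψ x ^ 2) = 1) (hφ : E w (fun x => φ x ^ 2) ≤ 1) (hc : E w ψ = c)
    (hlam : E w (fun x => d x * ψ x) = lam * c)
    (hem : ∀ x, -em ≤ d x - 1) (hem1 : em < 1) (hup : ∀ x, d x - 1 ≤ a + dl)
    (haem : 0 ≤ a + em) (hdl : 0 ≤ dl) (hKt : 0 ≤ Kt) (hK0 : K0 ≤ Kt) (hLq : 0 ≤ Lq)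
    (hμ : 0 ≤ μ) (ht0 : 0 ≤ t0) (hL : 0 ≤ L) (hB : ∀ x, -T x ≤ B)
    (hrow : ∀ x, K0 * s ^ 2 * (d x - 1) ^ 2 / (1 + (d x - 1)) - (a - (d x - 1)) * T x ≤
      m + l1 * (d x - 1) + l2 * (d x - 1) ^ 2)
    (hR : ∀ x, 0 ≤ Kt * ψ x ^ 2 + Lq * φ x ^ 2 - μ * (t0 - 2 * ib * (d x - 1)) - 1
      - L * (Ud x - 1) - T x + κ) :
    0 ≤ a * (Kt - 1 - μ * t0) + m + Lq * (a + em)
      + (L * (1 - a) - 2 * μ * ib + l2 + (Kt - K0) * s ^ 2 / (1 - em)) * η + L * eue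
      - Kt * (2 * (1 + s) * (lam - 1) * c - 2 * (1 - c))
      + dl * (Kt + Lq + B) + κ * (a + dl) := by
  have hη0 : 0 ≤ η := by rw [← hη]; exact E_nonneg h0 fun x => sq_nonneg _
  have hpt : ∀ x, (0 : ℝ) ≤
      ((Kt + m - μ * a * t0 - a + L * a + dl * (B + L) + κ * (a + dl))
        + (Kt * (a + 1) + dl * Kt) * ψ x ^ 2 + (Lq * (a + em) + dl * Lq) * φ x ^ 2
        + (2 * Kt * s) * ψ x + (-(2 * Kt * (1 + s))) * (d x * ψ x)
        + (Kt * (1 + 2 * s) + l1 + μ * t0 + 2 * μ * a * ib + 1 - L + 2 * dl * μ * ib - κ)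
          * (d x - 1)
        + (l2 + (Kt - K0) * s ^ 2 / (1 - em) - 2 * μ * ib) * (d x - 1) ^ 2
        + (-(L * a) - dl * L) * Ud x) + L * ((d x - 1) * Ud x) := by
    intro x
    have hdx : 0 < d x := by linarith [hem x]
    have hρ : 0 ≤ a + dl - (d x - 1) := by linarith [hup x]
    have p1 := mul_nonneg hρ (hR x)
    have p2 := mul_le_mul_of_nonneg_left (psi_pt (s := s) (ψ := ψ x) hdx) hKt
    have p3 : (d x - 1) ^ 2 / d x ≤ (d x - 1) ^ 2 / (1 - em) :=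
      div_le_div_of_nonneg_left (sq_nonneg _) (by linarith) (by linarith [hem x])
    have p4 := mul_le_mul_of_nonneg_left p3 (mul_nonneg (sub_nonneg.2 hK0) (sq_nonneg s))
    have p5 : (a - (d x - 1)) * φ x ^ 2 ≤ (a + em) * φ x ^ 2 :=
      mul_le_mul_of_nonneg_right (by linarith [hem x]) (sq_nonneg _)
    have p6 := mul_le_mul_of_nonneg_left p5 hLq
    have p7 := hrow x
    have e7 : K0 * s ^ 2 * (d x - 1) ^ 2 / (1 + (d x - 1)) = K0 * s ^ 2 * ((d x - 1) ^ 2 / d x) := by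
      rw [show 1 + (d x - 1) = d x by ring]; ring
    rw [e7] at p7
    have p8 := mul_le_mul_of_nonneg_left (hB x) hdl
    have p9 := mul_nonneg hdl (mul_nonneg hμ ht0)
    have e8 : (Kt - K0) * s ^ 2 / (1 - em) * (d x - 1) ^ 2
        = (Kt - K0) * s ^ 2 * ((d x - 1) ^ 2 / (1 - em)) := by ring
    generalize (d x - 1) ^ 2 / d x = q1 at *
    generalize (d x - 1) ^ 2 / (1 - em) = q2 at *
    generalize (Kt - K0) * s ^ 2 / (1 - em) = q3 at *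
    nlinarith
  have hav := E_nonneg h0 hpt
  rw [E_add, E_lin7 h1, E_cmul, hψ, hc, hlam, hη, hUd, heU, E_sub, hd, E_const h1] at hav
  have p1 : (Lq * (a + em) + dl * Lq) * E w (fun x => φ x ^ 2) ≤ (Lq * (a + em) + dl * Lq) * 1 :=
    mul_le_mul_of_nonneg_left hφ (by positivity)
  have p2 := mul_nonneg hdl (mul_nonneg hL hη0)
  generalize (Kt - K0) * s ^ 2 / (1 - em) = q3 at *
  nlinarith

theorem mu_facts (P : Par) (hP : P.OK) {δ l lam : ℝ} (hδ : 0 ≤ δ) (hl : 0 ≤ l) (hlam : 1 ≤ lam) :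
    P.u ≤ P.mu δ l lam ∧
      P.u ^ 3 + (lam ^ 3 - 1 + l ^ 3 + δ * (L1 + 1)) ≤ P.mu δ l lam ^ 3 := by
  have hu := hP.u_pos
  have hL := L1_pos
  have h1 : 1 ≤ lam ^ 3 := one_le_pow₀ hlam
  have h2 : 0 ≤ lam ^ 3 - 1 + l ^ 3 + δ * (L1 + 1) := by
    have : 0 ≤ l ^ 3 := by positivity
    have : 0 ≤ δ * (L1 + 1) := by positivity
    linarith
  unfold Par.mu
  set z := lam ^ 3 - 1 + l ^ 3 + δ * (L1 + 1) with hz
  have h3 : 0 ≤ z / (3 * P.u ^ 2) := by positivity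
  have h4 : z = 3 * P.u ^ 2 * (z / (3 * P.u ^ 2)) := by field_simp
  refine ⟨by linarith, ?_⟩
  generalize z / (3 * P.u ^ 2) = q at *
  have h5 : 0 ≤ 3 * P.u * q ^ 2 + q ^ 3 := by positivity
  nlinarith

theorem a_pos (P : Par) (hP : P.OK) : 0 < P.a := by
  have h1 : P.u ^ 3 < 1 := pow_lt_one₀ hP.u_pos.le hP.u_lt (by norm_num)
  have h2 := hP.β_pos
  unfold Par.a
  have : 0 < 1 - P.u ^ 3 := by linarith
  positivity

/-- a bound for `bE`. -/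
def Bb (P : Par) (Δ : ℝ) : ℝ :=
  |aC P.C Δ| * (P.a + P.β + 2) + |bC P.C Δ| * (P.β + (P.β + 2) * (P.a + P.β + 1))

theorem Bb_nonneg (P : Par) (hP : P.OK) (Δ : ℝ) : 0 ≤ Bb P Δ := by
  have := a_pos P hP
  have := hP.β_pos
  unfold Bb
  positivity

theorem bE_abs_le (P : Par) (hP : P.OK) (Δ : ℝ) {e : ℝ} (h1 : -1 ≤ e) (h2 : e ≤ P.a + P.β + 1) :
    |P.bE Δ e| ≤ Bb P Δ := by
  have ha := a_pos P hP
  have hβ := hP.β_pos
  have hu3 : P.u ^ 3 ≤ 1 := pow_le_one₀ hP.u_pos.le hP.u_lt.le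
  have hu0 : 0 ≤ P.u ^ 3 := pow_nonneg hP.u_pos.le 3
  have h3 : |1 + e| ≤ P.a + P.β + 2 := by rw [abs_le]; constructor <;> linarith
  have h4 : |P.β * P.u ^ 3 + (P.β + 2) * e| ≤ P.β + (P.β + 2) * (P.a + P.β + 1) := by
    rw [abs_le]; constructor <;> nlinarith
  unfold Par.bE Bb
  calc _ ≤ |aC P.C Δ * (1 + e)| + |bC P.C Δ * (P.β * P.u ^ 3 + (P.β + 2) * e)| := abs_add_le _ _
    _ = |aC P.C Δ| * |1 + e| + |bC P.C Δ| * |P.β * P.u ^ 3 + (P.β + 2) * e| := by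
      rw [abs_mul, abs_mul]
    _ ≤ _ := add_le_add (mul_le_mul_of_nonneg_left h3 (abs_nonneg _))
      (mul_le_mul_of_nonneg_left h4 (abs_nonneg _))

/-- the total error constant for one `Δ`. -/
def G (P : Par) (Δ : ℝ) : ℝ := Kr P.β P.C Δ + P.ch0 * Bb P Δ + |dC P.C Δ|

theorem G_nonneg (P : Par) (hP : P.OK) (Δ : ℝ) : 0 ≤ G P Δ := by
  have h1 := Kr_nonneg hP.β_pos.le P.C Δ
  have h2 := Bb_nonneg P hP Δ
  have h3 := hP.ch_pos
  unfold G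
  positivity

end CoreAux

end
end Pool.Agent.MP_b5eafd_co
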