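import Mathlib

/-! Shared definitions for the max cut of random triangle-free graphs. -/

set_option autoImplicit false
open Finset

namespace Pool.Agent.MP_b5eafd_co
noncomputable section
open Classical

/-! ### Step kernels on a finite weighted type space -/
section Kernel
variable {ι : Type} [Fintype ι]

/-- total mass `E U`. -/
def mass (w : ι → ℝ) (U : ι → ι → ℝ) : ℝ := ∑ a, ∑ b, w a * w b * U a b
/-- relative entropy `E [U log U]`. -/
def ent (w : ι → ℝ) (U : ι → ι → ℝ) : ℝ := ∑ a, ∑ b, w a * w b * (U a b * Real.log (U a b))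
/-- triangle density `tr U^3`. -/
def tri (w : ι → ℝ) (U : ι → ι → ℝ) : ℝ :=
  ∑ a, ∑ b, ∑ c, w a * w b * w c * (U a b * U b c * U c a)
/-- fraction of the mass crossing the cut `(S, Sᶜ)`. -/
def cutK (w : ι → ℝ) (U : ι → ι → ℝ) (S : Finset ι) : ℝ :=
  2 * ∑ a ∈ S, ∑ b ∈ Sᶜ, w a * w b * U a b
/-- truncation at height `L`. -/
def trunc (L : ℝ) (U : ι → ι → ℝ) : ι → ι → ℝ := fun a b => min (U a b) L

/-- probability weights and a symmetric nonnegative kernel of mass one. -/
structure IsKer (w : ι → ℝ) (U : ι → ι → ℝ) : Prop where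
  w_nonneg : ∀ a, 0 ≤ w a
  w_sum : ∑ a, w a = 1
  symm : ∀ a b, U a b = U b a
  nonneg : ∀ a b, 0 ≤ U a b
  mass_one : mass w U = 1

/-- degree. -/
def deg (w : ι → ℝ) (U : ι → ι → ℝ) (x : ι) : ℝ := ∑ y, w y * U x y
/-- operator square `P = U^2`. -/
def sqK (w : ι → ℝ) (U : ι → ι → ℝ) (x y : ι) : ℝ := ∑ z, w z * (U x z * U z y)
/-- local triangle density `U^3 (x, x)`. -/
def tau (w : ι → ℝ) (U : ι → ι → ℝ) (x : ι) : ℝ := ∑ y, w y * (U x y * sqK w U x y)
/-- quadratic form `a U b`. -/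
def qf (w : ι → ℝ) (U : ι → ι → ℝ) (a b : ι → ℝ) : ℝ := ∑ x, ∑ y, w x * w y * (a x * b y * U x y)

end Kernel

/-- universal truncation height. -/
def L0 : ℝ := 100000
/-- universal bound for kernels in the variational problem. -/
def L1 : ℝ := 200000

/-- binary entropy term `h(σ)/2`. -/
def hh (s : ℝ) : ℝ := ((1 + s) * Real.log (1 + s) + (1 - s) * Real.log (1 - s)) / 2

/-! ### Graphs -/
section Graph
variable {V : Type} [Fintype V] {ι : Type} [Fintype ι]

/-- adjacency indicator. -/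
def adjR (G : SimpleGraph V) (u v : V) : ℝ := if G.Adj u v then 1 else 0
/-- ordered edge count between two vertex sets. -/
def eS (G : SimpleGraph V) (S T : Finset V) : ℝ := ∑ u ∈ S, ∑ v ∈ T, adjR G u v
/-- vertices of `L` of type `a`. -/
def fib (τ : V → ι) (L : Finset V) (a : ι) : Finset V := L.filter (fun v => τ v = a)
/-- block density inside `L`. -/
def qL (G : SimpleGraph V) (τ : V → ι) (L : Finset V) (a b : ι) : ℝ :=
  eS G (fib τ L a) (fib τ L b) / (((fib τ L a).card : ℝ) * ((fib τ L b).card : ℝ))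
/-- block density. -/
def qB (G : SimpleGraph V) (τ : V → ι) (a b : ι) : ℝ := qL G τ univ a b
/-- overall density `2m / n^2`. -/
def pD (G : SimpleGraph V) : ℝ := eS G univ univ / (Fintype.card V : ℝ) ^ 2
/-- type weights. -/
def wB (τ : V → ι) (a : ι) : ℝ := ((fib τ univ a).card : ℝ) / (Fintype.card V : ℝ)
/-- normalised block kernel. -/
def UB (G : SimpleGraph V) (τ : V → ι) (a b : ι) : ℝ := qB G τ a b / pD G

/-- independent subsets of `L` with exactly `k l` vertices of each type `l`. -/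
def indSets (G : SimpleGraph V) (τ : V → ι) (L : Finset V) (k : ι → ℕ) : Finset (Finset V) :=
  L.powerset.filter (fun S => (∀ u ∈ S, ∀ v ∈ S, ¬ G.Adj u v) ∧ ∀ l, (fib τ S l).card = k l)
/-- their number. -/
def indCount (G : SimpleGraph V) (τ : V → ι) (L : Finset V) (k : ι → ℕ) : ℕ := (indSets G τ L k).card
/-- the trivial bound `∏ |L_l|^{k_l} / k_l!`. -/
def binProd (τ : V → ι) (L : Finset V) (k : ι → ℕ) : ℝ :=
  ∏ l, ((fib τ L l).card : ℝ) ^ k l / ((k l).factorial : ℝ)
/-- energy `(1/2) k q k`. -/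
def energy (q : ι → ι → ℝ) (k : ι → ℕ) : ℝ := (∑ a, ∑ b, q a b * (k a : ℝ) * (k b : ℝ)) / 2

/-- one-sided cut regularity with respect to the model `q`. -/
def CutReg (G : SimpleGraph V) (τ : V → ι) (q : ι → ι → ℝ) (Γ : ℝ) : Prop :=
  ∀ B T : Finset V, ∑ v ∈ B, ∑ u ∈ T, (q (τ v) (τ u) - adjR G v u) ≤ Γ
/-- one-sided summed (Szemeredi type) regularity with respect to the block densities. -/
def SumReg (G : SimpleGraph V) (τ : V → ι) (Γ : ℝ) : Prop :=
  ∀ S T : ι → ι → Finset V,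
    ∑ v, ∑ u, (if v ∈ S (τ v) (τ u) ∧ u ∈ T (τ v) (τ u) then qB G τ (τ v) (τ u) - adjR G v u else 0) ≤ Γ

end Graph

section Ordered
variable {n : ℕ} {ι : Type} [Fintype ι]
/-- vertices below `v`. -/
def below (v : Fin n) : Finset (Fin n) := univ.filter (fun u => u < v)
/-- back neighbourhood. -/
def back (G : SimpleGraph (Fin n)) (v : Fin n) : Finset (Fin n) := (below v).filter (fun u => G.Adj v u)
/-- back degree profile. -/
def prof (G : SimpleGraph (Fin n)) (τ : Fin n → ι) (v : Fin n) (l : ι) : ℕ := (fib τ (back G v) l).card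
end Ordered

/-- triangle-free graphs on `Fin n` with `m` edges. -/
def TF (n m : ℕ) : Set (SimpleGraph (Fin n)) := {G | G.CliqueFree 3 ∧ G.edgeSet.ncard = m}
/-- the reference exponent `m - m log (2m/n^2)`, about `log C(N, m)`. -/
def refE (n m : ℕ) : ℝ := (m : ℝ) - (m : ℝ) * Real.log (2 * (m : ℝ) / (n : ℝ) ^ 2)
/-- size of the cut `(S, Sᶜ)` exactly as in the frozen statement. -/
def cutG {n : ℕ} (G : SimpleGraph (Fin n)) (S : Finset (Fin n)) : ℝ :=
  (({p : Fin n × Fin n | G.Adj p.1 p.2 ∧ p.1 ∈ S ∧ p.2 ∉ S}.ncard : ℕ) : ℝ)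

end
end Pool.Agent.MP_b5eafd_co
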