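import Pool.Agent.MP_b5eafd_co.AF

/-! Generated straight line programs: affine version, real version, soundness. -/

set_option autoImplicit false
set_option linter.unusedVariables false

namespace Pool.Agent.MP_b5eafd_co
noncomputable section

theorem and_imp' {a b : Bool} {p q : Prop} (h1 : a = true → p) (h2 : b = true → q)
    (h : and a b = true) : p ∧ q := by
  cases a <;> cases b <;> simp_all

theorem or_imp' {a b : Bool} {p q : Prop} (h1 : a = true → p) (h2 : b = true → q)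
    (h : or a b = true) : p ∨ q := by
  cases a <;> cases b <;> simp_all

def sc0 (u a eps L l2 K0 s em V m0 c x l : AF) : Bool :=
  let t22 := AF.sub l x
  AF.neg t22

def sc0R (u a eps L l2 K0 s em V m0 c x l : ℝ) : Prop :=
  let t22 : ℝ := l - x
  t22 < 0

theorem sc0_mem {ε : Noise} {u a eps L l2 K0 s em V m0 c x l : ℝ} {u' a' eps' L' l2' K0' s' em' V' m0' c' x' l' : AF}
    (hu : Mem ε u u') (ha : Mem ε a a') (heps : Mem ε eps eps') (hL : Mem ε L L') (hl2 : Mem ε l2 l2') (hK0 : Mem ε K0 K0') (hs : Mem ε s s') (hem : Mem ε em em') (hV : Mem ε V V') (hm0 : Mem ε m0 m0') (hc : Mem ε c c') (hx : Mem ε x x') (hl : Mem ε l l')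
    (h : sc0 u' a' eps' L' l2' K0' s' em' V' m0' c' x' l' = true) : sc0R u a eps L l2 K0 s em V m0 c x l :=
  have ht22 := mem_sub hl hx
  (lt_of_neg ht22) h

def sc1 (u a eps L l2 K0 s em V m0 c x l : AF) : Bool :=
  let t13 := AF.sq c
  let t14 := AF.nat 1
  let t15 := AF.sub t14 t13
  let t16 := AF.sub t14 x
  let t23 := AF.mul a em
  let t24 := AF.sq t16
  let t25 := AF.mul t15 t24
  let t26 := AF.sub t23 t25
  AF.neg t26

def sc1R (u a eps L l2 K0 s em V m0 c x l : ℝ) : Prop :=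
  let t13 : ℝ := c ^ 2
  let t14 : ℝ := ((1 : ℕ) : ℝ)
  let t15 : ℝ := t14 - t13
  let t16 : ℝ := t14 - x
  let t23 : ℝ := a * em
  let t24 : ℝ := t16 ^ 2
  let t25 : ℝ := t15 * t24
  let t26 : ℝ := t23 - t25
  t26 < 0

theorem sc1_mem {ε : Noise} {u a eps L l2 K0 s em V m0 c x l : ℝ} {u' a' eps' L' l2' K0' s' em' V' m0' c' x' l' : AF}
    (hu : Mem ε u u') (ha : Mem ε a a') (heps : Mem ε eps eps') (hL : Mem ε L L') (hl2 : Mem ε l2 l2') (hK0 : Mem ε K0 K0') (hs : Mem ε s s') (hem : Mem ε em em') (hV : Mem ε V V') (hm0 : Mem ε m0 m0') (hc : Mem ε c c') (hx : Mem ε x x') (hl : Mem ε l l')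
    (h : sc1 u' a' eps' L' l2' K0' s' em' V' m0' c' x' l' = true) : sc1R u a eps L l2 K0 s em V m0 c x l :=
  have ht13 := mem_sq hc
  have ht14 := mem_nat ε 1
  have ht15 := mem_sub ht14 ht13
  have ht16 := mem_sub ht14 hx
  have ht23 := mem_mul ha hem
  have ht24 := mem_sq ht16
  have ht25 := mem_mul ht15 ht24
  have ht26 := mem_sub ht23 ht25
  (lt_of_neg ht26) h

def sc2 (u a eps L l2 K0 s em V m0 c x l : AF) : Bool :=
  let t13 := AF.sq c
  let t14 := AF.nat 1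
  let t15 := AF.sub t14 t13
  let t16 := AF.sub t14 x
  let t17 := AF.inv c
  let t18 := AF.sq t17
  let t19 := AF.mul t16 t18
  let t20 := AF.mul t15 t19
  let t21 := AF.add t14 t20
  let t27 := AF.nat 8
  let t28 := AF.mul t27 a
  let t29 := AF.nat 6
  let t30 := AF.add t29 t28
  let t31 := AF.sub t21 l
  let t32 := AF.sq t31
  let t33 := AF.mul t30 t32
  let t34 := AF.mul t21 t18
  let t35 := AF.sub t33 t34
  let t36 := AF.mul t15 t35
  let t37 := AF.sub t36 l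
  and (AF.pos c) (and (AF.pos l) (AF.neg t37))

def sc2R (u a eps L l2 K0 s em V m0 c x l : ℝ) : Prop :=
  let t13 : ℝ := c ^ 2
  let t14 : ℝ := ((1 : ℕ) : ℝ)
  let t15 : ℝ := t14 - t13
  let t16 : ℝ := t14 - x
  let t17 : ℝ := c⁻¹
  let t18 : ℝ := t17 ^ 2
  let t19 : ℝ := t16 * t18
  let t20 : ℝ := t15 * t19
  let t21 : ℝ := t14 + t20
  let t27 : ℝ := ((8 : ℕ) : ℝ)
  let t28 : ℝ := t27 * a
  let t29 : ℝ := ((6 : ℕ) : ℝ)
  let t30 : ℝ := t29 + t28
  let t31 : ℝ := t21 - l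
  let t32 : ℝ := t31 ^ 2
  let t33 : ℝ := t30 * t32
  let t34 : ℝ := t21 * t18
  let t35 : ℝ := t33 - t34
  let t36 : ℝ := t15 * t35
  let t37 : ℝ := t36 - l
  (0 < c ∧ (0 < l ∧ t37 < 0))

theorem sc2_mem {ε : Noise} {u a eps L l2 K0 s em V m0 c x l : ℝ} {u' a' eps' L' l2' K0' s' em' V' m0' c' x' l' : AF}
    (hu : Mem ε u u') (ha : Mem ε a a') (heps : Mem ε eps eps') (hL : Mem ε L L') (hl2 : Mem ε l2 l2') (hK0 : Mem ε K0 K0') (hs : Mem ε s s') (hem : Mem ε em em') (hV : Mem ε V V') (hm0 : Mem ε m0 m0') (hc : Mem ε c c') (hx : Mem ε x x') (hl : Mem ε l l')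
    (h : sc2 u' a' eps' L' l2' K0' s' em' V' m0' c' x' l' = true) : sc2R u a eps L l2 K0 s em V m0 c x l :=
  have ht13 := mem_sq hc
  have ht14 := mem_nat ε 1
  have ht15 := mem_sub ht14 ht13
  have ht16 := mem_sub ht14 hx
  have ht17 := mem_inv hc
  have ht18 := mem_sq ht17
  have ht19 := mem_mul ht16 ht18
  have ht20 := mem_mul ht15 ht19
  have ht21 := mem_add ht14 ht20
  have ht27 := mem_nat ε 8
  have ht28 := mem_mul ht27 ha
  have ht29 := mem_nat ε 6
  have ht30 := mem_add ht29 ht28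
  have ht31 := mem_sub ht21 hl
  have ht32 := mem_sq ht31
  have ht33 := mem_mul ht30 ht32
  have ht34 := mem_mul ht21 ht18
  have ht35 := mem_sub ht33 ht34
  have ht36 := mem_mul ht15 ht35
  have ht37 := mem_sub ht36 hl
  (and_imp' (lt_of_pos hc) (and_imp' (lt_of_pos hl) (lt_of_neg ht37))) h

def sc3 (u a eps L l2 K0 s em V m0 c x l : AF) : Bool :=
  let t13 := AF.sq c
  let t14 := AF.nat 1
  let t15 := AF.sub t14 t13
  let t16 := AF.sub t14 x
  let t17 := AF.inv c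
  let t18 := AF.sq t17
  let t19 := AF.mul t16 t18
  let t20 := AF.mul t15 t19
  let t21 := AF.add t14 t20
  let t38 := AF.sq l
  let t45 := AF.sq t21
  let t46 := AF.sub V t45
  let t47 := AF.sub t46 t38
  and (AF.pos c) (AF.neg t47)

def sc3R (u a eps L l2 K0 s em V m0 c x l : ℝ) : Prop :=
  let t13 : ℝ := c ^ 2
  let t14 : ℝ := ((1 : ℕ) : ℝ)
  let t15 : ℝ := t14 - t13
  let t16 : ℝ := t14 - x
  let t17 : ℝ := c⁻¹
  let t18 : ℝ := t17 ^ 2
  let t19 : ℝ := t16 * t18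
  let t20 : ℝ := t15 * t19
  let t21 : ℝ := t14 + t20
  let t38 : ℝ := l ^ 2
  let t45 : ℝ := t21 ^ 2
  let t46 : ℝ := V - t45
  let t47 : ℝ := t46 - t38
  (0 < c ∧ t47 < 0)

theorem sc3_mem {ε : Noise} {u a eps L l2 K0 s em V m0 c x l : ℝ} {u' a' eps' L' l2' K0' s' em' V' m0' c' x' l' : AF}
    (hu : Mem ε u u') (ha : Mem ε a a') (heps : Mem ε eps eps') (hL : Mem ε L L') (hl2 : Mem ε l2 l2') (hK0 : Mem ε K0 K0') (hs : Mem ε s s') (hem : Mem ε em em') (hV : Mem ε V V') (hm0 : Mem ε m0 m0') (hc : Mem ε c c') (hx : Mem ε x x') (hl : Mem ε l l')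
    (h : sc3 u' a' eps' L' l2' K0' s' em' V' m0' c' x' l' = true) : sc3R u a eps L l2 K0 s em V m0 c x l :=
  have ht13 := mem_sq hc
  have ht14 := mem_nat ε 1
  have ht15 := mem_sub ht14 ht13
  have ht16 := mem_sub ht14 hx
  have ht17 := mem_inv hc
  have ht18 := mem_sq ht17
  have ht19 := mem_mul ht16 ht18
  have ht20 := mem_mul ht15 ht19
  have ht21 := mem_add ht14 ht20
  have ht38 := mem_sq hl
  have ht45 := mem_sq ht21
  have ht46 := mem_sub hV ht45
  have ht47 := mem_sub ht46 ht38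
  (and_imp' (lt_of_pos hc) (lt_of_neg ht47)) h

def sc4 (u a eps L l2 K0 s em V m0 c x l : AF) : Bool :=
  let t13 := AF.sq c
  let t14 := AF.nat 1
  let t15 := AF.sub t14 t13
  let t16 := AF.sub t14 x
  let t17 := AF.inv c
  let t18 := AF.sq t17
  let t19 := AF.mul t16 t18
  let t20 := AF.mul t15 t19
  let t21 := AF.add t14 t20
  let t38 := AF.sq l
  let t39 := AF.mul t38 l
  let t40 := AF.sq u
  let t41 := AF.mul t40 u
  let t42 := AF.nat 3
  let t45 := AF.sq t21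
  let t46 := AF.sub V t45
  let t47 := AF.sub t46 t38
  let t48 := AF.add t42 t20
  let t49 := AF.mul t20 t48
  let t50 := AF.add t42 t49
  let t51 := AF.mul t20 t50
  let t52 := AF.add t51 t39
  let t55 := AF.sq t47
  let t56 := AF.mul t55 t47
  let t57 := AF.add t52 t41
  let t58 := AF.sq t57
  let t59 := AF.sub t56 t58
  and (AF.pos c) (AF.neg t59)

def sc4R (u a eps L l2 K0 s em V m0 c x l : ℝ) : Prop :=
  let t13 : ℝ := c ^ 2
  let t14 : ℝ := ((1 : ℕ) : ℝ)
  let t15 : ℝ := t14 - t13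
  let t16 : ℝ := t14 - x
  let t17 : ℝ := c⁻¹
  let t18 : ℝ := t17 ^ 2
  let t19 : ℝ := t16 * t18
  let t20 : ℝ := t15 * t19
  let t21 : ℝ := t14 + t20
  let t38 : ℝ := l ^ 2
  let t39 : ℝ := t38 * l
  let t40 : ℝ := u ^ 2
  let t41 : ℝ := t40 * u
  let t42 : ℝ := ((3 : ℕ) : ℝ)
  let t45 : ℝ := t21 ^ 2
  let t46 : ℝ := V - t45
  let t47 : ℝ := t46 - t38
  let t48 : ℝ := t42 + t20
  let t49 : ℝ := t20 * t48
  let t50 : ℝ := t42 + t49
  let t51 : ℝ := t20 * t50
  let t52 : ℝ := t51 + t39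
  let t55 : ℝ := t47 ^ 2
  let t56 : ℝ := t55 * t47
  let t57 : ℝ := t52 + t41
  let t58 : ℝ := t57 ^ 2
  let t59 : ℝ := t56 - t58
  (0 < c ∧ t59 < 0)

theorem sc4_mem {ε : Noise} {u a eps L l2 K0 s em V m0 c x l : ℝ} {u' a' eps' L' l2' K0' s' em' V' m0' c' x' l' : AF}
    (hu : Mem ε u u') (ha : Mem ε a a') (heps : Mem ε eps eps') (hL : Mem ε L L') (hl2 : Mem ε l2 l2') (hK0 : Mem ε K0 K0') (hs : Mem ε s s') (hem : Mem ε em em') (hV : Mem ε V V') (hm0 : Mem ε m0 m0') (hc : Mem ε c c') (hx : Mem ε x x') (hl : Mem ε l l')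
    (h : sc4 u' a' eps' L' l2' K0' s' em' V' m0' c' x' l' = true) : sc4R u a eps L l2 K0 s em V m0 c x l :=
  have ht13 := mem_sq hc
  have ht14 := mem_nat ε 1
  have ht15 := mem_sub ht14 ht13
  have ht16 := mem_sub ht14 hx
  have ht17 := mem_inv hc
  have ht18 := mem_sq ht17
  have ht19 := mem_mul ht16 ht18
  have ht20 := mem_mul ht15 ht19
  have ht21 := mem_add ht14 ht20
  have ht38 := mem_sq hl
  have ht39 := mem_mul ht38 hl
  have ht40 := mem_sq hu
  have ht41 := mem_mul ht40 hu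
  have ht42 := mem_nat ε 3
  have ht45 := mem_sq ht21
  have ht46 := mem_sub hV ht45
  have ht47 := mem_sub ht46 ht38
  have ht48 := mem_add ht42 ht20
  have ht49 := mem_mul ht20 ht48
  have ht50 := mem_add ht42 ht49
  have ht51 := mem_mul ht20 ht50
  have ht52 := mem_add ht51 ht39
  have ht55 := mem_sq ht47
  have ht56 := mem_mul ht55 ht47
  have ht57 := mem_add ht52 ht41
  have ht58 := mem_sq ht57
  have ht59 := mem_sub ht56 ht58
  (and_imp' (lt_of_pos hc) (lt_of_neg ht59)) h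

def sc5 (u a eps L l2 K0 s em V m0 c x l : AF) : Bool :=
  let t13 := AF.sq c
  let t14 := AF.nat 1
  let t15 := AF.sub t14 t13
  let t16 := AF.sub t14 x
  let t17 := AF.inv c
  let t18 := AF.sq t17
  let t19 := AF.mul t16 t18
  let t20 := AF.mul t15 t19
  let t38 := AF.sq l
  let t39 := AF.mul t38 l
  let t40 := AF.sq u
  let t42 := AF.nat 3
  let t43 := AF.mul t42 t40
  let t44 := AF.inv t43
  let t48 := AF.add t42 t20
  let t49 := AF.mul t20 t48
  let t50 := AF.add t42 t49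
  let t51 := AF.mul t20 t50
  let t52 := AF.add t51 t39
  let t53 := AF.mul t52 t44
  let t54 := AF.add u t53
  let t60 := AF.add x t54
  and (AF.pos c) (AF.neg t60)

def sc5R (u a eps L l2 K0 s em V m0 c x l : ℝ) : Prop :=
  let t13 : ℝ := c ^ 2
  let t14 : ℝ := ((1 : ℕ) : ℝ)
  let t15 : ℝ := t14 - t13
  let t16 : ℝ := t14 - x
  let t17 : ℝ := c⁻¹
  let t18 : ℝ := t17 ^ 2
  let t19 : ℝ := t16 * t18
  let t20 : ℝ := t15 * t19
  let t38 : ℝ := l ^ 2
  let t39 : ℝ := t38 * l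
  let t40 : ℝ := u ^ 2
  let t42 : ℝ := ((3 : ℕ) : ℝ)
  let t43 : ℝ := t42 * t40
  let t44 : ℝ := t43⁻¹
  let t48 : ℝ := t42 + t20
  let t49 : ℝ := t20 * t48
  let t50 : ℝ := t42 + t49
  let t51 : ℝ := t20 * t50
  let t52 : ℝ := t51 + t39
  let t53 : ℝ := t52 * t44
  let t54 : ℝ := u + t53
  let t60 : ℝ := x + t54
  (0 < c ∧ t60 < 0)

theorem sc5_mem {ε : Noise} {u a eps L l2 K0 s em V m0 c x l : ℝ} {u' a' eps' L' l2' K0' s' em' V' m0' c' x' l' : AF}
    (hu : Mem ε u u') (ha : Mem ε a a') (heps : Mem ε eps eps') (hL : Mem ε L L') (hl2 : Mem ε l2 l2') (hK0 : Mem ε K0 K0') (hs : Mem ε s s') (hem : Mem ε em em') (hV : Mem ε V V') (hm0 : Mem ε m0 m0') (hc : Mem ε c c') (hx : Mem ε x x') (hl : Mem ε l l')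
    (h : sc5 u' a' eps' L' l2' K0' s' em' V' m0' c' x' l' = true) : sc5R u a eps L l2 K0 s em V m0 c x l :=
  have ht13 := mem_sq hc
  have ht14 := mem_nat ε 1
  have ht15 := mem_sub ht14 ht13
  have ht16 := mem_sub ht14 hx
  have ht17 := mem_inv hc
  have ht18 := mem_sq ht17
  have ht19 := mem_mul ht16 ht18
  have ht20 := mem_mul ht15 ht19
  have ht38 := mem_sq hl
  have ht39 := mem_mul ht38 hl
  have ht40 := mem_sq hu
  have ht42 := mem_nat ε 3
  have ht43 := mem_mul ht42 ht40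
  have ht44 := mem_inv ht43
  have ht48 := mem_add ht42 ht20
  have ht49 := mem_mul ht20 ht48
  have ht50 := mem_add ht42 ht49
  have ht51 := mem_mul ht20 ht50
  have ht52 := mem_add ht51 ht39
  have ht53 := mem_mul ht52 ht44
  have ht54 := mem_add hu ht53
  have ht60 := mem_add hx ht54
  (and_imp' (lt_of_pos hc) (lt_of_neg ht60)) h

def sc6 (u a eps L l2 K0 s em V m0 c x l : AF) : Bool :=
  let t23 := AF.mul a em
  let t27 := AF.nat 8
  let t28 := AF.mul t27 a
  let t29 := AF.nat 6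
  let t30 := AF.add t29 t28
  let t61 := AF.mul t30 t23
  let t62 := AF.sub t61 l
  AF.neg t62

def sc6R (u a eps L l2 K0 s em V m0 c x l : ℝ) : Prop :=
  let t23 : ℝ := a * em
  let t27 : ℝ := ((8 : ℕ) : ℝ)
  let t28 : ℝ := t27 * a
  let t29 : ℝ := ((6 : ℕ) : ℝ)
  let t30 : ℝ := t29 + t28
  let t61 : ℝ := t30 * t23
  let t62 : ℝ := t61 - l
  t62 < 0

theorem sc6_mem {ε : Noise} {u a eps L l2 K0 s em V m0 c x l : ℝ} {u' a' eps' L' l2' K0' s' em' V' m0' c' x' l' : AF}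
    (hu : Mem ε u u') (ha : Mem ε a a') (heps : Mem ε eps eps') (hL : Mem ε L L') (hl2 : Mem ε l2 l2') (hK0 : Mem ε K0 K0') (hs : Mem ε s s') (hem : Mem ε em em') (hV : Mem ε V V') (hm0 : Mem ε m0 m0') (hc : Mem ε c c') (hx : Mem ε x x') (hl : Mem ε l l')
    (h : sc6 u' a' eps' L' l2' K0' s' em' V' m0' c' x' l' = true) : sc6R u a eps L l2 K0 s em V m0 c x l :=
  have ht23 := mem_mul ha hem
  have ht27 := mem_nat ε 8
  have ht28 := mem_mul ht27 ha
  have ht29 := mem_nat ε 6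
  have ht30 := mem_add ht29 ht28
  have ht61 := mem_mul ht30 ht23
  have ht62 := mem_sub ht61 hl
  (lt_of_neg ht62) h

def sc7 (u a eps L l2 K0 s em V m0 c x l : AF) : Bool :=
  let t13 := AF.sq c
  let t14 := AF.nat 1
  let t15 := AF.sub t14 t13
  let t16 := AF.sub t14 x
  let t17 := AF.inv c
  let t18 := AF.sq t17
  let t19 := AF.mul t16 t18
  let t20 := AF.mul t15 t19
  let t21 := AF.add t14 t20
  let t22 := AF.sub l x
  let t27 := AF.nat 8
  let t28 := AF.mul t27 a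
  let t29 := AF.nat 6
  let t30 := AF.add t29 t28
  let t31 := AF.sub t21 l
  let t32 := AF.sq t31
  let t33 := AF.mul t30 t32
  let t34 := AF.mul t21 t18
  let t35 := AF.sub t33 t34
  let t38 := AF.sq l
  let t39 := AF.mul t38 l
  let t40 := AF.sq u
  let t41 := AF.mul t40 u
  let t42 := AF.nat 3
  let t43 := AF.mul t42 t40
  let t44 := AF.inv t43
  let t48 := AF.add t42 t20
  let t49 := AF.mul t20 t48
  let t50 := AF.add t42 t49
  let t51 := AF.mul t20 t50
  let t52 := AF.add t51 t39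
  let t53 := AF.mul t52 t44
  let t54 := AF.add u t53
  let t60 := AF.add x t54
  let t70 := AF.add t14 t51
  let t71 := AF.add t21 t54
  let t72 := AF.mul t70 t71
  let t73 := AF.sub t14 a
  let t74 := AF.mul L t73
  let t75 := AF.nat 2
  let t76 := AF.mul t75 eps
  let t77 := AF.mul t76 t54
  let t78 := AF.sub t74 t77
  let t79 := AF.add t78 l2
  let t80 := AF.sub t72 K0
  let t81 := AF.sq s
  let t82 := AF.sub t14 em
  let t83 := AF.inv t82
  let t84 := AF.mul t81 t83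
  let t85 := AF.mul t80 t84
  let t86 := AF.add t79 t85
  let t87 := AF.nat 4
  let t88 := AF.add t87 t20
  let t89 := AF.mul t20 t88
  let t90 := AF.add t29 t89
  let t91 := AF.mul t20 t90
  let t92 := AF.add t87 t91
  let t93 := AF.add t51 t41
  let t94 := AF.mul t93 t44
  let t95 := AF.mul a t19
  let t96 := AF.add u t94
  let t97 := AF.mul t50 t96
  let t98 := AF.add t92 t97
  let t99 := AF.mul t95 t98
  let t100 := AF.mul a t94
  let t101 := AF.add l t54
  let t102 := AF.add a em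
  let t103 := AF.mul t101 t102
  let t104 := AF.add t100 t103
  let t105 := AF.mul L t21
  let t106 := AF.add t86 t105
  let t107 := AF.mul t106 t20
  let t108 := AF.mul L x
  let t109 := AF.add t86 t108
  let t110 := AF.mul t109 t16
  let t111 := AF.add t107 t110
  let t112 := AF.mul t111 t16
  let t113 := AF.add t14 s
  let t114 := AF.mul t75 t113
  let t115 := AF.mul t16 t17
  let t116 := AF.mul t114 t115
  let t117 := AF.add t14 c
  let t118 := AF.inv t117
  let t119 := AF.mul t75 t118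
  let t120 := AF.sub t116 t119
  let t121 := AF.mul t72 t120
  let t122 := AF.sub t112 t121
  let t123 := AF.mul t75 t16
  let t124 := AF.sub l t123
  let t125 := AF.mul L t124
  let t126 := AF.add t86 t125
  let t127 := AF.mul t22 t60
  let t128 := AF.mul t126 t127
  let t129 := AF.add t122 t99
  let t130 := AF.mul t38 t35
  let t131 := AF.mul t130 t104
  let t132 := AF.add t129 t131
  let t133 := AF.add t132 t128
  and (AF.pos c) (and (AF.pos t35) (and (or (AF.neg t126) (AF.neg t133)) (or (AF.pos t126) (AF.neg t132))))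

def sc7R (u a eps L l2 K0 s em V m0 c x l : ℝ) : Prop :=
  let t13 : ℝ := c ^ 2
  let t14 : ℝ := ((1 : ℕ) : ℝ)
  let t15 : ℝ := t14 - t13
  let t16 : ℝ := t14 - x
  let t17 : ℝ := c⁻¹
  let t18 : ℝ := t17 ^ 2
  let t19 : ℝ := t16 * t18
  let t20 : ℝ := t15 * t19
  let t21 : ℝ := t14 + t20
  let t22 : ℝ := l - x
  let t27 : ℝ := ((8 : ℕ) : ℝ)
  let t28 : ℝ := t27 * a
  let t29 : ℝ := ((6 : ℕ) : ℝ)
  let t30 : ℝ := t29 + t28
  let t31 : ℝ := t21 - l
  let t32 : ℝ := t31 ^ 2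
  let t33 : ℝ := t30 * t32
  let t34 : ℝ := t21 * t18
  let t35 : ℝ := t33 - t34
  let t38 : ℝ := l ^ 2
  let t39 : ℝ := t38 * l
  let t40 : ℝ := u ^ 2
  let t41 : ℝ := t40 * u
  let t42 : ℝ := ((3 : ℕ) : ℝ)
  let t43 : ℝ := t42 * t40
  let t44 : ℝ := t43⁻¹
  let t48 : ℝ := t42 + t20
  let t49 : ℝ := t20 * t48
  let t50 : ℝ := t42 + t49
  let t51 : ℝ := t20 * t50
  let t52 : ℝ := t51 + t39
  let t53 : ℝ := t52 * t44
  let t54 : ℝ := u + t53
  let t60 : ℝ := x + t54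
  let t70 : ℝ := t14 + t51
  let t71 : ℝ := t21 + t54
  let t72 : ℝ := t70 * t71
  let t73 : ℝ := t14 - a
  let t74 : ℝ := L * t73
  let t75 : ℝ := ((2 : ℕ) : ℝ)
  let t76 : ℝ := t75 * eps
  let t77 : ℝ := t76 * t54
  let t78 : ℝ := t74 - t77
  let t79 : ℝ := t78 + l2
  let t80 : ℝ := t72 - K0
  let t81 : ℝ := s ^ 2
  let t82 : ℝ := t14 - em
  let t83 : ℝ := t82⁻¹
  let t84 : ℝ := t81 * t83
  let t85 : ℝ := t80 * t84
  let t86 : ℝ := t79 + t85
  let t87 : ℝ := ((4 : ℕ) : ℝ)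
  let t88 : ℝ := t87 + t20
  let t89 : ℝ := t20 * t88
  let t90 : ℝ := t29 + t89
  let t91 : ℝ := t20 * t90
  let t92 : ℝ := t87 + t91
  let t93 : ℝ := t51 + t41
  let t94 : ℝ := t93 * t44
  let t95 : ℝ := a * t19
  let t96 : ℝ := u + t94
  let t97 : ℝ := t50 * t96
  let t98 : ℝ := t92 + t97
  let t99 : ℝ := t95 * t98
  let t100 : ℝ := a * t94
  let t101 : ℝ := l + t54
  let t102 : ℝ := a + em
  let t103 : ℝ := t101 * t102
  let t104 : ℝ := t100 + t103
  let t105 : ℝ := L * t21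
  let t106 : ℝ := t86 + t105
  let t107 : ℝ := t106 * t20
  let t108 : ℝ := L * x
  let t109 : ℝ := t86 + t108
  let t110 : ℝ := t109 * t16
  let t111 : ℝ := t107 + t110
  let t112 : ℝ := t111 * t16
  let t113 : ℝ := t14 + s
  let t114 : ℝ := t75 * t113
  let t115 : ℝ := t16 * t17
  let t116 : ℝ := t114 * t115
  let t117 : ℝ := t14 + c
  let t118 : ℝ := t117⁻¹
  let t119 : ℝ := t75 * t118
  let t120 : ℝ := t116 - t119
  let t121 : ℝ := t72 * t120
  let t122 : ℝ := t112 - t121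
  let t123 : ℝ := t75 * t16
  let t124 : ℝ := l - t123
  let t125 : ℝ := L * t124
  let t126 : ℝ := t86 + t125
  let t127 : ℝ := t22 * t60
  let t128 : ℝ := t126 * t127
  let t129 : ℝ := t122 + t99
  let t130 : ℝ := t38 * t35
  let t131 : ℝ := t130 * t104
  let t132 : ℝ := t129 + t131
  let t133 : ℝ := t132 + t128
  (0 < c ∧ (0 < t35 ∧ ((t126 < 0 ∨ t133 < 0) ∧ (0 < t126 ∨ t132 < 0))))

theorem sc7_mem {ε : Noise} {u a eps L l2 K0 s em V m0 c x l : ℝ} {u' a' eps' L' l2' K0' s' em' V' m0' c' x' l' : AF}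
    (hu : Mem ε u u') (ha : Mem ε a a') (heps : Mem ε eps eps') (hL : Mem ε L L') (hl2 : Mem ε l2 l2') (hK0 : Mem ε K0 K0') (hs : Mem ε s s') (hem : Mem ε em em') (hV : Mem ε V V') (hm0 : Mem ε m0 m0') (hc : Mem ε c c') (hx : Mem ε x x') (hl : Mem ε l l')
    (h : sc7 u' a' eps' L' l2' K0' s' em' V' m0' c' x' l' = true) : sc7R u a eps L l2 K0 s em V m0 c x l :=
  have ht13 := mem_sq hc
  have ht14 := mem_nat ε 1
  have ht15 := mem_sub ht14 ht13
  have ht16 := mem_sub ht14 hx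
  have ht17 := mem_inv hc
  have ht18 := mem_sq ht17
  have ht19 := mem_mul ht16 ht18
  have ht20 := mem_mul ht15 ht19
  have ht21 := mem_add ht14 ht20
  have ht22 := mem_sub hl hx
  have ht27 := mem_nat ε 8
  have ht28 := mem_mul ht27 ha
  have ht29 := mem_nat ε 6
  have ht30 := mem_add ht29 ht28
  have ht31 := mem_sub ht21 hl
  have ht32 := mem_sq ht31
  have ht33 := mem_mul ht30 ht32
  have ht34 := mem_mul ht21 ht18
  have ht35 := mem_sub ht33 ht34
  have ht38 := mem_sq hl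
  have ht39 := mem_mul ht38 hl
  have ht40 := mem_sq hu
  have ht41 := mem_mul ht40 hu
  have ht42 := mem_nat ε 3
  have ht43 := mem_mul ht42 ht40
  have ht44 := mem_inv ht43
  have ht48 := mem_add ht42 ht20
  have ht49 := mem_mul ht20 ht48
  have ht50 := mem_add ht42 ht49
  have ht51 := mem_mul ht20 ht50
  have ht52 := mem_add ht51 ht39
  have ht53 := mem_mul ht52 ht44
  have ht54 := mem_add hu ht53
  have ht60 := mem_add hx ht54
  have ht70 := mem_add ht14 ht51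
  have ht71 := mem_add ht21 ht54
  have ht72 := mem_mul ht70 ht71
  have ht73 := mem_sub ht14 ha
  have ht74 := mem_mul hL ht73
  have ht75 := mem_nat ε 2
  have ht76 := mem_mul ht75 heps
  have ht77 := mem_mul ht76 ht54
  have ht78 := mem_sub ht74 ht77
  have ht79 := mem_add ht78 hl2
  have ht80 := mem_sub ht72 hK0
  have ht81 := mem_sq hs
  have ht82 := mem_sub ht14 hem
  have ht83 := mem_inv ht82
  have ht84 := mem_mul ht81 ht83
  have ht85 := mem_mul ht80 ht84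
  have ht86 := mem_add ht79 ht85
  have ht87 := mem_nat ε 4
  have ht88 := mem_add ht87 ht20
  have ht89 := mem_mul ht20 ht88
  have ht90 := mem_add ht29 ht89
  have ht91 := mem_mul ht20 ht90
  have ht92 := mem_add ht87 ht91
  have ht93 := mem_add ht51 ht41
  have ht94 := mem_mul ht93 ht44
  have ht95 := mem_mul ha ht19
  have ht96 := mem_add hu ht94
  have ht97 := mem_mul ht50 ht96
  have ht98 := mem_add ht92 ht97
  have ht99 := mem_mul ht95 ht98
  have ht100 := mem_mul ha ht94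
  have ht101 := mem_add hl ht54
  have ht102 := mem_add ha hem
  have ht103 := mem_mul ht101 ht102
  have ht104 := mem_add ht100 ht103
  have ht105 := mem_mul hL ht21
  have ht106 := mem_add ht86 ht105
  have ht107 := mem_mul ht106 ht20
  have ht108 := mem_mul hL hx
  have ht109 := mem_add ht86 ht108
  have ht110 := mem_mul ht109 ht16
  have ht111 := mem_add ht107 ht110
  have ht112 := mem_mul ht111 ht16
  have ht113 := mem_add ht14 hs
  have ht114 := mem_mul ht75 ht113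
  have ht115 := mem_mul ht16 ht17
  have ht116 := mem_mul ht114 ht115
  have ht117 := mem_add ht14 hc
  have ht118 := mem_inv ht117
  have ht119 := mem_mul ht75 ht118
  have ht120 := mem_sub ht116 ht119
  have ht121 := mem_mul ht72 ht120
  have ht122 := mem_sub ht112 ht121
  have ht123 := mem_mul ht75 ht16
  have ht124 := mem_sub hl ht123
  have ht125 := mem_mul hL ht124
  have ht126 := mem_add ht86 ht125
  have ht127 := mem_mul ht22 ht60
  have ht128 := mem_mul ht126 ht127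
  have ht129 := mem_add ht122 ht99
  have ht130 := mem_mul ht38 ht35
  have ht131 := mem_mul ht130 ht104
  have ht132 := mem_add ht129 ht131
  have ht133 := mem_add ht132 ht128
  (and_imp' (lt_of_pos hc) (and_imp' (lt_of_pos ht35) (and_imp' (or_imp' (lt_of_neg ht126) (lt_of_neg ht133)) (or_imp' (lt_of_pos ht126) (lt_of_neg ht132))))) h

def sc8 (u a eps L l2 K0 s em V m0 c x l : AF) : Bool :=
  let t13 := AF.sq c
  let t14 := AF.nat 1
  let t15 := AF.sub t14 t13
  let t16 := AF.sub t14 x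
  let t17 := AF.inv c
  let t18 := AF.sq t17
  let t19 := AF.mul t16 t18
  let t20 := AF.mul t15 t19
  let t21 := AF.add t14 t20
  let t22 := AF.sub l x
  let t29 := AF.nat 6
  let t38 := AF.sq l
  let t39 := AF.mul t38 l
  let t40 := AF.sq u
  let t41 := AF.mul t40 u
  let t42 := AF.nat 3
  let t43 := AF.mul t42 t40
  let t44 := AF.inv t43
  let t48 := AF.add t42 t20
  let t49 := AF.mul t20 t48
  let t50 := AF.add t42 t49
  let t51 := AF.mul t20 t50
  let t52 := AF.add t51 t39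
  let t53 := AF.mul t52 t44
  let t54 := AF.add u t53
  let t60 := AF.add x t54
  let t70 := AF.add t14 t51
  let t71 := AF.add t21 t54
  let t72 := AF.mul t70 t71
  let t73 := AF.sub t14 a
  let t74 := AF.mul L t73
  let t75 := AF.nat 2
  let t76 := AF.mul t75 eps
  let t77 := AF.mul t76 t54
  let t78 := AF.sub t74 t77
  let t79 := AF.add t78 l2
  let t80 := AF.sub t72 K0
  let t81 := AF.sq s
  let t82 := AF.sub t14 em
  let t83 := AF.inv t82
  let t84 := AF.mul t81 t83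
  let t85 := AF.mul t80 t84
  let t86 := AF.add t79 t85
  let t87 := AF.nat 4
  let t88 := AF.add t87 t20
  let t89 := AF.mul t20 t88
  let t90 := AF.add t29 t89
  let t91 := AF.mul t20 t90
  let t92 := AF.add t87 t91
  let t93 := AF.add t51 t41
  let t94 := AF.mul t93 t44
  let t95 := AF.mul a t19
  let t96 := AF.add u t94
  let t97 := AF.mul t50 t96
  let t98 := AF.add t92 t97
  let t99 := AF.mul t95 t98
  let t100 := AF.mul a t94
  let t101 := AF.add l t54
  let t102 := AF.add a em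
  let t103 := AF.mul t101 t102
  let t104 := AF.add t100 t103
  let t105 := AF.mul L t21
  let t106 := AF.add t86 t105
  let t107 := AF.mul t106 t20
  let t108 := AF.mul L x
  let t109 := AF.add t86 t108
  let t110 := AF.mul t109 t16
  let t111 := AF.add t107 t110
  let t112 := AF.mul t111 t16
  let t113 := AF.add t14 s
  let t114 := AF.mul t75 t113
  let t115 := AF.mul t16 t17
  let t116 := AF.mul t114 t115
  let t117 := AF.add t14 c
  let t118 := AF.inv t117
  let t119 := AF.mul t75 t118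
  let t120 := AF.sub t116 t119
  let t121 := AF.mul t72 t120
  let t122 := AF.sub t112 t121
  let t123 := AF.mul t75 t16
  let t124 := AF.sub l t123
  let t125 := AF.mul L t124
  let t126 := AF.add t86 t125
  let t127 := AF.mul t22 t60
  let t128 := AF.mul t126 t127
  let t129 := AF.add t122 t99
  let t134 := AF.mul t15 t129
  let t135 := AF.mul t39 t104
  let t136 := AF.add t134 t135
  let t137 := AF.sub t136 m0
  let t138 := AF.mul t15 t128
  let t139 := AF.add t137 t138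
  and (AF.pos c) (and (or (AF.neg t126) (AF.neg t139)) (or (AF.pos t126) (AF.neg t137)))

def sc8R (u a eps L l2 K0 s em V m0 c x l : ℝ) : Prop :=
  let t13 : ℝ := c ^ 2
  let t14 : ℝ := ((1 : ℕ) : ℝ)
  let t15 : ℝ := t14 - t13
  let t16 : ℝ := t14 - x
  let t17 : ℝ := c⁻¹
  let t18 : ℝ := t17 ^ 2
  let t19 : ℝ := t16 * t18
  let t20 : ℝ := t15 * t19
  let t21 : ℝ := t14 + t20
  let t22 : ℝ := l - x
  let t29 : ℝ := ((6 : ℕ) : ℝ)
  let t38 : ℝ := l ^ 2
  let t39 : ℝ := t38 * l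
  let t40 : ℝ := u ^ 2
  let t41 : ℝ := t40 * u
  let t42 : ℝ := ((3 : ℕ) : ℝ)
  let t43 : ℝ := t42 * t40
  let t44 : ℝ := t43⁻¹
  let t48 : ℝ := t42 + t20
  let t49 : ℝ := t20 * t48
  let t50 : ℝ := t42 + t49
  let t51 : ℝ := t20 * t50
  let t52 : ℝ := t51 + t39
  let t53 : ℝ := t52 * t44
  let t54 : ℝ := u + t53
  let t60 : ℝ := x + t54
  let t70 : ℝ := t14 + t51
  let t71 : ℝ := t21 + t54
  let t72 : ℝ := t70 * t71
  let t73 : ℝ := t14 - a
  let t74 : ℝ := L * t73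
  let t75 : ℝ := ((2 : ℕ) : ℝ)
  let t76 : ℝ := t75 * eps
  let t77 : ℝ := t76 * t54
  let t78 : ℝ := t74 - t77
  let t79 : ℝ := t78 + l2
  let t80 : ℝ := t72 - K0
  let t81 : ℝ := s ^ 2
  let t82 : ℝ := t14 - em
  let t83 : ℝ := t82⁻¹
  let t84 : ℝ := t81 * t83
  let t85 : ℝ := t80 * t84
  let t86 : ℝ := t79 + t85
  let t87 : ℝ := ((4 : ℕ) : ℝ)
  let t88 : ℝ := t87 + t20
  let t89 : ℝ := t20 * t88
  let t90 : ℝ := t29 + t89
  let t91 : ℝ := t20 * t90
  let t92 : ℝ := t87 + t91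
  let t93 : ℝ := t51 + t41
  let t94 : ℝ := t93 * t44
  let t95 : ℝ := a * t19
  let t96 : ℝ := u + t94
  let t97 : ℝ := t50 * t96
  let t98 : ℝ := t92 + t97
  let t99 : ℝ := t95 * t98
  let t100 : ℝ := a * t94
  let t101 : ℝ := l + t54
  let t102 : ℝ := a + em
  let t103 : ℝ := t101 * t102
  let t104 : ℝ := t100 + t103
  let t105 : ℝ := L * t21
  let t106 : ℝ := t86 + t105
  let t107 : ℝ := t106 * t20
  let t108 : ℝ := L * x
  let t109 : ℝ := t86 + t108
  let t110 : ℝ := t109 * t16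
  let t111 : ℝ := t107 + t110
  let t112 : ℝ := t111 * t16
  let t113 : ℝ := t14 + s
  let t114 : ℝ := t75 * t113
  let t115 : ℝ := t16 * t17
  let t116 : ℝ := t114 * t115
  let t117 : ℝ := t14 + c
  let t118 : ℝ := t117⁻¹
  let t119 : ℝ := t75 * t118
  let t120 : ℝ := t116 - t119
  let t121 : ℝ := t72 * t120
  let t122 : ℝ := t112 - t121
  let t123 : ℝ := t75 * t16
  let t124 : ℝ := l - t123
  let t125 : ℝ := L * t124
  let t126 : ℝ := t86 + t125
  let t127 : ℝ := t22 * t60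
  let t128 : ℝ := t126 * t127
  let t129 : ℝ := t122 + t99
  let t134 : ℝ := t15 * t129
  let t135 : ℝ := t39 * t104
  let t136 : ℝ := t134 + t135
  let t137 : ℝ := t136 - m0
  let t138 : ℝ := t15 * t128
  let t139 : ℝ := t137 + t138
  (0 < c ∧ ((t126 < 0 ∨ t139 < 0) ∧ (0 < t126 ∨ t137 < 0)))

theorem sc8_mem {ε : Noise} {u a eps L l2 K0 s em V m0 c x l : ℝ} {u' a' eps' L' l2' K0' s' em' V' m0' c' x' l' : AF}
    (hu : Mem ε u u') (ha : Mem ε a a') (heps : Mem ε eps eps') (hL : Mem ε L L') (hl2 : Mem ε l2 l2') (hK0 : Mem ε K0 K0') (hs : Mem ε s s') (hem : Mem ε em em') (hV : Mem ε V V') (hm0 : Mem ε m0 m0') (hc : Mem ε c c') (hx : Mem ε x x') (hl : Mem ε l l')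
    (h : sc8 u' a' eps' L' l2' K0' s' em' V' m0' c' x' l' = true) : sc8R u a eps L l2 K0 s em V m0 c x l :=
  have ht13 := mem_sq hc
  have ht14 := mem_nat ε 1
  have ht15 := mem_sub ht14 ht13
  have ht16 := mem_sub ht14 hx
  have ht17 := mem_inv hc
  have ht18 := mem_sq ht17
  have ht19 := mem_mul ht16 ht18
  have ht20 := mem_mul ht15 ht19
  have ht21 := mem_add ht14 ht20
  have ht22 := mem_sub hl hx
  have ht29 := mem_nat ε 6
  have ht38 := mem_sq hl
  have ht39 := mem_mul ht38 hl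
  have ht40 := mem_sq hu
  have ht41 := mem_mul ht40 hu
  have ht42 := mem_nat ε 3
  have ht43 := mem_mul ht42 ht40
  have ht44 := mem_inv ht43
  have ht48 := mem_add ht42 ht20
  have ht49 := mem_mul ht20 ht48
  have ht50 := mem_add ht42 ht49
  have ht51 := mem_mul ht20 ht50
  have ht52 := mem_add ht51 ht39
  have ht53 := mem_mul ht52 ht44
  have ht54 := mem_add hu ht53
  have ht60 := mem_add hx ht54
  have ht70 := mem_add ht14 ht51
  have ht71 := mem_add ht21 ht54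
  have ht72 := mem_mul ht70 ht71
  have ht73 := mem_sub ht14 ha
  have ht74 := mem_mul hL ht73
  have ht75 := mem_nat ε 2
  have ht76 := mem_mul ht75 heps
  have ht77 := mem_mul ht76 ht54
  have ht78 := mem_sub ht74 ht77
  have ht79 := mem_add ht78 hl2
  have ht80 := mem_sub ht72 hK0
  have ht81 := mem_sq hs
  have ht82 := mem_sub ht14 hem
  have ht83 := mem_inv ht82
  have ht84 := mem_mul ht81 ht83
  have ht85 := mem_mul ht80 ht84
  have ht86 := mem_add ht79 ht85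
  have ht87 := mem_nat ε 4
  have ht88 := mem_add ht87 ht20
  have ht89 := mem_mul ht20 ht88
  have ht90 := mem_add ht29 ht89
  have ht91 := mem_mul ht20 ht90
  have ht92 := mem_add ht87 ht91
  have ht93 := mem_add ht51 ht41
  have ht94 := mem_mul ht93 ht44
  have ht95 := mem_mul ha ht19
  have ht96 := mem_add hu ht94
  have ht97 := mem_mul ht50 ht96
  have ht98 := mem_add ht92 ht97
  have ht99 := mem_mul ht95 ht98
  have ht100 := mem_mul ha ht94
  have ht101 := mem_add hl ht54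
  have ht102 := mem_add ha hem
  have ht103 := mem_mul ht101 ht102
  have ht104 := mem_add ht100 ht103
  have ht105 := mem_mul hL ht21
  have ht106 := mem_add ht86 ht105
  have ht107 := mem_mul ht106 ht20
  have ht108 := mem_mul hL hx
  have ht109 := mem_add ht86 ht108
  have ht110 := mem_mul ht109 ht16
  have ht111 := mem_add ht107 ht110
  have ht112 := mem_mul ht111 ht16
  have ht113 := mem_add ht14 hs
  have ht114 := mem_mul ht75 ht113
  have ht115 := mem_mul ht16 ht17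
  have ht116 := mem_mul ht114 ht115
  have ht117 := mem_add ht14 hc
  have ht118 := mem_inv ht117
  have ht119 := mem_mul ht75 ht118
  have ht120 := mem_sub ht116 ht119
  have ht121 := mem_mul ht72 ht120
  have ht122 := mem_sub ht112 ht121
  have ht123 := mem_mul ht75 ht16
  have ht124 := mem_sub hl ht123
  have ht125 := mem_mul hL ht124
  have ht126 := mem_add ht86 ht125
  have ht127 := mem_mul ht22 ht60
  have ht128 := mem_mul ht126 ht127
  have ht129 := mem_add ht122 ht99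
  have ht134 := mem_mul ht15 ht129
  have ht135 := mem_mul ht39 ht104
  have ht136 := mem_add ht134 ht135
  have ht137 := mem_sub ht136 hm0
  have ht138 := mem_mul ht15 ht128
  have ht139 := mem_add ht137 ht138
  (and_imp' (lt_of_pos hc) (and_imp' (or_imp' (lt_of_neg ht126) (lt_of_neg ht139)) (or_imp' (lt_of_pos ht126) (lt_of_neg ht137)))) h

def sc9 (u a eps L l2 K0 s em V m0 c x l : AF) : Bool :=
  let t13 := AF.sq c
  let t14 := AF.nat 1
  let t16 := AF.sub t14 x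
  let t38 := AF.sq l
  let t63 := AF.add V t14
  let t64 := AF.sub t63 t38
  let t65 := AF.rat 1 2
  let t66 := AF.mul t64 t65
  let t67 := AF.sub t66 x
  let t68 := AF.mul t13 t67
  let t69 := AF.sub t68 t16
  AF.neg t69

def sc9R (u a eps L l2 K0 s em V m0 c x l : ℝ) : Prop :=
  let t13 : ℝ := c ^ 2
  let t14 : ℝ := ((1 : ℕ) : ℝ)
  let t16 : ℝ := t14 - x
  let t38 : ℝ := l ^ 2
  let t63 : ℝ := V + t14
  let t64 : ℝ := t63 - t38
  let t65 : ℝ := ((1 : ℕ) : ℝ) / ((2 : ℕ) : ℝ)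
  let t66 : ℝ := t64 * t65
  let t67 : ℝ := t66 - x
  let t68 : ℝ := t13 * t67
  let t69 : ℝ := t68 - t16
  t69 < 0

theorem sc9_mem {ε : Noise} {u a eps L l2 K0 s em V m0 c x l : ℝ} {u' a' eps' L' l2' K0' s' em' V' m0' c' x' l' : AF}
    (hu : Mem ε u u') (ha : Mem ε a a') (heps : Mem ε eps eps') (hL : Mem ε L L') (hl2 : Mem ε l2 l2') (hK0 : Mem ε K0 K0') (hs : Mem ε s s') (hem : Mem ε em em') (hV : Mem ε V V') (hm0 : Mem ε m0 m0') (hc : Mem ε c c') (hx : Mem ε x x') (hl : Mem ε l l')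
    (h : sc9 u' a' eps' L' l2' K0' s' em' V' m0' c' x' l' = true) : sc9R u a eps L l2 K0 s em V m0 c x l :=
  have ht13 := mem_sq hc
  have ht14 := mem_nat ε 1
  have ht16 := mem_sub ht14 hx
  have ht38 := mem_sq hl
  have ht63 := mem_add hV ht14
  have ht64 := mem_sub ht63 ht38
  have ht65 := mem_rat ε 1 2
  have ht66 := mem_mul ht64 ht65
  have ht67 := mem_sub ht66 hx
  have ht68 := mem_mul ht13 ht67
  have ht69 := mem_sub ht68 ht16
  (lt_of_neg ht69) h

def cvQ (io : AF) : AF :=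
  let t1 := AF.inv io
  let t2 := AF.sq t1
  let t3 := AF.nat 2
  let t4 := AF.mul t3 t1
  let t5 := AF.nat 0
  let t6 := AF.sub t5 t4
  let t7 := AF.exp t6
  let t8 := AF.mul t2 t7
  t8

def cvQR (io : ℝ) : ℝ :=
  let t1 : ℝ := io⁻¹
  let t2 : ℝ := t1 ^ 2
  let t3 : ℝ := ((2 : ℕ) : ℝ)
  let t4 : ℝ := t3 * t1
  let t5 : ℝ := ((0 : ℕ) : ℝ)
  let t6 : ℝ := t5 - t4
  let t7 : ℝ := Real.exp t6
  let t8 : ℝ := t2 * t7
  t8

theorem cvQ_mem {ε : Noise} {io : ℝ} {io' : AF}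
    (hio : Mem ε io io')
    : Mem ε (cvQR io) (cvQ io') :=
  have ht1 := mem_inv hio
  have ht2 := mem_sq ht1
  have ht3 := mem_nat ε 2
  have ht4 := mem_mul ht3 ht1
  have ht5 := mem_nat ε 0
  have ht6 := mem_sub ht5 ht4
  have ht7 := mem_exp ht6
  have ht8 := mem_mul ht2 ht7
  ht8

def cvU (io q : AF) : AF :=
  let t2 := AF.mul q io
  let t3 := AF.mul t2 io
  let t4 := AF.nat 1
  let t5 := AF.add t4 t3
  let t6 := AF.sub t4 t3
  let t7 := AF.inv t5
  let t8 := AF.mul t6 t7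
  t8

def cvUR (io q : ℝ) : ℝ :=
  let t2 : ℝ := q * io
  let t3 : ℝ := t2 * io
  let t4 : ℝ := ((1 : ℕ) : ℝ)
  let t5 : ℝ := t4 + t3
  let t6 : ℝ := t4 - t3
  let t7 : ℝ := t5⁻¹
  let t8 : ℝ := t6 * t7
  t8

theorem cvU_mem {ε : Noise} {io q : ℝ} {io' q' : AF}
    (hio : Mem ε io io') (hq : Mem ε q q')
    : Mem ε (cvUR io q) (cvU io' q') :=
  have ht2 := mem_mul hq hio
  have ht3 := mem_mul ht2 hio
  have ht4 := mem_nat ε 1
  have ht5 := mem_add ht4 ht3
  have ht6 := mem_sub ht4 ht3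
  have ht7 := mem_inv ht5
  have ht8 := mem_mul ht6 ht7
  ht8

def cvEps (io q : AF) : AF :=
  let t2 := AF.mul q io
  let t3 := AF.mul t2 io
  let t4 := AF.nat 1
  let t5 := AF.add t4 t3
  let t6 := AF.sub t4 t3
  let t7 := AF.inv t5
  let t8 := AF.mul t6 t7
  let t9 := AF.sq t8
  let t10 := AF.mul t9 io
  t10

def cvEpsR (io q : ℝ) : ℝ :=
  let t2 : ℝ := q * io
  let t3 : ℝ := t2 * io
  let t4 : ℝ := ((1 : ℕ) : ℝ)
  let t5 : ℝ := t4 + t3
  let t6 : ℝ := t4 - t3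
  let t7 : ℝ := t5⁻¹
  let t8 : ℝ := t6 * t7
  let t9 : ℝ := t8 ^ 2
  let t10 : ℝ := t9 * io
  t10

theorem cvEps_mem {ε : Noise} {io q : ℝ} {io' q' : AF}
    (hio : Mem ε io io') (hq : Mem ε q q')
    : Mem ε (cvEpsR io q) (cvEps io' q') :=
  have ht2 := mem_mul hq hio
  have ht3 := mem_mul ht2 hio
  have ht4 := mem_nat ε 1
  have ht5 := mem_add ht4 ht3
  have ht6 := mem_sub ht4 ht3
  have ht7 := mem_inv ht5
  have ht8 := mem_mul ht6 ht7
  have ht9 := mem_sq ht8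
  have ht10 := mem_mul ht9 hio
  ht10

def cvA (io q : AF) : AF :=
  let t2 := AF.mul q io
  let t3 := AF.mul t2 io
  let t4 := AF.nat 1
  let t5 := AF.add t4 t3
  let t6 := AF.sub t4 t3
  let t7 := AF.inv t5
  let t8 := AF.mul t6 t7
  let t9 := AF.sq t8
  let t11 := AF.sq t6
  let t12 := AF.inv t11
  let t16 := AF.add t4 t8
  let t17 := AF.add t16 t9
  let t18 := AF.mul t2 t17
  let t19 := AF.mul t18 t5
  let t20 := AF.mul t19 t12
  t20

def cvAR (io q : ℝ) : ℝ :=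
  let t2 : ℝ := q * io
  let t3 : ℝ := t2 * io
  let t4 : ℝ := ((1 : ℕ) : ℝ)
  let t5 : ℝ := t4 + t3
  let t6 : ℝ := t4 - t3
  let t7 : ℝ := t5⁻¹
  let t8 : ℝ := t6 * t7
  let t9 : ℝ := t8 ^ 2
  let t11 : ℝ := t6 ^ 2
  let t12 : ℝ := t11⁻¹
  let t16 : ℝ := t4 + t8
  let t17 : ℝ := t16 + t9
  let t18 : ℝ := t2 * t17
  let t19 : ℝ := t18 * t5
  let t20 : ℝ := t19 * t12
  t20

theorem cvA_mem {ε : Noise} {io q : ℝ} {io' q' : AF}
    (hio : Mem ε io io') (hq : Mem ε q q')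
    : Mem ε (cvAR io q) (cvA io' q') :=
  have ht2 := mem_mul hq hio
  have ht3 := mem_mul ht2 hio
  have ht4 := mem_nat ε 1
  have ht5 := mem_add ht4 ht3
  have ht6 := mem_sub ht4 ht3
  have ht7 := mem_inv ht5
  have ht8 := mem_mul ht6 ht7
  have ht9 := mem_sq ht8
  have ht11 := mem_sq ht6
  have ht12 := mem_inv ht11
  have ht16 := mem_add ht4 ht8
  have ht17 := mem_add ht16 ht9
  have ht18 := mem_mul ht2 ht17
  have ht19 := mem_mul ht18 ht5
  have ht20 := mem_mul ht19 ht12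
  ht20

def cvL (io q : AF) : AF :=
  let t2 := AF.mul q io
  let t3 := AF.mul t2 io
  let t4 := AF.nat 1
  let t5 := AF.add t4 t3
  let t6 := AF.sub t4 t3
  let t7 := AF.inv t5
  let t8 := AF.mul t6 t7
  let t9 := AF.sq t8
  let t11 := AF.sq t6
  let t13 := AF.nat 4
  let t14 := AF.mul t13 t2
  let t21 := AF.mul t13 q
  let t22 := AF.sub t11 t21
  let t23 := AF.inv t22
  let t24 := AF.mul io t6
  let t25 := AF.sub t24 t5
  let t26 := AF.nat 2
  let t27 := AF.sub t26 t24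
  let t28 := AF.mul t21 t27
  let t29 := AF.mul t28 t23
  let t30 := AF.mul t14 t25
  let t31 := AF.mul t30 t23
  let t32 := AF.add t26 t29
  let t33 := AF.add t32 t31
  let t34 := AF.mul t9 t33
  let t35 := AF.add t26 t34
  t35

def cvLR (io q : ℝ) : ℝ :=
  let t2 : ℝ := q * io
  let t3 : ℝ := t2 * io
  let t4 : ℝ := ((1 : ℕ) : ℝ)
  let t5 : ℝ := t4 + t3
  let t6 : ℝ := t4 - t3
  let t7 : ℝ := t5⁻¹
  let t8 : ℝ := t6 * t7
  let t9 : ℝ := t8 ^ 2
  let t11 : ℝ := t6 ^ 2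
  let t13 : ℝ := ((4 : ℕ) : ℝ)
  let t14 : ℝ := t13 * t2
  let t21 : ℝ := t13 * q
  let t22 : ℝ := t11 - t21
  let t23 : ℝ := t22⁻¹
  let t24 : ℝ := io * t6
  let t25 : ℝ := t24 - t5
  let t26 : ℝ := ((2 : ℕ) : ℝ)
  let t27 : ℝ := t26 - t24
  let t28 : ℝ := t21 * t27
  let t29 : ℝ := t28 * t23
  let t30 : ℝ := t14 * t25
  let t31 : ℝ := t30 * t23
  let t32 : ℝ := t26 + t29
  let t33 : ℝ := t32 + t31
  let t34 : ℝ := t9 * t33
  let t35 : ℝ := t26 + t34
  t35

theorem cvL_mem {ε : Noise} {io q : ℝ} {io' q' : AF}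
    (hio : Mem ε io io') (hq : Mem ε q q')
    : Mem ε (cvLR io q) (cvL io' q') :=
  have ht2 := mem_mul hq hio
  have ht3 := mem_mul ht2 hio
  have ht4 := mem_nat ε 1
  have ht5 := mem_add ht4 ht3
  have ht6 := mem_sub ht4 ht3
  have ht7 := mem_inv ht5
  have ht8 := mem_mul ht6 ht7
  have ht9 := mem_sq ht8
  have ht11 := mem_sq ht6
  have ht13 := mem_nat ε 4
  have ht14 := mem_mul ht13 ht2
  have ht21 := mem_mul ht13 hq
  have ht22 := mem_sub ht11 ht21
  have ht23 := mem_inv ht22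
  have ht24 := mem_mul hio ht6
  have ht25 := mem_sub ht24 ht5
  have ht26 := mem_nat ε 2
  have ht27 := mem_sub ht26 ht24
  have ht28 := mem_mul ht21 ht27
  have ht29 := mem_mul ht28 ht23
  have ht30 := mem_mul ht14 ht25
  have ht31 := mem_mul ht30 ht23
  have ht32 := mem_add ht26 ht29
  have ht33 := mem_add ht32 ht31
  have ht34 := mem_mul ht9 ht33
  have ht35 := mem_add ht26 ht34
  ht35

def smA (io q u : AF) : AF :=
  let t3 := AF.sq u
  let t4 := AF.mul t3 u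
  let t5 := AF.nat 1
  let t6 := AF.sub t5 t4
  let t7 := AF.mul q io
  let t8 := AF.mul t7 io
  let t9 := AF.add t5 t8
  let t10 := AF.sub t5 t8
  let t11 := AF.inv t9
  let t12 := AF.mul t10 t11
  let t13 := AF.sq t12
  let t14 := AF.mul t13 io
  let t30 := AF.nat 2
  let t53 := AF.mul t30 t14
  let t54 := AF.inv t53
  let t55 := AF.mul t6 t54
  t55

def smAR (io q u : ℝ) : ℝ :=
  let t3 : ℝ := u ^ 2
  let t4 : ℝ := t3 * u
  let t5 : ℝ := ((1 : ℕ) : ℝ)
  let t6 : ℝ := t5 - t4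
  let t7 : ℝ := q * io
  let t8 : ℝ := t7 * io
  let t9 : ℝ := t5 + t8
  let t10 : ℝ := t5 - t8
  let t11 : ℝ := t9⁻¹
  let t12 : ℝ := t10 * t11
  let t13 : ℝ := t12 ^ 2
  let t14 : ℝ := t13 * io
  let t30 : ℝ := ((2 : ℕ) : ℝ)
  let t53 : ℝ := t30 * t14
  let t54 : ℝ := t53⁻¹
  let t55 : ℝ := t6 * t54
  t55

theorem smA_mem {ε : Noise} {io q u : ℝ} {io' q' u' : AF}
    (hio : Mem ε io io') (hq : Mem ε q q') (hu : Mem ε u u')
    : Mem ε (smAR io q u) (smA io' q' u') :=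
  have ht3 := mem_sq hu
  have ht4 := mem_mul ht3 hu
  have ht5 := mem_nat ε 1
  have ht6 := mem_sub ht5 ht4
  have ht7 := mem_mul hq hio
  have ht8 := mem_mul ht7 hio
  have ht9 := mem_add ht5 ht8
  have ht10 := mem_sub ht5 ht8
  have ht11 := mem_inv ht9
  have ht12 := mem_mul ht10 ht11
  have ht13 := mem_sq ht12
  have ht14 := mem_mul ht13 hio
  have ht30 := mem_nat ε 2
  have ht53 := mem_mul ht30 ht14
  have ht54 := mem_inv ht53
  have ht55 := mem_mul ht6 ht54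
  ht55

def smH (io q u : AF) : AF :=
  let t3 := AF.mul q io
  let t4 := AF.mul t3 io
  let t5 := AF.nat 1
  let t6 := AF.add t5 t4
  let t7 := AF.sub t5 t4
  let t8 := AF.inv t6
  let t9 := AF.mul t7 t8
  let t10 := AF.sq t9
  let t11 := AF.mul t10 io
  let t50 := AF.mul t10 t9
  let t51 := AF.sq u
  let t52 := AF.mul t51 u
  let t53 := AF.sub t50 t52
  let t54 := AF.inv t11
  let t55 := AF.mul t53 t54
  t55

def smHR (io q u : ℝ) : ℝ :=
  let t3 : ℝ := q * io
  let t4 : ℝ := t3 * io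
  let t5 : ℝ := ((1 : ℕ) : ℝ)
  let t6 : ℝ := t5 + t4
  let t7 : ℝ := t5 - t4
  let t8 : ℝ := t6⁻¹
  let t9 : ℝ := t7 * t8
  let t10 : ℝ := t9 ^ 2
  let t11 : ℝ := t10 * io
  let t50 : ℝ := t10 * t9
  let t51 : ℝ := u ^ 2
  let t52 : ℝ := t51 * u
  let t53 : ℝ := t50 - t52
  let t54 : ℝ := t11⁻¹
  let t55 : ℝ := t53 * t54
  t55

theorem smH_mem {ε : Noise} {io q u : ℝ} {io' q' u' : AF}
    (hio : Mem ε io io') (hq : Mem ε q q') (hu : Mem ε u u')
    : Mem ε (smHR io q u) (smH io' q' u') :=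
  have ht3 := mem_mul hq hio
  have ht4 := mem_mul ht3 hio
  have ht5 := mem_nat ε 1
  have ht6 := mem_add ht5 ht4
  have ht7 := mem_sub ht5 ht4
  have ht8 := mem_inv ht6
  have ht9 := mem_mul ht7 ht8
  have ht10 := mem_sq ht9
  have ht11 := mem_mul ht10 hio
  have ht50 := mem_mul ht10 ht9
  have ht51 := mem_sq hu
  have ht52 := mem_mul ht51 hu
  have ht53 := mem_sub ht50 ht52
  have ht54 := mem_inv ht11
  have ht55 := mem_mul ht53 ht54
  ht55

def rt0 (io q a bh K0 l2 e dj : AF) : Bool :=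
  let t8 := AF.mul q io
  let t9 := AF.mul t8 io
  let t10 := AF.nat 1
  let t11 := AF.add t10 t9
  let t12 := AF.sub t10 t9
  let t13 := AF.inv t11
  let t14 := AF.mul t12 t13
  let t15 := AF.sq t14
  let t17 := AF.sq t12
  let t18 := AF.inv t17
  let t19 := AF.nat 4
  let t20 := AF.mul t19 t8
  let t21 := AF.mul t20 t18
  let t27 := AF.mul t19 q
  let t28 := AF.sub t17 t27
  let t29 := AF.inv t28
  let t30 := AF.mul io t12
  let t31 := AF.sub t30 t11
  let t32 := AF.nat 2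
  let t42 := AF.mul t32 t11
  let t43 := AF.mul t32 t8
  let t44 := AF.sub t12 t43
  let t45 := AF.add t32 t21
  let t46 := AF.mul t45 t31
  let t47 := AF.add t44 t46
  let t48 := AF.mul t42 t47
  let t49 := AF.mul t48 t29
  let t50 := AF.mul t32 t17
  let t51 := AF.mul t50 t29
  let t52 := AF.mul t32 t31
  let t53 := AF.mul t52 t11
  let t54 := AF.mul t53 t29
  let t55 := AF.rat 2 3
  let t56 := AF.mul t55 bh
  let t57 := AF.nat 0
  let t58 := AF.sub t57 t56
  let t59 := AF.exp t58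
  let t60 := AF.sq t15
  let t61 := AF.add t10 e
  let t62 := AF.inv t61
  let t63 := AF.mul K0 t62
  let t64 := AF.mul t59 t49
  let t65 := AF.mul t64 t60
  let t66 := AF.add t63 t65
  let t67 := AF.sub t66 l2
  let t68 := AF.mul t54 bh
  let t69 := AF.sub t51 t68
  let t70 := AF.mul t49 e
  let t71 := AF.add t69 t70
  and (AF.neg t67) (AF.pos t71)

def rt0R (io q a bh K0 l2 e dj : ℝ) : Prop :=
  let t8 : ℝ := q * io
  let t9 : ℝ := t8 * io
  let t10 : ℝ := ((1 : ℕ) : ℝ)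
  let t11 : ℝ := t10 + t9
  let t12 : ℝ := t10 - t9
  let t13 : ℝ := t11⁻¹
  let t14 : ℝ := t12 * t13
  let t15 : ℝ := t14 ^ 2
  let t17 : ℝ := t12 ^ 2
  let t18 : ℝ := t17⁻¹
  let t19 : ℝ := ((4 : ℕ) : ℝ)
  let t20 : ℝ := t19 * t8
  let t21 : ℝ := t20 * t18
  let t27 : ℝ := t19 * q
  let t28 : ℝ := t17 - t27
  let t29 : ℝ := t28⁻¹
  let t30 : ℝ := io * t12
  let t31 : ℝ := t30 - t11
  let t32 : ℝ := ((2 : ℕ) : ℝ)
  let t42 : ℝ := t32 * t11
  let t43 : ℝ := t32 * t8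
  let t44 : ℝ := t12 - t43
  let t45 : ℝ := t32 + t21
  let t46 : ℝ := t45 * t31
  let t47 : ℝ := t44 + t46
  let t48 : ℝ := t42 * t47
  let t49 : ℝ := t48 * t29
  let t50 : ℝ := t32 * t17
  let t51 : ℝ := t50 * t29
  let t52 : ℝ := t32 * t31
  let t53 : ℝ := t52 * t11
  let t54 : ℝ := t53 * t29
  let t55 : ℝ := ((2 : ℕ) : ℝ) / ((3 : ℕ) : ℝ)
  let t56 : ℝ := t55 * bh
  let t57 : ℝ := ((0 : ℕ) : ℝ)
  let t58 : ℝ := t57 - t56
  let t59 : ℝ := Real.exp t58
  let t60 : ℝ := t15 ^ 2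
  let t61 : ℝ := t10 + e
  let t62 : ℝ := t61⁻¹
  let t63 : ℝ := K0 * t62
  let t64 : ℝ := t59 * t49
  let t65 : ℝ := t64 * t60
  let t66 : ℝ := t63 + t65
  let t67 : ℝ := t66 - l2
  let t68 : ℝ := t54 * bh
  let t69 : ℝ := t51 - t68
  let t70 : ℝ := t49 * e
  let t71 : ℝ := t69 + t70
  (t67 < 0 ∧ 0 < t71)

theorem rt0_mem {ε : Noise} {io q a bh K0 l2 e dj : ℝ} {io' q' a' bh' K0' l2' e' dj' : AF}
    (hio : Mem ε io io') (hq : Mem ε q q') (ha : Mem ε a a') (hbh : Mem ε bh bh') (hK0 : Mem ε K0 K0') (hl2 : Mem ε l2 l2') (he : Mem ε e e') (hdj : Mem ε dj dj')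
    (h : rt0 io' q' a' bh' K0' l2' e' dj' = true) : rt0R io q a bh K0 l2 e dj :=
  have ht8 := mem_mul hq hio
  have ht9 := mem_mul ht8 hio
  have ht10 := mem_nat ε 1
  have ht11 := mem_add ht10 ht9
  have ht12 := mem_sub ht10 ht9
  have ht13 := mem_inv ht11
  have ht14 := mem_mul ht12 ht13
  have ht15 := mem_sq ht14
  have ht17 := mem_sq ht12
  have ht18 := mem_inv ht17
  have ht19 := mem_nat ε 4
  have ht20 := mem_mul ht19 ht8
  have ht21 := mem_mul ht20 ht18
  have ht27 := mem_mul ht19 hq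
  have ht28 := mem_sub ht17 ht27
  have ht29 := mem_inv ht28
  have ht30 := mem_mul hio ht12
  have ht31 := mem_sub ht30 ht11
  have ht32 := mem_nat ε 2
  have ht42 := mem_mul ht32 ht11
  have ht43 := mem_mul ht32 ht8
  have ht44 := mem_sub ht12 ht43
  have ht45 := mem_add ht32 ht21
  have ht46 := mem_mul ht45 ht31
  have ht47 := mem_add ht44 ht46
  have ht48 := mem_mul ht42 ht47
  have ht49 := mem_mul ht48 ht29
  have ht50 := mem_mul ht32 ht17
  have ht51 := mem_mul ht50 ht29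
  have ht52 := mem_mul ht32 ht31
  have ht53 := mem_mul ht52 ht11
  have ht54 := mem_mul ht53 ht29
  have ht55 := mem_rat ε 2 3
  have ht56 := mem_mul ht55 hbh
  have ht57 := mem_nat ε 0
  have ht58 := mem_sub ht57 ht56
  have ht59 := mem_exp ht58
  have ht60 := mem_sq ht15
  have ht61 := mem_add ht10 he
  have ht62 := mem_inv ht61
  have ht63 := mem_mul hK0 ht62
  have ht64 := mem_mul ht59 ht49
  have ht65 := mem_mul ht64 ht60
  have ht66 := mem_add ht63 ht65
  have ht67 := mem_sub ht66 hl2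
  have ht68 := mem_mul ht54 hbh
  have ht69 := mem_sub ht51 ht68
  have ht70 := mem_mul ht49 he
  have ht71 := mem_add ht69 ht70
  (and_imp' (lt_of_neg ht67) (lt_of_pos ht71)) h

def rtj (io q a bh K0 l2 e dj : AF) : Bool :=
  let t8 := AF.mul q io
  let t9 := AF.mul t8 io
  let t10 := AF.nat 1
  let t11 := AF.add t10 t9
  let t12 := AF.sub t10 t9
  let t13 := AF.inv t11
  let t14 := AF.mul t12 t13
  let t15 := AF.sq t14
  let t16 := AF.mul t15 io
  let t17 := AF.sq t12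
  let t18 := AF.inv t17
  let t19 := AF.nat 4
  let t20 := AF.mul t19 t8
  let t21 := AF.mul t20 t18
  let t27 := AF.mul t19 q
  let t28 := AF.sub t17 t27
  let t29 := AF.inv t28
  let t30 := AF.mul io t12
  let t31 := AF.sub t30 t11
  let t32 := AF.nat 2
  let t33 := AF.sub t32 t30
  let t34 := AF.mul t27 t33
  let t35 := AF.mul t34 t29
  let t36 := AF.mul t20 t31
  let t37 := AF.mul t36 t29
  let t38 := AF.add t32 t35
  let t39 := AF.add t38 t37
  let t42 := AF.mul t32 t11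
  let t43 := AF.mul t32 t8
  let t44 := AF.sub t12 t43
  let t45 := AF.add t32 t21
  let t46 := AF.mul t45 t31
  let t47 := AF.add t44 t46
  let t48 := AF.mul t42 t47
  let t49 := AF.mul t48 t29
  let t50 := AF.mul t32 t17
  let t51 := AF.mul t50 t29
  let t52 := AF.mul t32 t31
  let t53 := AF.mul t52 t11
  let t54 := AF.mul t53 t29
  let t55 := AF.rat 2 3
  let t56 := AF.mul t55 bh
  let t57 := AF.nat 0
  let t58 := AF.sub t57 t56
  let t59 := AF.exp t58
  let t60 := AF.sq t15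
  let t61 := AF.add t10 e
  let t62 := AF.inv t61
  let t63 := AF.mul K0 t62
  let t64 := AF.mul t59 t49
  let t65 := AF.mul t64 t60
  let t66 := AF.add t63 t65
  let t67 := AF.sub t66 l2
  let t68 := AF.mul t54 bh
  let t69 := AF.sub t51 t68
  let t70 := AF.mul t49 e
  let t71 := AF.add t69 t70
  let t72 := AF.mul t59 t71
  let t73 := AF.sub t72 t51
  let t74 := AF.add t73 t10
  let t75 := AF.mul t60 t74
  let t76 := AF.inv io
  let t77 := AF.mul t32 t76
  let t78 := AF.sub t77 dj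
  let t79 := AF.exp dj
  let t80 := AF.mul t9 t79
  let t81 := AF.sub t10 t80
  let t82 := AF.sq t81
  let t83 := AF.sq t78
  let t84 := AF.mul t83 t80
  let t85 := AF.sub t82 t84
  let t86 := AF.inv t85
  let t87 := AF.sub t78 t81
  let t88 := AF.mul t83 t87
  let t89 := AF.mul t88 t86
  let t90 := AF.mul t32 t81
  let t91 := AF.add t10 t80
  let t92 := AF.mul t78 t91
  let t93 := AF.sub t90 t92
  let t94 := AF.mul t78 t93
  let t95 := AF.mul t94 t86
  let t96 := AF.mul t76 t39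
  let t97 := AF.sub t57 t96
  let t98 := AF.add t89 t95
  let t99 := AF.mul t80 t98
  let t100 := AF.add t97 t99
  let t101 := AF.rat 1 2
  let t102 := AF.mul t100 t101
  let t103 := AF.mul t95 t102
  let t104 := AF.sub t89 t103
  let t105 := AF.mul t104 t61
  let t106 := AF.mul t76 t14
  let t107 := AF.sub t106 bh
  let t108 := AF.add t76 t21
  let t109 := AF.add t108 t32
  let t110 := AF.mul t109 e
  let t111 := AF.add t107 t110
  let t112 := AF.mul t95 t111
  let t113 := AF.add t105 t112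
  let t114 := AF.mul t59 t11
  let t115 := AF.mul t114 t101
  let t116 := AF.sub dj t76
  let t117 := AF.sub t116 t102
  let t118 := AF.exp t117
  let t119 := AF.mul t115 t118
  let t120 := AF.mul t119 t113
  let t121 := AF.mul t80 t89
  let t122 := AF.sq t102
  let t123 := AF.sub t121 t122
  let t124 := AF.mul t97 t102
  let t125 := AF.add t123 t124
  let t126 := AF.sub t120 t125
  let t127 := AF.sq e
  let t128 := AF.mul t127 t67
  let t129 := AF.sub a e
  let t130 := AF.sq t16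
  let t131 := AF.mul t126 t130
  let t132 := AF.sub t131 t75
  let t133 := AF.mul t129 t132
  let t134 := AF.sub t128 t133
  and (AF.pos t78) (and (AF.pos t113) (AF.neg t134))

def rtjR (io q a bh K0 l2 e dj : ℝ) : Prop :=
  let t8 : ℝ := q * io
  let t9 : ℝ := t8 * io
  let t10 : ℝ := ((1 : ℕ) : ℝ)
  let t11 : ℝ := t10 + t9
  let t12 : ℝ := t10 - t9
  let t13 : ℝ := t11⁻¹
  let t14 : ℝ := t12 * t13
  let t15 : ℝ := t14 ^ 2
  let t16 : ℝ := t15 * io
  let t17 : ℝ := t12 ^ 2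
  let t18 : ℝ := t17⁻¹
  let t19 : ℝ := ((4 : ℕ) : ℝ)
  let t20 : ℝ := t19 * t8
  let t21 : ℝ := t20 * t18
  let t27 : ℝ := t19 * q
  let t28 : ℝ := t17 - t27
  let t29 : ℝ := t28⁻¹
  let t30 : ℝ := io * t12
  let t31 : ℝ := t30 - t11
  let t32 : ℝ := ((2 : ℕ) : ℝ)
  let t33 : ℝ := t32 - t30
  let t34 : ℝ := t27 * t33
  let t35 : ℝ := t34 * t29
  let t36 : ℝ := t20 * t31
  let t37 : ℝ := t36 * t29
  let t38 : ℝ := t32 + t35
  let t39 : ℝ := t38 + t37
  let t42 : ℝ := t32 * t11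
  let t43 : ℝ := t32 * t8
  let t44 : ℝ := t12 - t43
  let t45 : ℝ := t32 + t21
  let t46 : ℝ := t45 * t31
  let t47 : ℝ := t44 + t46
  let t48 : ℝ := t42 * t47
  let t49 : ℝ := t48 * t29
  let t50 : ℝ := t32 * t17
  let t51 : ℝ := t50 * t29
  let t52 : ℝ := t32 * t31
  let t53 : ℝ := t52 * t11
  let t54 : ℝ := t53 * t29
  let t55 : ℝ := ((2 : ℕ) : ℝ) / ((3 : ℕ) : ℝ)
  let t56 : ℝ := t55 * bh
  let t57 : ℝ := ((0 : ℕ) : ℝ)
  let t58 : ℝ := t57 - t56
  let t59 : ℝ := Real.exp t58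
  let t60 : ℝ := t15 ^ 2
  let t61 : ℝ := t10 + e
  let t62 : ℝ := t61⁻¹
  let t63 : ℝ := K0 * t62
  let t64 : ℝ := t59 * t49
  let t65 : ℝ := t64 * t60
  let t66 : ℝ := t63 + t65
  let t67 : ℝ := t66 - l2
  let t68 : ℝ := t54 * bh
  let t69 : ℝ := t51 - t68
  let t70 : ℝ := t49 * e
  let t71 : ℝ := t69 + t70
  let t72 : ℝ := t59 * t71
  let t73 : ℝ := t72 - t51
  let t74 : ℝ := t73 + t10
  let t75 : ℝ := t60 * t74
  let t76 : ℝ := io⁻¹
  let t77 : ℝ := t32 * t76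
  let t78 : ℝ := t77 - dj
  let t79 : ℝ := Real.exp dj
  let t80 : ℝ := t9 * t79
  let t81 : ℝ := t10 - t80
  let t82 : ℝ := t81 ^ 2
  let t83 : ℝ := t78 ^ 2
  let t84 : ℝ := t83 * t80
  let t85 : ℝ := t82 - t84
  let t86 : ℝ := t85⁻¹
  let t87 : ℝ := t78 - t81
  let t88 : ℝ := t83 * t87
  let t89 : ℝ := t88 * t86
  let t90 : ℝ := t32 * t81
  let t91 : ℝ := t10 + t80
  let t92 : ℝ := t78 * t91
  let t93 : ℝ := t90 - t92
  let t94 : ℝ := t78 * t93
  let t95 : ℝ := t94 * t86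
  let t96 : ℝ := t76 * t39
  let t97 : ℝ := t57 - t96
  let t98 : ℝ := t89 + t95
  let t99 : ℝ := t80 * t98
  let t100 : ℝ := t97 + t99
  let t101 : ℝ := ((1 : ℕ) : ℝ) / ((2 : ℕ) : ℝ)
  let t102 : ℝ := t100 * t101
  let t103 : ℝ := t95 * t102
  let t104 : ℝ := t89 - t103
  let t105 : ℝ := t104 * t61
  let t106 : ℝ := t76 * t14
  let t107 : ℝ := t106 - bh
  let t108 : ℝ := t76 + t21
  let t109 : ℝ := t108 + t32
  let t110 : ℝ := t109 * e
  let t111 : ℝ := t107 + t110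
  let t112 : ℝ := t95 * t111
  let t113 : ℝ := t105 + t112
  let t114 : ℝ := t59 * t11
  let t115 : ℝ := t114 * t101
  let t116 : ℝ := dj - t76
  let t117 : ℝ := t116 - t102
  let t118 : ℝ := Real.exp t117
  let t119 : ℝ := t115 * t118
  let t120 : ℝ := t119 * t113
  let t121 : ℝ := t80 * t89
  let t122 : ℝ := t102 ^ 2
  let t123 : ℝ := t121 - t122
  let t124 : ℝ := t97 * t102
  let t125 : ℝ := t123 + t124
  let t126 : ℝ := t120 - t125
  let t127 : ℝ := e ^ 2
  let t128 : ℝ := t127 * t67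
  let t129 : ℝ := a - e
  let t130 : ℝ := t16 ^ 2
  let t131 : ℝ := t126 * t130
  let t132 : ℝ := t131 - t75
  let t133 : ℝ := t129 * t132
  let t134 : ℝ := t128 - t133
  (0 < t78 ∧ (0 < t113 ∧ t134 < 0))

theorem rtj_mem {ε : Noise} {io q a bh K0 l2 e dj : ℝ} {io' q' a' bh' K0' l2' e' dj' : AF}
    (hio : Mem ε io io') (hq : Mem ε q q') (ha : Mem ε a a') (hbh : Mem ε bh bh') (hK0 : Mem ε K0 K0') (hl2 : Mem ε l2 l2') (he : Mem ε e e') (hdj : Mem ε dj dj')
    (h : rtj io' q' a' bh' K0' l2' e' dj' = true) : rtjR io q a bh K0 l2 e dj :=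
  have ht8 := mem_mul hq hio
  have ht9 := mem_mul ht8 hio
  have ht10 := mem_nat ε 1
  have ht11 := mem_add ht10 ht9
  have ht12 := mem_sub ht10 ht9
  have ht13 := mem_inv ht11
  have ht14 := mem_mul ht12 ht13
  have ht15 := mem_sq ht14
  have ht16 := mem_mul ht15 hio
  have ht17 := mem_sq ht12
  have ht18 := mem_inv ht17
  have ht19 := mem_nat ε 4
  have ht20 := mem_mul ht19 ht8
  have ht21 := mem_mul ht20 ht18
  have ht27 := mem_mul ht19 hq
  have ht28 := mem_sub ht17 ht27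
  have ht29 := mem_inv ht28
  have ht30 := mem_mul hio ht12
  have ht31 := mem_sub ht30 ht11
  have ht32 := mem_nat ε 2
  have ht33 := mem_sub ht32 ht30
  have ht34 := mem_mul ht27 ht33
  have ht35 := mem_mul ht34 ht29
  have ht36 := mem_mul ht20 ht31
  have ht37 := mem_mul ht36 ht29
  have ht38 := mem_add ht32 ht35
  have ht39 := mem_add ht38 ht37
  have ht42 := mem_mul ht32 ht11
  have ht43 := mem_mul ht32 ht8
  have ht44 := mem_sub ht12 ht43
  have ht45 := mem_add ht32 ht21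
  have ht46 := mem_mul ht45 ht31
  have ht47 := mem_add ht44 ht46
  have ht48 := mem_mul ht42 ht47
  have ht49 := mem_mul ht48 ht29
  have ht50 := mem_mul ht32 ht17
  have ht51 := mem_mul ht50 ht29
  have ht52 := mem_mul ht32 ht31
  have ht53 := mem_mul ht52 ht11
  have ht54 := mem_mul ht53 ht29
  have ht55 := mem_rat ε 2 3
  have ht56 := mem_mul ht55 hbh
  have ht57 := mem_nat ε 0
  have ht58 := mem_sub ht57 ht56
  have ht59 := mem_exp ht58
  have ht60 := mem_sq ht15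
  have ht61 := mem_add ht10 he
  have ht62 := mem_inv ht61
  have ht63 := mem_mul hK0 ht62
  have ht64 := mem_mul ht59 ht49
  have ht65 := mem_mul ht64 ht60
  have ht66 := mem_add ht63 ht65
  have ht67 := mem_sub ht66 hl2
  have ht68 := mem_mul ht54 hbh
  have ht69 := mem_sub ht51 ht68
  have ht70 := mem_mul ht49 he
  have ht71 := mem_add ht69 ht70
  have ht72 := mem_mul ht59 ht71
  have ht73 := mem_sub ht72 ht51
  have ht74 := mem_add ht73 ht10
  have ht75 := mem_mul ht60 ht74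
  have ht76 := mem_inv hio
  have ht77 := mem_mul ht32 ht76
  have ht78 := mem_sub ht77 hdj
  have ht79 := mem_exp hdj
  have ht80 := mem_mul ht9 ht79
  have ht81 := mem_sub ht10 ht80
  have ht82 := mem_sq ht81
  have ht83 := mem_sq ht78
  have ht84 := mem_mul ht83 ht80
  have ht85 := mem_sub ht82 ht84
  have ht86 := mem_inv ht85
  have ht87 := mem_sub ht78 ht81
  have ht88 := mem_mul ht83 ht87
  have ht89 := mem_mul ht88 ht86
  have ht90 := mem_mul ht32 ht81
  have ht91 := mem_add ht10 ht80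
  have ht92 := mem_mul ht78 ht91
  have ht93 := mem_sub ht90 ht92
  have ht94 := mem_mul ht78 ht93
  have ht95 := mem_mul ht94 ht86
  have ht96 := mem_mul ht76 ht39
  have ht97 := mem_sub ht57 ht96
  have ht98 := mem_add ht89 ht95
  have ht99 := mem_mul ht80 ht98
  have ht100 := mem_add ht97 ht99
  have ht101 := mem_rat ε 1 2
  have ht102 := mem_mul ht100 ht101
  have ht103 := mem_mul ht95 ht102
  have ht104 := mem_sub ht89 ht103
  have ht105 := mem_mul ht104 ht61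
  have ht106 := mem_mul ht76 ht14
  have ht107 := mem_sub ht106 hbh
  have ht108 := mem_add ht76 ht21
  have ht109 := mem_add ht108 ht32
  have ht110 := mem_mul ht109 he
  have ht111 := mem_add ht107 ht110
  have ht112 := mem_mul ht95 ht111
  have ht113 := mem_add ht105 ht112
  have ht114 := mem_mul ht59 ht11
  have ht115 := mem_mul ht114 ht101
  have ht116 := mem_sub hdj ht76
  have ht117 := mem_sub ht116 ht102
  have ht118 := mem_exp ht117
  have ht119 := mem_mul ht115 ht118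
  have ht120 := mem_mul ht119 ht113
  have ht121 := mem_mul ht80 ht89
  have ht122 := mem_sq ht102
  have ht123 := mem_sub ht121 ht122
  have ht124 := mem_mul ht97 ht102
  have ht125 := mem_add ht123 ht124
  have ht126 := mem_sub ht120 ht125
  have ht127 := mem_sq he
  have ht128 := mem_mul ht127 ht67
  have ht129 := mem_sub ha he
  have ht130 := mem_sq ht16
  have ht131 := mem_mul ht126 ht130
  have ht132 := mem_sub ht131 ht75
  have ht133 := mem_mul ht129 ht132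
  have ht134 := mem_sub ht128 ht133
  (and_imp' (lt_of_pos ht78) (and_imp' (lt_of_pos ht113) (lt_of_neg ht134))) h

def ct0 (io q u bh K0 em V r : AF) : Bool :=
  let t8 := AF.mul q io
  let t9 := AF.mul t8 io
  let t10 := AF.nat 1
  let t11 := AF.add t10 t9
  let t12 := AF.sub t10 t9
  let t13 := AF.inv t11
  let t14 := AF.mul t12 t13
  let t15 := AF.sq t14
  let t17 := AF.sq t12
  let t18 := AF.inv t17
  let t19 := AF.nat 4
  let t20 := AF.mul t19 t8
  let t21 := AF.mul t20 t18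
  let t27 := AF.mul t19 q
  let t28 := AF.sub t17 t27
  let t29 := AF.inv t28
  let t30 := AF.mul io t12
  let t31 := AF.sub t30 t11
  let t32 := AF.nat 2
  let t33 := AF.sub t32 t30
  let t34 := AF.mul t27 t33
  let t35 := AF.mul t34 t29
  let t36 := AF.mul t20 t31
  let t37 := AF.mul t36 t29
  let t38 := AF.add t32 t35
  let t39 := AF.add t38 t37
  let t40 := AF.mul t15 t39
  let t41 := AF.add t32 t40
  let t43 := AF.mul t32 t8
  let t55 := AF.add t21 t10
  let t56 := AF.add t55 r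
  let t57 := AF.rat 2 3
  let t58 := AF.mul t57 bh
  let t59 := AF.mul t43 t13
  let t60 := AF.add t59 bh
  let t61 := AF.sub t60 r
  let t62 := AF.add t61 t10
  let t63 := AF.sub t58 r
  let t64 := AF.exp t63
  let t65 := AF.mul t32 t64
  let t66 := AF.mul t65 t13
  let t67 := AF.sub t62 t66
  let t68 := AF.mul em t56
  let t69 := AF.add t67 t68
  let t70 := AF.add t21 t58
  let t71 := AF.exp t70
  let t72 := AF.rat 206 100
  let t73 := AF.mul t72 t71
  let t74 := AF.mul t73 t13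
  let t75 := AF.sub V t74
  let t76 := AF.add t10 u
  let t77 := AF.sub t76 K0
  let t78 := AF.sub t10 em
  and (AF.pos t56) (and (AF.pos t69) (and (AF.pos t75) (and (AF.pos t41) (and (AF.pos t77) (and (AF.pos em) (AF.pos t78))))))

def ct0R (io q u bh K0 em V r : ℝ) : Prop :=
  let t8 : ℝ := q * io
  let t9 : ℝ := t8 * io
  let t10 : ℝ := ((1 : ℕ) : ℝ)
  let t11 : ℝ := t10 + t9
  let t12 : ℝ := t10 - t9
  let t13 : ℝ := t11⁻¹
  let t14 : ℝ := t12 * t13
  let t15 : ℝ := t14 ^ 2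
  let t17 : ℝ := t12 ^ 2
  let t18 : ℝ := t17⁻¹
  let t19 : ℝ := ((4 : ℕ) : ℝ)
  let t20 : ℝ := t19 * t8
  let t21 : ℝ := t20 * t18
  let t27 : ℝ := t19 * q
  let t28 : ℝ := t17 - t27
  let t29 : ℝ := t28⁻¹
  let t30 : ℝ := io * t12
  let t31 : ℝ := t30 - t11
  let t32 : ℝ := ((2 : ℕ) : ℝ)
  let t33 : ℝ := t32 - t30
  let t34 : ℝ := t27 * t33
  let t35 : ℝ := t34 * t29
  let t36 : ℝ := t20 * t31
  let t37 : ℝ := t36 * t29
  let t38 : ℝ := t32 + t35
  let t39 : ℝ := t38 + t37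
  let t40 : ℝ := t15 * t39
  let t41 : ℝ := t32 + t40
  let t43 : ℝ := t32 * t8
  let t55 : ℝ := t21 + t10
  let t56 : ℝ := t55 + r
  let t57 : ℝ := ((2 : ℕ) : ℝ) / ((3 : ℕ) : ℝ)
  let t58 : ℝ := t57 * bh
  let t59 : ℝ := t43 * t13
  let t60 : ℝ := t59 + bh
  let t61 : ℝ := t60 - r
  let t62 : ℝ := t61 + t10
  let t63 : ℝ := t58 - r
  let t64 : ℝ := Real.exp t63
  let t65 : ℝ := t32 * t64
  let t66 : ℝ := t65 * t13
  let t67 : ℝ := t62 - t66
  let t68 : ℝ := em * t56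
  let t69 : ℝ := t67 + t68
  let t70 : ℝ := t21 + t58
  let t71 : ℝ := Real.exp t70
  let t72 : ℝ := ((206 : ℕ) : ℝ) / ((100 : ℕ) : ℝ)
  let t73 : ℝ := t72 * t71
  let t74 : ℝ := t73 * t13
  let t75 : ℝ := V - t74
  let t76 : ℝ := t10 + u
  let t77 : ℝ := t76 - K0
  let t78 : ℝ := t10 - em
  (0 < t56 ∧ (0 < t69 ∧ (0 < t75 ∧ (0 < t41 ∧ (0 < t77 ∧ (0 < em ∧ 0 < t78))))))

theorem ct0_mem {ε : Noise} {io q u bh K0 em V r : ℝ} {io' q' u' bh' K0' em' V' r' : AF}
    (hio : Mem ε io io') (hq : Mem ε q q') (hu : Mem ε u u') (hbh : Mem ε bh bh') (hK0 : Mem ε K0 K0') (hem : Mem ε em em') (hV : Mem ε V V') (hr : Mem ε r r')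
    (h : ct0 io' q' u' bh' K0' em' V' r' = true) : ct0R io q u bh K0 em V r :=
  have ht8 := mem_mul hq hio
  have ht9 := mem_mul ht8 hio
  have ht10 := mem_nat ε 1
  have ht11 := mem_add ht10 ht9
  have ht12 := mem_sub ht10 ht9
  have ht13 := mem_inv ht11
  have ht14 := mem_mul ht12 ht13
  have ht15 := mem_sq ht14
  have ht17 := mem_sq ht12
  have ht18 := mem_inv ht17
  have ht19 := mem_nat ε 4
  have ht20 := mem_mul ht19 ht8
  have ht21 := mem_mul ht20 ht18
  have ht27 := mem_mul ht19 hq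
  have ht28 := mem_sub ht17 ht27
  have ht29 := mem_inv ht28
  have ht30 := mem_mul hio ht12
  have ht31 := mem_sub ht30 ht11
  have ht32 := mem_nat ε 2
  have ht33 := mem_sub ht32 ht30
  have ht34 := mem_mul ht27 ht33
  have ht35 := mem_mul ht34 ht29
  have ht36 := mem_mul ht20 ht31
  have ht37 := mem_mul ht36 ht29
  have ht38 := mem_add ht32 ht35
  have ht39 := mem_add ht38 ht37
  have ht40 := mem_mul ht15 ht39
  have ht41 := mem_add ht32 ht40
  have ht43 := mem_mul ht32 ht8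
  have ht55 := mem_add ht21 ht10
  have ht56 := mem_add ht55 hr
  have ht57 := mem_rat ε 2 3
  have ht58 := mem_mul ht57 hbh
  have ht59 := mem_mul ht43 ht13
  have ht60 := mem_add ht59 hbh
  have ht61 := mem_sub ht60 hr
  have ht62 := mem_add ht61 ht10
  have ht63 := mem_sub ht58 hr
  have ht64 := mem_exp ht63
  have ht65 := mem_mul ht32 ht64
  have ht66 := mem_mul ht65 ht13
  have ht67 := mem_sub ht62 ht66
  have ht68 := mem_mul hem ht56
  have ht69 := mem_add ht67 ht68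
  have ht70 := mem_add ht21 ht58
  have ht71 := mem_exp ht70
  have ht72 := mem_rat ε 206 100
  have ht73 := mem_mul ht72 ht71
  have ht74 := mem_mul ht73 ht13
  have ht75 := mem_sub hV ht74
  have ht76 := mem_add ht10 hu
  have ht77 := mem_sub ht76 hK0
  have ht78 := mem_sub ht10 hem
  (and_imp' (lt_of_pos ht56) (and_imp' (lt_of_pos ht69) (and_imp' (lt_of_pos ht75) (and_imp' (lt_of_pos ht41) (and_imp' (lt_of_pos ht77) (and_imp' (lt_of_pos hem) (lt_of_pos ht78))))))) h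

def cs0 (io q u bh : AF) : Bool :=
  let t4 := AF.mul q io
  let t5 := AF.mul t4 io
  let t6 := AF.nat 1
  let t7 := AF.add t6 t5
  let t8 := AF.sub t6 t5
  let t9 := AF.inv t7
  let t10 := AF.mul t8 t9
  let t11 := AF.sq t10
  let t12 := AF.mul t11 io
  let t13 := AF.sq t8
  let t15 := AF.nat 4
  let t23 := AF.mul t15 q
  let t24 := AF.sub t13 t23
  let t25 := AF.inv t24
  let t26 := AF.mul io t8
  let t27 := AF.sub t26 t7
  let t28 := AF.nat 2
  let t46 := AF.mul t28 t13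
  let t47 := AF.mul t46 t25
  let t48 := AF.mul t28 t27
  let t49 := AF.mul t48 t7
  let t50 := AF.mul t49 t25
  let t51 := AF.rat 4 3
  let t52 := AF.mul t51 u
  let t53 := AF.sq io
  let t54 := AF.mul t52 t53
  let t55 := AF.inv t12
  let t56 := AF.mul t54 t55
  let t57 := AF.rat 2 3
  let t58 := AF.mul t57 bh
  let t59 := AF.sub t6 t58
  let t60 := AF.mul t50 t59
  let t61 := AF.sub t56 t60
  let t62 := AF.mul t57 t47
  let t63 := AF.sub t61 t62
  AF.pos t63

def cs0R (io q u bh : ℝ) : Prop :=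
  let t4 : ℝ := q * io
  let t5 : ℝ := t4 * io
  let t6 : ℝ := ((1 : ℕ) : ℝ)
  let t7 : ℝ := t6 + t5
  let t8 : ℝ := t6 - t5
  let t9 : ℝ := t7⁻¹
  let t10 : ℝ := t8 * t9
  let t11 : ℝ := t10 ^ 2
  let t12 : ℝ := t11 * io
  let t13 : ℝ := t8 ^ 2
  let t15 : ℝ := ((4 : ℕ) : ℝ)
  let t23 : ℝ := t15 * q
  let t24 : ℝ := t13 - t23
  let t25 : ℝ := t24⁻¹
  let t26 : ℝ := io * t8
  let t27 : ℝ := t26 - t7
  let t28 : ℝ := ((2 : ℕ) : ℝ)
  let t46 : ℝ := t28 * t13
  let t47 : ℝ := t46 * t25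
  let t48 : ℝ := t28 * t27
  let t49 : ℝ := t48 * t7
  let t50 : ℝ := t49 * t25
  let t51 : ℝ := ((4 : ℕ) : ℝ) / ((3 : ℕ) : ℝ)
  let t52 : ℝ := t51 * u
  let t53 : ℝ := io ^ 2
  let t54 : ℝ := t52 * t53
  let t55 : ℝ := t12⁻¹
  let t56 : ℝ := t54 * t55
  let t57 : ℝ := ((2 : ℕ) : ℝ) / ((3 : ℕ) : ℝ)
  let t58 : ℝ := t57 * bh
  let t59 : ℝ := t6 - t58
  let t60 : ℝ := t50 * t59
  let t61 : ℝ := t56 - t60
  let t62 : ℝ := t57 * t47
  let t63 : ℝ := t61 - t62
  0 < t63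

theorem cs0_mem {ε : Noise} {io q u bh : ℝ} {io' q' u' bh' : AF}
    (hio : Mem ε io io') (hq : Mem ε q q') (hu : Mem ε u u') (hbh : Mem ε bh bh')
    (h : cs0 io' q' u' bh' = true) : cs0R io q u bh :=
  have ht4 := mem_mul hq hio
  have ht5 := mem_mul ht4 hio
  have ht6 := mem_nat ε 1
  have ht7 := mem_add ht6 ht5
  have ht8 := mem_sub ht6 ht5
  have ht9 := mem_inv ht7
  have ht10 := mem_mul ht8 ht9
  have ht11 := mem_sq ht10
  have ht12 := mem_mul ht11 hio
  have ht13 := mem_sq ht8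
  have ht15 := mem_nat ε 4
  have ht23 := mem_mul ht15 hq
  have ht24 := mem_sub ht13 ht23
  have ht25 := mem_inv ht24
  have ht26 := mem_mul hio ht8
  have ht27 := mem_sub ht26 ht7
  have ht28 := mem_nat ε 2
  have ht46 := mem_mul ht28 ht13
  have ht47 := mem_mul ht46 ht25
  have ht48 := mem_mul ht28 ht27
  have ht49 := mem_mul ht48 ht7
  have ht50 := mem_mul ht49 ht25
  have ht51 := mem_rat ε 4 3
  have ht52 := mem_mul ht51 hu
  have ht53 := mem_sq hio
  have ht54 := mem_mul ht52 ht53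
  have ht55 := mem_inv ht12
  have ht56 := mem_mul ht54 ht55
  have ht57 := mem_rat ε 2 3
  have ht58 := mem_mul ht57 hbh
  have ht59 := mem_sub ht6 ht58
  have ht60 := mem_mul ht50 ht59
  have ht61 := mem_sub ht56 ht60
  have ht62 := mem_mul ht57 ht47
  have ht63 := mem_sub ht61 ht62
  (lt_of_pos ht63) h

def bx0 (a em V X xn emn ah : AF) : Bool :=
  let t7 := AF.sq X
  let t8 := AF.nat 1
  let t9 := AF.sub V t8
  let t10 := AF.sub t7 t9
  let t11 := AF.add xn X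
  let t12 := AF.add emn em
  let t13 := AF.sub ah a
  let t14 := AF.rat 1 1000
  let t15 := AF.sub t13 t14
  and (AF.pos X) (and (AF.pos t10) (and (AF.neg t11) (and (AF.neg t12) (AF.pos t15))))

def bx0R (a em V X xn emn ah : ℝ) : Prop :=
  let t7 : ℝ := X ^ 2
  let t8 : ℝ := ((1 : ℕ) : ℝ)
  let t9 : ℝ := V - t8
  let t10 : ℝ := t7 - t9
  let t11 : ℝ := xn + X
  let t12 : ℝ := emn + em
  let t13 : ℝ := ah - a
  let t14 : ℝ := ((1 : ℕ) : ℝ) / ((1000 : ℕ) : ℝ)
  let t15 : ℝ := t13 - t14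
  (0 < X ∧ (0 < t10 ∧ (t11 < 0 ∧ (t12 < 0 ∧ 0 < t15))))

theorem bx0_mem {ε : Noise} {a em V X xn emn ah : ℝ} {a' em' V' X' xn' emn' ah' : AF}
    (ha : Mem ε a a') (hem : Mem ε em em') (hV : Mem ε V V') (hX : Mem ε X X') (hxn : Mem ε xn xn') (hemn : Mem ε emn emn') (hah : Mem ε ah ah')
    (h : bx0 a' em' V' X' xn' emn' ah' = true) : bx0R a em V X xn emn ah :=
  have ht7 := mem_sq hX
  have ht8 := mem_nat ε 1
  have ht9 := mem_sub hV ht8
  have ht10 := mem_sub ht7 ht9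
  have ht11 := mem_add hxn hX
  have ht12 := mem_add hemn hem
  have ht13 := mem_sub hah ha
  have ht14 := mem_rat ε 1 1000
  have ht15 := mem_sub ht13 ht14
  (and_imp' (lt_of_pos hX) (and_imp' (lt_of_pos ht10) (and_imp' (lt_of_neg ht11) (and_imp' (lt_of_neg ht12) (lt_of_pos ht15))))) h

def af1 (p0 p1 t : AF) : AF :=
  let t3 := AF.mul p1 t
  let t4 := AF.add p0 t3
  t4

def af1R (p0 p1 t : ℝ) : ℝ :=
  let t3 : ℝ := p1 * t
  let t4 : ℝ := p0 + t3
  t4

theorem af1_mem {ε : Noise} {p0 p1 t : ℝ} {p0' p1' t' : AF}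
    (hp0 : Mem ε p0 p0') (hp1 : Mem ε p1 p1') (ht : Mem ε t t')
    : Mem ε (af1R p0 p1 t) (af1 p0' p1' t') :=
  have ht3 := mem_mul hp1 ht
  have ht4 := mem_add hp0 ht3
  ht4

def mdA (b u : AF) : AF :=
  let t2 := AF.sq u
  let t3 := AF.mul t2 u
  let t4 := AF.nat 1
  let t5 := AF.sub t4 t3
  let t6 := AF.mul b t5
  let t7 := AF.rat 1 2
  let t8 := AF.mul t6 t7
  t8

def mdAR (b u : ℝ) : ℝ :=
  let t2 : ℝ := u ^ 2
  let t3 : ℝ := t2 * u
  let t4 : ℝ := ((1 : ℕ) : ℝ)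
  let t5 : ℝ := t4 - t3
  let t6 : ℝ := b * t5
  let t7 : ℝ := ((1 : ℕ) : ℝ) / ((2 : ℕ) : ℝ)
  let t8 : ℝ := t6 * t7
  t8

theorem mdA_mem {ε : Noise} {b u : ℝ} {b' u' : AF}
    (hb : Mem ε b b') (hu : Mem ε u u')
    : Mem ε (mdAR b u) (mdA b' u') :=
  have ht2 := mem_sq hu
  have ht3 := mem_mul ht2 hu
  have ht4 := mem_nat ε 1
  have ht5 := mem_sub ht4 ht3
  have ht6 := mem_mul hb ht5
  have ht7 := mem_rat ε 1 2
  have ht8 := mem_mul ht6 ht7
  ht8

def mdL (b C : AF) : AF :=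
  let t2 := AF.inv b
  let t3 := AF.mul C t2
  let t4 := AF.nat 2
  let t5 := AF.sub t4 t3
  t5

def mdLR (b C : ℝ) : ℝ :=
  let t2 : ℝ := b⁻¹
  let t3 : ℝ := C * t2
  let t4 : ℝ := ((2 : ℕ) : ℝ)
  let t5 : ℝ := t4 - t3
  t5

theorem mdL_mem {ε : Noise} {b C : ℝ} {b' C' : AF}
    (hb : Mem ε b b') (hC : Mem ε C C')
    : Mem ε (mdLR b C) (mdL b' C') :=
  have ht2 := mem_inv hb
  have ht3 := mem_mul hC ht2
  have ht4 := mem_nat ε 2
  have ht5 := mem_sub ht4 ht3
  ht5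

def rm1 (b u C s K0 m0 l1 l2 e D : AF) : Bool :=
  let t10 := AF.exp D
  let t11 := AF.nat 1
  let t12 := AF.sub t10 t11
  let t13 := AF.sq t12
  let t14 := AF.sq D
  let t15 := AF.mul t14 t10
  let t16 := AF.sub t13 t15
  let t17 := AF.inv t16
  let t18 := AF.mul D t10
  let t19 := AF.sub t18 t10
  let t20 := AF.add t19 t11
  let t21 := AF.mul t14 t20
  let t22 := AF.mul t21 t17
  let t23 := AF.nat 2
  let t24 := AF.mul t23 t12
  let t25 := AF.add t10 t11
  let t26 := AF.mul D t25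
  let t27 := AF.sub t24 t26
  let t28 := AF.mul D t27
  let t29 := AF.mul t28 t17
  let t30 := AF.add C t22
  let t31 := AF.add t30 t29
  let t32 := AF.rat 1 2
  let t33 := AF.mul t31 t32
  let t34 := AF.sq u
  let t35 := AF.mul t34 u
  let t36 := AF.mul b t35
  let t37 := AF.sub b t36
  let t38 := AF.mul t37 t32
  let t39 := AF.mul t29 t33
  let t40 := AF.sub t22 t39
  let t41 := AF.add t11 e
  let t42 := AF.mul t40 t41
  let t43 := AF.add b t23
  let t44 := AF.mul t43 e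
  let t45 := AF.add t36 t44
  let t46 := AF.mul t29 t45
  let t47 := AF.add t42 t46
  let t48 := AF.rat 2 3
  let t49 := AF.mul t48 t36
  let t50 := AF.exp t49
  let t51 := AF.nat 0
  let t52 := AF.sub t51 t33
  let t53 := AF.exp t52
  let t54 := AF.mul t50 t53
  let t55 := AF.mul t54 t47
  let t56 := AF.sq t33
  let t57 := AF.sub t22 t56
  let t58 := AF.mul C t33
  let t59 := AF.add t57 t58
  let t60 := AF.sub t55 t59
  let t61 := AF.sq e
  let t62 := AF.sq s
  let t63 := AF.mul K0 t62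
  let t64 := AF.inv t41
  let t65 := AF.mul t63 t64
  let t66 := AF.sub t65 l2
  let t67 := AF.mul t61 t66
  let t68 := AF.sub t38 e
  let t69 := AF.mul t68 t60
  let t70 := AF.inv b
  let t71 := AF.sq t70
  let t72 := AF.mul t69 t71
  let t73 := AF.sub t67 t72
  let t74 := AF.sq t34
  let t75 := AF.mul t38 t74
  let t76 := AF.add t73 t75
  let t77 := AF.add t76 m0
  let t78 := AF.mul l1 e
  let t79 := AF.sub t77 t78
  and (AF.pos t47) (AF.neg t79)

def rm1R (b u C s K0 m0 l1 l2 e D : ℝ) : Prop :=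
  let t10 : ℝ := Real.exp D
  let t11 : ℝ := ((1 : ℕ) : ℝ)
  let t12 : ℝ := t10 - t11
  let t13 : ℝ := t12 ^ 2
  let t14 : ℝ := D ^ 2
  let t15 : ℝ := t14 * t10
  let t16 : ℝ := t13 - t15
  let t17 : ℝ := t16⁻¹
  let t18 : ℝ := D * t10
  let t19 : ℝ := t18 - t10
  let t20 : ℝ := t19 + t11
  let t21 : ℝ := t14 * t20
  let t22 : ℝ := t21 * t17
  let t23 : ℝ := ((2 : ℕ) : ℝ)
  let t24 : ℝ := t23 * t12
  let t25 : ℝ := t10 + t11
  let t26 : ℝ := D * t25
  let t27 : ℝ := t24 - t26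
  let t28 : ℝ := D * t27
  let t29 : ℝ := t28 * t17
  let t30 : ℝ := C + t22
  let t31 : ℝ := t30 + t29
  let t32 : ℝ := ((1 : ℕ) : ℝ) / ((2 : ℕ) : ℝ)
  let t33 : ℝ := t31 * t32
  let t34 : ℝ := u ^ 2
  let t35 : ℝ := t34 * u
  let t36 : ℝ := b * t35
  let t37 : ℝ := b - t36
  let t38 : ℝ := t37 * t32
  let t39 : ℝ := t29 * t33
  let t40 : ℝ := t22 - t39
  let t41 : ℝ := t11 + e
  let t42 : ℝ := t40 * t41
  let t43 : ℝ := b + t23
  let t44 : ℝ := t43 * e
  let t45 : ℝ := t36 + t44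
  let t46 : ℝ := t29 * t45
  let t47 : ℝ := t42 + t46
  let t48 : ℝ := ((2 : ℕ) : ℝ) / ((3 : ℕ) : ℝ)
  let t49 : ℝ := t48 * t36
  let t50 : ℝ := Real.exp t49
  let t51 : ℝ := ((0 : ℕ) : ℝ)
  let t52 : ℝ := t51 - t33
  let t53 : ℝ := Real.exp t52
  let t54 : ℝ := t50 * t53
  let t55 : ℝ := t54 * t47
  let t56 : ℝ := t33 ^ 2
  let t57 : ℝ := t22 - t56
  let t58 : ℝ := C * t33
  let t59 : ℝ := t57 + t58
  let t60 : ℝ := t55 - t59
  let t61 : ℝ := e ^ 2
  let t62 : ℝ := s ^ 2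
  let t63 : ℝ := K0 * t62
  let t64 : ℝ := t41⁻¹
  let t65 : ℝ := t63 * t64
  let t66 : ℝ := t65 - l2
  let t67 : ℝ := t61 * t66
  let t68 : ℝ := t38 - e
  let t69 : ℝ := t68 * t60
  let t70 : ℝ := b⁻¹
  let t71 : ℝ := t70 ^ 2
  let t72 : ℝ := t69 * t71
  let t73 : ℝ := t67 - t72
  let t74 : ℝ := t34 ^ 2
  let t75 : ℝ := t38 * t74
  let t76 : ℝ := t73 + t75
  let t77 : ℝ := t76 + m0
  let t78 : ℝ := l1 * e
  let t79 : ℝ := t77 - t78
  (0 < t47 ∧ t79 < 0)

theorem rm1_mem {ε : Noise} {b u C s K0 m0 l1 l2 e D : ℝ} {b' u' C' s' K0' m0' l1' l2' e' D' : AF}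
    (hb : Mem ε b b') (hu : Mem ε u u') (hC : Mem ε C C') (hs : Mem ε s s') (hK0 : Mem ε K0 K0') (hm0 : Mem ε m0 m0') (hl1 : Mem ε l1 l1') (hl2 : Mem ε l2 l2') (he : Mem ε e e') (hD : Mem ε D D')
    (h : rm1 b' u' C' s' K0' m0' l1' l2' e' D' = true) : rm1R b u C s K0 m0 l1 l2 e D :=
  have ht10 := mem_exp hD
  have ht11 := mem_nat ε 1
  have ht12 := mem_sub ht10 ht11
  have ht13 := mem_sq ht12
  have ht14 := mem_sq hD
  have ht15 := mem_mul ht14 ht10
  have ht16 := mem_sub ht13 ht15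
  have ht17 := mem_inv ht16
  have ht18 := mem_mul hD ht10
  have ht19 := mem_sub ht18 ht10
  have ht20 := mem_add ht19 ht11
  have ht21 := mem_mul ht14 ht20
  have ht22 := mem_mul ht21 ht17
  have ht23 := mem_nat ε 2
  have ht24 := mem_mul ht23 ht12
  have ht25 := mem_add ht10 ht11
  have ht26 := mem_mul hD ht25
  have ht27 := mem_sub ht24 ht26
  have ht28 := mem_mul hD ht27
  have ht29 := mem_mul ht28 ht17
  have ht30 := mem_add hC ht22
  have ht31 := mem_add ht30 ht29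
  have ht32 := mem_rat ε 1 2
  have ht33 := mem_mul ht31 ht32
  have ht34 := mem_sq hu
  have ht35 := mem_mul ht34 hu
  have ht36 := mem_mul hb ht35
  have ht37 := mem_sub hb ht36
  have ht38 := mem_mul ht37 ht32
  have ht39 := mem_mul ht29 ht33
  have ht40 := mem_sub ht22 ht39
  have ht41 := mem_add ht11 he
  have ht42 := mem_mul ht40 ht41
  have ht43 := mem_add hb ht23
  have ht44 := mem_mul ht43 he
  have ht45 := mem_add ht36 ht44
  have ht46 := mem_mul ht29 ht45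
  have ht47 := mem_add ht42 ht46
  have ht48 := mem_rat ε 2 3
  have ht49 := mem_mul ht48 ht36
  have ht50 := mem_exp ht49
  have ht51 := mem_nat ε 0
  have ht52 := mem_sub ht51 ht33
  have ht53 := mem_exp ht52
  have ht54 := mem_mul ht50 ht53
  have ht55 := mem_mul ht54 ht47
  have ht56 := mem_sq ht33
  have ht57 := mem_sub ht22 ht56
  have ht58 := mem_mul hC ht33
  have ht59 := mem_add ht57 ht58
  have ht60 := mem_sub ht55 ht59
  have ht61 := mem_sq he
  have ht62 := mem_sq hs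
  have ht63 := mem_mul hK0 ht62
  have ht64 := mem_inv ht41
  have ht65 := mem_mul ht63 ht64
  have ht66 := mem_sub ht65 hl2
  have ht67 := mem_mul ht61 ht66
  have ht68 := mem_sub ht38 he
  have ht69 := mem_mul ht68 ht60
  have ht70 := mem_inv hb
  have ht71 := mem_sq ht70
  have ht72 := mem_mul ht69 ht71
  have ht73 := mem_sub ht67 ht72
  have ht74 := mem_sq ht34
  have ht75 := mem_mul ht38 ht74
  have ht76 := mem_add ht73 ht75
  have ht77 := mem_add ht76 hm0
  have ht78 := mem_mul hl1 he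
  have ht79 := mem_sub ht77 ht78
  (and_imp' (lt_of_pos ht47) (lt_of_neg ht79)) h

def rm0 (b u e : AF) : Bool :=
  let t3 := AF.sq u
  let t4 := AF.mul t3 u
  let t5 := AF.nat 1
  let t6 := AF.sub t5 t4
  let t7 := AF.mul b t6
  let t8 := AF.rat 1 2
  let t9 := AF.mul t7 t8
  let t10 := AF.sub t9 e
  AF.neg t10

def rm0R (b u e : ℝ) : Prop :=
  let t3 : ℝ := u ^ 2
  let t4 : ℝ := t3 * u
  let t5 : ℝ := ((1 : ℕ) : ℝ)
  let t6 : ℝ := t5 - t4
  let t7 : ℝ := b * t6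
  let t8 : ℝ := ((1 : ℕ) : ℝ) / ((2 : ℕ) : ℝ)
  let t9 : ℝ := t7 * t8
  let t10 : ℝ := t9 - e
  t10 < 0

theorem rm0_mem {ε : Noise} {b u e : ℝ} {b' u' e' : AF}
    (hb : Mem ε b b') (hu : Mem ε u u') (he : Mem ε e e')
    (h : rm0 b' u' e' = true) : rm0R b u e :=
  have ht3 := mem_sq hu
  have ht4 := mem_mul ht3 hu
  have ht5 := mem_nat ε 1
  have ht6 := mem_sub ht5 ht4
  have ht7 := mem_mul hb ht6
  have ht8 := mem_rat ε 1 2
  have ht9 := mem_mul ht7 ht8
  have ht10 := mem_sub ht9 he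
  (lt_of_neg ht10) h

def cm0 (b u C K0 em m0 V y0 r ka : AF) : Bool :=
  let t10 := AF.sq u
  let t11 := AF.mul t10 u
  let t12 := AF.mul b t11
  let t13 := AF.rat 2 3
  let t14 := AF.mul t13 t12
  let t15 := AF.nat 1
  let t16 := AF.add b t15
  let t17 := AF.sub t16 y0
  let t18 := AF.add y0 t15
  let t19 := AF.sub t18 t12
  let t20 := AF.sub y0 t14
  let t21 := AF.exp t20
  let t22 := AF.sub t19 t21
  let t23 := AF.mul em t17
  let t24 := AF.add t22 t23
  let t25 := AF.nat 0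
  let t26 := AF.sub t25 r
  let t27 := AF.exp t26
  let t28 := AF.sub b t14
  let t29 := AF.exp t28
  let t30 := AF.mul r t27
  let t31 := AF.mul t29 t28
  let t32 := AF.add t31 t30
  let t33 := AF.sub t15 r
  let t34 := AF.sub t29 t27
  let t35 := AF.mul t33 t34
  let t36 := AF.sub t32 t35
  let t37 := AF.sq t34
  let t38 := AF.mul ka t37
  let t39 := AF.sub t36 t38
  let t40 := AF.nat 2
  let t41 := AF.mul t40 t27
  let t42 := AF.sub V t41
  let t43 := AF.sq t27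
  let t44 := AF.add t42 t43
  let t45 := AF.mul ka t44
  let t46 := AF.rat 1 3
  let t47 := AF.mul t46 t12
  let t48 := AF.add t47 t30
  let t49 := AF.sub t15 t27
  let t50 := AF.mul t33 t49
  let t51 := AF.sub t48 t50
  let t52 := AF.sub t45 t51
  let t53 := AF.mul t40 ka
  let t54 := AF.mul t53 t27
  let t55 := AF.sub t15 t54
  let t56 := AF.inv b
  let t57 := AF.mul C t56
  let t58 := AF.sub t40 t57
  let t59 := AF.add t15 u
  let t60 := AF.sub t59 K0
  let t61 := AF.sub t15 em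
  and (AF.pos t17) (and (AF.pos t24) (and (AF.pos r) (and (AF.pos ka) (and (AF.pos t55) (and (AF.pos t39) (and (AF.pos t52) (and (AF.pos t58) (and (AF.pos t60) (and (AF.pos em) (and (AF.pos t61) (AF.pos m0)))))))))))

def cm0R (b u C K0 em m0 V y0 r ka : ℝ) : Prop :=
  let t10 : ℝ := u ^ 2
  let t11 : ℝ := t10 * u
  let t12 : ℝ := b * t11
  let t13 : ℝ := ((2 : ℕ) : ℝ) / ((3 : ℕ) : ℝ)
  let t14 : ℝ := t13 * t12
  let t15 : ℝ := ((1 : ℕ) : ℝ)
  let t16 : ℝ := b + t15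
  let t17 : ℝ := t16 - y0
  let t18 : ℝ := y0 + t15
  let t19 : ℝ := t18 - t12
  let t20 : ℝ := y0 - t14
  let t21 : ℝ := Real.exp t20
  let t22 : ℝ := t19 - t21
  let t23 : ℝ := em * t17
  let t24 : ℝ := t22 + t23
  let t25 : ℝ := ((0 : ℕ) : ℝ)
  let t26 : ℝ := t25 - r
  let t27 : ℝ := Real.exp t26
  let t28 : ℝ := b - t14
  let t29 : ℝ := Real.exp t28
  let t30 : ℝ := r * t27
  let t31 : ℝ := t29 * t28
  let t32 : ℝ := t31 + t30
  let t33 : ℝ := t15 - r
  let t34 : ℝ := t29 - t27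
  let t35 : ℝ := t33 * t34
  let t36 : ℝ := t32 - t35
  let t37 : ℝ := t34 ^ 2
  let t38 : ℝ := ka * t37
  let t39 : ℝ := t36 - t38
  let t40 : ℝ := ((2 : ℕ) : ℝ)
  let t41 : ℝ := t40 * t27
  let t42 : ℝ := V - t41
  let t43 : ℝ := t27 ^ 2
  let t44 : ℝ := t42 + t43
  let t45 : ℝ := ka * t44
  let t46 : ℝ := ((1 : ℕ) : ℝ) / ((3 : ℕ) : ℝ)
  let t47 : ℝ := t46 * t12
  let t48 : ℝ := t47 + t30
  let t49 : ℝ := t15 - t27
  let t50 : ℝ := t33 * t49
  let t51 : ℝ := t48 - t50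
  let t52 : ℝ := t45 - t51
  let t53 : ℝ := t40 * ka
  let t54 : ℝ := t53 * t27
  let t55 : ℝ := t15 - t54
  let t56 : ℝ := b⁻¹
  let t57 : ℝ := C * t56
  let t58 : ℝ := t40 - t57
  let t59 : ℝ := t15 + u
  let t60 : ℝ := t59 - K0
  let t61 : ℝ := t15 - em
  (0 < t17 ∧ (0 < t24 ∧ (0 < r ∧ (0 < ka ∧ (0 < t55 ∧ (0 < t39 ∧ (0 < t52 ∧ (0 < t58 ∧ (0 < t60 ∧ (0 < em ∧ (0 < t61 ∧ 0 < m0)))))))))))

theorem cm0_mem {ε : Noise} {b u C K0 em m0 V y0 r ka : ℝ} {b' u' C' K0' em' m0' V' y0' r' ka' : AF}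
    (hb : Mem ε b b') (hu : Mem ε u u') (hC : Mem ε C C') (hK0 : Mem ε K0 K0') (hem : Mem ε em em') (hm0 : Mem ε m0 m0') (hV : Mem ε V V') (hy0 : Mem ε y0 y0') (hr : Mem ε r r') (hka : Mem ε ka ka')
    (h : cm0 b' u' C' K0' em' m0' V' y0' r' ka' = true) : cm0R b u C K0 em m0 V y0 r ka :=
  have ht10 := mem_sq hu
  have ht11 := mem_mul ht10 hu
  have ht12 := mem_mul hb ht11
  have ht13 := mem_rat ε 2 3
  have ht14 := mem_mul ht13 ht12
  have ht15 := mem_nat ε 1
  have ht16 := mem_add hb ht15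
  have ht17 := mem_sub ht16 hy0
  have ht18 := mem_add hy0 ht15
  have ht19 := mem_sub ht18 ht12
  have ht20 := mem_sub hy0 ht14
  have ht21 := mem_exp ht20
  have ht22 := mem_sub ht19 ht21
  have ht23 := mem_mul hem ht17
  have ht24 := mem_add ht22 ht23
  have ht25 := mem_nat ε 0
  have ht26 := mem_sub ht25 hr
  have ht27 := mem_exp ht26
  have ht28 := mem_sub hb ht14
  have ht29 := mem_exp ht28
  have ht30 := mem_mul hr ht27
  have ht31 := mem_mul ht29 ht28
  have ht32 := mem_add ht31 ht30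
  have ht33 := mem_sub ht15 hr
  have ht34 := mem_sub ht29 ht27
  have ht35 := mem_mul ht33 ht34
  have ht36 := mem_sub ht32 ht35
  have ht37 := mem_sq ht34
  have ht38 := mem_mul hka ht37
  have ht39 := mem_sub ht36 ht38
  have ht40 := mem_nat ε 2
  have ht41 := mem_mul ht40 ht27
  have ht42 := mem_sub hV ht41
  have ht43 := mem_sq ht27
  have ht44 := mem_add ht42 ht43
  have ht45 := mem_mul hka ht44
  have ht46 := mem_rat ε 1 3
  have ht47 := mem_mul ht46 ht12
  have ht48 := mem_add ht47 ht30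
  have ht49 := mem_sub ht15 ht27
  have ht50 := mem_mul ht33 ht49
  have ht51 := mem_sub ht48 ht50
  have ht52 := mem_sub ht45 ht51
  have ht53 := mem_mul ht40 hka
  have ht54 := mem_mul ht53 ht27
  have ht55 := mem_sub ht15 ht54
  have ht56 := mem_inv hb
  have ht57 := mem_mul hC ht56
  have ht58 := mem_sub ht40 ht57
  have ht59 := mem_add ht15 hu
  have ht60 := mem_sub ht59 hK0
  have ht61 := mem_sub ht15 hem
  (and_imp' (lt_of_pos ht17) (and_imp' (lt_of_pos ht24) (and_imp' (lt_of_pos hr) (and_imp' (lt_of_pos hka) (and_imp' (lt_of_pos ht55) (and_imp' (lt_of_pos ht39) (and_imp' (lt_of_pos ht52) (and_imp' (lt_of_pos ht58) (and_imp' (lt_of_pos ht60) (and_imp' (lt_of_pos hem) (and_imp' (lt_of_pos ht61) (lt_of_pos hm0)))))))))))) h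

end
end Pool.Agent.MP_b5eafd_co
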