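import Pool.Agent.MP_b5eafd_co.Gen

/-! Bisection trees and the leaf tests of all certificates. -/

set_option autoImplicit false

namespace Pool.Agent.MP_b5eafd_co
noncomputable section

inductive Tr
  | l (m : Nat)
  | s0 (a b : Tr)
  | s1 (a b : Tr)
  | s2 (a b : Tr)
  | s3 (a b : Tr)

abbrev BoxF := Nat → Nat → Nat → Nat → Nat → Nat → Nat → Nat → Bool

def Tr.chk (f : Nat → BoxF) (t : Tr) : BoxF :=
  Tr.rec (motive := fun _ => BoxF) f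
    (fun _ _ a b l0 h0 l1 h1 l2 h2 l3 h3 =>
      and (a l0 (AF.mid l0 h0) l1 h1 l2 h2 l3 h3) (b (AF.mid l0 h0) h0 l1 h1 l2 h2 l3 h3))
    (fun _ _ a b l0 h0 l1 h1 l2 h2 l3 h3 =>
      and (a l0 h0 l1 (AF.mid l1 h1) l2 h2 l3 h3) (b l0 h0 (AF.mid l1 h1) h1 l2 h2 l3 h3))
    (fun _ _ a b l0 h0 l1 h1 l2 h2 l3 h3 =>
      and (a l0 h0 l1 h1 l2 (AF.mid l2 h2) l3 h3) (b l0 h0 l1 h1 (AF.mid l2 h2) h2 l3 h3))
    (fun _ _ a b l0 h0 l1 h1 l2 h2 l3 h3 =>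
      and (a l0 h0 l1 h1 l2 h2 l3 (AF.mid l3 h3)) (b l0 h0 l1 h1 l2 h2 (AF.mid l3 h3) h3)) t

theorem Tr.chk_sound (f : Nat → BoxF) (x0 x1 x2 x3 : ℝ) (t : Tr) :
    ∀ l0 h0 l1 h1 l2 h2 l3 h3 : Nat, Tr.chk f t l0 h0 l1 h1 l2 h2 l3 h3 = true →
      vl l0 ≤ x0 → x0 ≤ vl h0 → vl l1 ≤ x1 → x1 ≤ vl h1 → vl l2 ≤ x2 → x2 ≤ vl h2 →
      vl l3 ≤ x3 → x3 ≤ vl h3 →
      ∃ (m l0 h0 l1 h1 l2 h2 l3 h3 : Nat) (ε : Noise), f m l0 h0 l1 h1 l2 h2 l3 h3 = true ∧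
        Mem ε x0 (AF.var0 l0 h0) ∧ Mem ε x1 (AF.var1 l1 h1) ∧
        Mem ε x2 (AF.var2 l2 h2) ∧ Mem ε x3 (AF.var3 l3 h3) := by
  induction t with
  | l m =>
    intro l0 h0 l1 h1 l2 h2 l3 h3 h a0 b0 a1 b1 a2 b2 a3 b3
    obtain ⟨ε, hε⟩ := exists_noise a0 b0 a1 b1 a2 b2 a3 b3
    exact ⟨m, l0, h0, l1, h1, l2, h2, l3, h3, ε, h, hε⟩
  | s0 a b iha ihb =>
    intro l0 h0 l1 h1 l2 h2 l3 h3 h a0 b0 a1 b1 a2 b2 a3 b3
    obtain ⟨p, q⟩ := and_imp' id id h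
    rcases le_total x0 (vl (AF.mid l0 h0)) with c | c
    · exact iha _ _ _ _ _ _ _ _ p a0 c a1 b1 a2 b2 a3 b3
    · exact ihb _ _ _ _ _ _ _ _ q c b0 a1 b1 a2 b2 a3 b3
  | s1 a b iha ihb =>
    intro l0 h0 l1 h1 l2 h2 l3 h3 h a0 b0 a1 b1 a2 b2 a3 b3
    obtain ⟨p, q⟩ := and_imp' id id h
    rcases le_total x1 (vl (AF.mid l1 h1)) with c | c
    · exact iha _ _ _ _ _ _ _ _ p a0 b0 a1 c a2 b2 a3 b3
    · exact ihb _ _ _ _ _ _ _ _ q a0 b0 c b1 a2 b2 a3 b3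
  | s2 a b iha ihb =>
    intro l0 h0 l1 h1 l2 h2 l3 h3 h a0 b0 a1 b1 a2 b2 a3 b3
    obtain ⟨p, q⟩ := and_imp' id id h
    rcases le_total x2 (vl (AF.mid l2 h2)) with c | c
    · exact iha _ _ _ _ _ _ _ _ p a0 b0 a1 b1 a2 c a3 b3
    · exact ihb _ _ _ _ _ _ _ _ q a0 b0 a1 b1 c b2 a3 b3
  | s3 a b iha ihb =>
    intro l0 h0 l1 h1 l2 h2 l3 h3 h a0 b0 a1 b1 a2 b2 a3 b3
    obtain ⟨p, q⟩ := and_imp' id id h
    rcases le_total x3 (vl (AF.mid l3 h3)) with c | c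
    · exact iha _ _ _ _ _ _ _ _ p a0 b0 a1 b1 a2 b2 a3 c
    · exact ihb _ _ _ _ _ _ _ _ q a0 b0 a1 b1 a2 b2 c b3

theorem cond_imp {b x y : Bool} {p q : Prop} (h1 : x = true → p) (h2 : y = true → q)
    (h : cond b x y = true) : p ∨ q := by
  cases b
  · exact Or.inr (h2 h)
  · exact Or.inl (h1 h)

/-- the scalar leaf. -/
def scalF (m : Nat) (u a eps L l2 K0 s em V m0 c x l : AF) : Bool :=
  cond (Nat.beq m 0) (sc0 u a eps L l2 K0 s em V m0 c x l) <|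
  cond (Nat.beq m 1) (sc1 u a eps L l2 K0 s em V m0 c x l) <|
  cond (Nat.beq m 2) (sc2 u a eps L l2 K0 s em V m0 c x l) <|
  cond (Nat.beq m 3) (sc3 u a eps L l2 K0 s em V m0 c x l) <|
  cond (Nat.beq m 4) (sc4 u a eps L l2 K0 s em V m0 c x l) <|
  cond (Nat.beq m 5) (sc5 u a eps L l2 K0 s em V m0 c x l) <|
  cond (Nat.beq m 6) (sc6 u a eps L l2 K0 s em V m0 c x l) <|
  cond (Nat.beq m 7) (sc7 u a eps L l2 K0 s em V m0 c x l) <|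
  cond (Nat.beq m 8) (sc8 u a eps L l2 K0 s em V m0 c x l)
    (sc9 u a eps L l2 K0 s em V m0 c x l)

theorem scalF_mem {ε : Noise} {m : Nat} {u a eps L l2 K0 s em V m0 c x l : ℝ}
    {u' a' eps' L' l2' K0' s' em' V' m0' c' x' l' : AF}
    (hu : Mem ε u u') (ha : Mem ε a a') (heps : Mem ε eps eps') (hL : Mem ε L L')
    (hl2 : Mem ε l2 l2') (hK0 : Mem ε K0 K0') (hs : Mem ε s s') (hem : Mem ε em em')
    (hV : Mem ε V V') (hm0 : Mem ε m0 m0') (hc : Mem ε c c') (hx : Mem ε x x') (hl : Mem ε l l')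
    (h : scalF m u' a' eps' L' l2' K0' s' em' V' m0' c' x' l' = true) :
    sc0R u a eps L l2 K0 s em V m0 c x l ∨ sc1R u a eps L l2 K0 s em V m0 c x l ∨
    sc2R u a eps L l2 K0 s em V m0 c x l ∨ sc3R u a eps L l2 K0 s em V m0 c x l ∨
    sc4R u a eps L l2 K0 s em V m0 c x l ∨ sc5R u a eps L l2 K0 s em V m0 c x l ∨
    sc6R u a eps L l2 K0 s em V m0 c x l ∨ sc7R u a eps L l2 K0 s em V m0 c x l ∨
    sc8R u a eps L l2 K0 s em V m0 c x l ∨ sc9R u a eps L l2 K0 s em V m0 c x l :=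
  cond_imp (sc0_mem hu ha heps hL hl2 hK0 hs hem hV hm0 hc hx hl)
  (cond_imp (sc1_mem hu ha heps hL hl2 hK0 hs hem hV hm0 hc hx hl)
  (cond_imp (sc2_mem hu ha heps hL hl2 hK0 hs hem hV hm0 hc hx hl)
  (cond_imp (sc3_mem hu ha heps hL hl2 hK0 hs hem hV hm0 hc hx hl)
  (cond_imp (sc4_mem hu ha heps hL hl2 hK0 hs hem hV hm0 hc hx hl)
  (cond_imp (sc5_mem hu ha heps hL hl2 hK0 hs hem hV hm0 hc hx hl)
  (cond_imp (sc6_mem hu ha heps hL hl2 hK0 hs hem hV hm0 hc hx hl)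
  (cond_imp (sc7_mem hu ha heps hL hl2 hK0 hs hem hV hm0 hc hx hl)
  (cond_imp (sc8_mem hu ha heps hL hl2 hK0 hs hem hV hm0 hc hx hl)
    (sc9_mem hu ha heps hL hl2 hK0 hs hem hV hm0 hc hx hl))))))))) h

/-- code of `0`. -/
def c0 : Nat := 79228162514264337593543950336
/-- code of `1`. -/
def c1 : Nat := 79228162514264619068520660992
/-- codes of the bounds on `β`. -/
def blo : Nat := 79228162514264905047096999018
def bhi : Nat := 79228162514264905187834487374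
/-- codes of the bounds on `1 / θ`. -/
def ilo : Nat := 79228162514264492890044001045
def ihi : Nat := 79228162514264492933109672483
/-- code of the bound on `θ^2 exp (-2θ)`. -/
def qhi : Nat := 79228162514264339113508824574

/-- data of a cell in the middle regime. -/
structure MD where
  C : Nat
  s : Nat
  K0 : Nat
  em : Nat
  m0 : Nat
  l1 : Nat
  l2 : Nat
  V : Nat
  y0 : Nat
  r : Nat
  ka : Nat
  X : Nat
  xn : Nat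
  emn : Nat
  ah : Nat
  lo : Nat
  hi : Nat

def mdS (d : MD) : Nat → BoxF := fun m l0 h0 l1 h1 l2 h2 l3 h3 =>
  scalF m (AF.var3 l3 h3) (mdA (AF.itv blo bhi) (AF.var3 l3 h3)) (AF.inv (AF.itv blo bhi))
    (mdL (AF.itv blo bhi) (AF.cst d.C)) (AF.cst d.l2) (AF.cst d.K0) (AF.cst d.s) (AF.cst d.em)
    (AF.cst d.V) (AF.cst d.m0) (AF.var0 l0 h0) (AF.var1 l1 h1) (AF.var2 l2 h2)
def mdR (d : MD) : Nat → BoxF := fun m l0 h0 l1 h1 _ _ l3 h3 =>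
  cond (Nat.beq m 0) (rm0 (AF.var1 l1 h1) (AF.var3 l3 h3) (AF.var0 l0 h0))
    (and (Nat.blt 0 m) (and (Nat.blt m 200)
      (rm1 (AF.var1 l1 h1) (AF.var3 l3 h3) (AF.cst d.C) (AF.cst d.s) (AF.cst d.K0) (AF.cst d.m0)
        (AF.cst d.l1) (AF.cst d.l2) (AF.var0 l0 h0) (AF.rat m 20))))
def mdC (d : MD) : Nat → BoxF := fun _ _ _ l1 h1 _ _ l3 h3 =>
  and (cm0 (AF.var1 l1 h1) (AF.var3 l3 h3) (AF.cst d.C) (AF.cst d.K0) (AF.cst d.em) (AF.cst d.m0)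
      (AF.cst d.V) (AF.cst d.y0) (AF.cst d.r) (AF.cst d.ka))
    (bx0 (mdA (AF.var1 l1 h1) (AF.var3 l3 h3)) (AF.cst d.em) (AF.cst d.V) (AF.cst d.X) (AF.cst d.xn)
      (AF.cst d.emn) (AF.cst d.ah))
def mdChk (d : MD) (ts tr tc : Tr) : Bool :=
  and (Tr.chk (mdS d) ts c0 c1 d.xn d.X c0 d.X d.lo d.hi)
    (and (Tr.chk (mdR d) tr d.emn d.ah blo bhi c0 c0 d.lo d.hi)
      (Tr.chk (mdC d) tc c0 c0 blo bhi c0 c0 d.lo d.hi))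

/-- data of a cell in the tight regimes. -/
structure TD where
  last : Bool
  K0 : Nat
  em : Nat
  l20 : Nat
  l21 : Nat
  V : Nat
  r : Nat
  X : Nat
  xn : Nat
  emn : Nat
  ah : Nat
  lo : Nat
  hi : Nat

def rowF (m : Nat) (io q a bh K0 l2 e : AF) : Bool :=
  cond (Nat.beq m 0) (rt0 io q a bh K0 l2 e (AF.nat 0))
    (and (Nat.blt m 200) (rtj io q a bh K0 l2 e (AF.rat m 20)))

def cvq (d : TD) (io : AF) : AF := cond d.last (AF.itv c0 qhi) (cvQ io)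
def cvS (d : TD) : Nat → BoxF := fun m l0 h0 l1 h1 l2 h2 l3 h3 =>
  scalF m (cvU (AF.var3 l3 h3) (cvq d (AF.var3 l3 h3))) (cvA (AF.var3 l3 h3) (cvq d (AF.var3 l3 h3)))
    (cvEps (AF.var3 l3 h3) (cvq d (AF.var3 l3 h3))) (cvL (AF.var3 l3 h3) (cvq d (AF.var3 l3 h3)))
    (af1 (AF.cst d.l20) (AF.cst d.l21) (AF.var3 l3 h3)) (AF.cst d.K0) (AF.nat 1) (AF.cst d.em)
    (AF.cst d.V) (AF.nat 0) (AF.var0 l0 h0) (AF.var1 l1 h1) (AF.var2 l2 h2)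
def cvR (d : TD) : Nat → BoxF := fun m l0 h0 _ _ _ _ l3 h3 =>
  rowF m (AF.var3 l3 h3) (cvq d (AF.var3 l3 h3)) (cvA (AF.var3 l3 h3) (cvq d (AF.var3 l3 h3)))
    (AF.nat 0) (AF.cst d.K0) (af1 (AF.cst d.l20) (AF.cst d.l21) (AF.var3 l3 h3)) (AF.var0 l0 h0)
def cvC (d : TD) : Nat → BoxF := fun _ _ _ _ _ _ _ l3 h3 =>
  and (ct0 (AF.var3 l3 h3) (cvq d (AF.var3 l3 h3)) (cvU (AF.var3 l3 h3) (cvq d (AF.var3 l3 h3)))
      (AF.nat 0) (AF.cst d.K0) (AF.cst d.em) (AF.cst d.V) (AF.cst d.r))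
    (bx0 (cvA (AF.var3 l3 h3) (cvq d (AF.var3 l3 h3))) (AF.cst d.em) (AF.cst d.V) (AF.cst d.X)
      (AF.cst d.xn) (AF.cst d.emn) (AF.cst d.ah))
def cvChk (d : TD) (ts tr tc : Tr) : Bool :=
  and (Tr.chk (cvS d) ts c0 c1 d.xn d.X c0 d.X d.lo d.hi)
    (and (Tr.chk (cvR d) tr d.emn d.ah c0 c0 c0 c0 d.lo d.hi)
      (Tr.chk (cvC d) tc c0 c0 c0 c0 c0 c0 d.lo d.hi))

def smS (d : TD) : Nat → BoxF := fun m l0 h0 l1 h1 l2 h2 l3 h3 =>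
  scalF m (AF.var3 l3 h3) (smA (AF.itv ilo ihi) (cvQ (AF.itv ilo ihi)) (AF.var3 l3 h3))
    (cvEps (AF.itv ilo ihi) (cvQ (AF.itv ilo ihi))) (cvL (AF.itv ilo ihi) (cvQ (AF.itv ilo ihi)))
    (AF.cst d.l20) (AF.cst d.K0) (AF.nat 1) (AF.cst d.em)
    (AF.cst d.V) (AF.nat 0) (AF.var0 l0 h0) (AF.var1 l1 h1) (AF.var2 l2 h2)
def smR (d : TD) : Nat → BoxF := fun m l0 h0 l1 h1 _ _ l3 h3 =>
  rowF m (AF.var1 l1 h1) (cvQ (AF.var1 l1 h1))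
    (smA (AF.var1 l1 h1) (cvQ (AF.var1 l1 h1)) (AF.var3 l3 h3))
    (smH (AF.var1 l1 h1) (cvQ (AF.var1 l1 h1)) (AF.var3 l3 h3)) (AF.cst d.K0) (AF.cst d.l20)
    (AF.var0 l0 h0)
def smC (d : TD) : Nat → BoxF := fun _ _ _ l1 h1 _ _ l3 h3 =>
  and (ct0 (AF.var1 l1 h1) (cvQ (AF.var1 l1 h1)) (AF.var3 l3 h3)
      (smH (AF.var1 l1 h1) (cvQ (AF.var1 l1 h1)) (AF.var3 l3 h3))
      (AF.cst d.K0) (AF.cst d.em) (AF.cst d.V) (AF.cst d.r))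
    (and (cs0 (AF.var1 l1 h1) (cvQ (AF.var1 l1 h1)) (AF.var3 l3 h3)
        (smH (AF.var1 l1 h1) (cvQ (AF.var1 l1 h1)) (AF.var3 l3 h3)))
      (bx0 (smA (AF.var1 l1 h1) (cvQ (AF.var1 l1 h1)) (AF.var3 l3 h3)) (AF.cst d.em) (AF.cst d.V)
        (AF.cst d.X) (AF.cst d.xn) (AF.cst d.emn) (AF.cst d.ah)))
def smChk (d : TD) (ts tr tc : Tr) : Bool :=
  and (Tr.chk (smS d) ts c0 c1 d.xn d.X c0 d.X d.lo d.hi)
    (and (Tr.chk (smR d) tr d.emn d.ah ilo ihi c0 c0 d.lo d.hi)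
      (Tr.chk (smC d) tc c0 c0 ilo ihi c0 c0 d.lo d.hi))

end
end Pool.Agent.MP_b5eafd_co
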