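import Pool.Agent.MP_b5eafd_co.Defs

/-! Definitions for the variational problem. -/

set_option autoImplicit false
open Finset

namespace Pool.Agent.MP_b5eafd_co
noncomputable section
open Classical

/-- `σ = tanh θ`. -/
def sg (θ : ℝ) : ℝ := Real.tanh θ
/-- `β = θ / σ^2`. -/
def bet (θ : ℝ) : ℝ := θ / sg θ ^ 2
/-- value of the symmetric bipodal kernel. -/
def fv (θ : ℝ) : ℝ := bet θ / 3 + 2 * θ * sg θ / 3 - Real.log (Real.cosh θ)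
/-- the critical parameter. -/
def IsStar (θ : ℝ) : Prop := 1812 / 1000 ≤ θ ∧ θ ≤ 18125 / 10000 ∧ fv θ = bet θ / 3

section Kernel
variable {ι : Type} [Fintype ι]

/-- admissible kernels. -/
def Adm (w : ι → ℝ) (U : ι → ι → ℝ) : Prop := IsKer w U ∧ ∀ a b, U a b ≤ L1
/-- the penalty. -/
def xi (p q u : ℝ) : ℝ := (u - p) ^ 2 * (u - q) ^ 2
/-- its mean. -/
def exi (p q : ℝ) (w : ι → ℝ) (U : ι → ι → ℝ) : ℝ := ∑ a, ∑ b, w a * w b * xi p q (U a b)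
/-- the penalised functional. -/
def phi (β γ p q : ℝ) (w : ι → ℝ) (U : ι → ι → ℝ) : ℝ :=
  ent w U + β / 3 * tri w U - γ * exi p q w U
/-- degree variance. -/
def eta (w : ι → ℝ) (U : ι → ι → ℝ) : ℝ := ∑ x, w x * (deg w U x - 1) ^ 2
/-- `e U e` for `e = d - 1`. -/
def eUe (w : ι → ℝ) (U : ι → ι → ℝ) : ℝ :=
  qf w U (fun x => deg w U x - 1) (fun x => deg w U x - 1)
/-- `U^4 (x, x)`. -/
def sq2 (w : ι → ℝ) (U : ι → ι → ℝ) (x : ι) : ℝ := ∑ y, w y * sqK w U x y ^ 2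
/-- `tr U^2`. -/
def tr2 (w : ι → ℝ) (U : ι → ι → ℝ) : ℝ := ∑ x, ∑ y, w x * w y * U x y ^ 2

/-- approximate first and second order conditions. -/
structure Crit (w : ι → ℝ) (U : ι → ι → ℝ) (β ν δ : ℝ) : Prop where
  adm : Adm w U
  wpos : ∀ x, 0 < w x
  upos : ∀ x y, 0 < U x y
  el : ∀ x y, |Real.log (U x y) - ν + β * sqK w U x y| ≤ δ
  nu : |ν - ent w U - β * tri w U| ≤ δ
  row : ∀ x, |β * tau w U x - β * tri w U + 2 * (deg w U x - 1)| ≤ δ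
  second : ∀ a : ι → ℝ, ∑ x, w x * a x = 0 →
    qf w U a a ≤ (6 + 4 * β * tri w U) * (∑ x, w x * a x * deg w U x) ^ 2 + δ * ∑ x, w x * a x ^ 2

end Kernel

/-! ### The two point certificate -/
def detT (Δ : ℝ) : ℝ := (Real.exp Δ - 1) ^ 2 - Δ ^ 2 * Real.exp Δ
def gT (Δ : ℝ) : ℝ := Δ ^ 2 * (Δ * Real.exp Δ - Real.exp Δ + 1) / detT Δ
def bT (Δ : ℝ) : ℝ := Δ * (2 * (Real.exp Δ - 1) - Δ * (Real.exp Δ + 1)) / detT Δ
def yT (C Δ : ℝ) : ℝ := (C + gT Δ + bT Δ) / 2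
def aC (C Δ : ℝ) : ℝ := (gT Δ - bT Δ * yT C Δ) * Real.exp (-yT C Δ)
def bC (C Δ : ℝ) : ℝ := bT Δ * Real.exp (-yT C Δ)
def dC (C Δ : ℝ) : ℝ := gT Δ - yT C Δ ^ 2 + C * yT C Δ
/-- nonnegative, with double zeros at `yT C Δ` and `yT C Δ + Δ`. -/
def fT (C Δ y : ℝ) : ℝ := y ^ 2 - C * y + dC C Δ - (aC C Δ + bC C Δ * y) * Real.exp y

end
end Pool.Agent.MP_b5eafd_co
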