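import Pool.Agent.MP_b5eafd_co.Defs

/-
HINTS. n_a = |fib tau univ a|, e_ab = eS G (fib a) (fib b); e_ab = 0 if n_a n_b = 0, so w_a w_b UB a b = e_ab / eS univ univ always.
sum_ab e_ab = eS univ univ (Finset.sum_fiberwise).  exists_half_cut: average over all S (each edge is cut by half of the sets;
e.g. sum over S of [u in S, v notin S] = 2^(n-2) for u <> v, or the involution S -> symmDiff S {v}), or take S maximising the cut.
exists_reg: prove by induction on j: exists k_j, forall n G tau1, exists tau : Fin n -> Fin k_j refining tau1 with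
SumReg or j gamma^2/2 <= ent (j = 0: ent >= 0 from u log u >= u - 1).  It is convenient to prove things for an arbitrary Fintype
of types and to transport along an injection / equivalence f : iota -> iota' (fib (f o tau) (f a) = fib tau a; best: vertex level formulas
qB G tau (tau v) (tau u), ent = sum_{v,u} A(v,u) log(qB(tau v)(tau u)/pD) / eS, which only depend on the partition).
Step: if SumReg fails with witnesses S T, refine tau'(v) = (tau v, fun b => v in S (tau v) b, fun b => v in T b (tau v))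
in iota x (iota -> Bool) x (iota -> Bool) (card k 4^k).  For a cell c' = (a',b') of tau' inside the cell (a,b): x = e_{c'}, y = q_ab n_a' n_b'.
eS (ent' - ent) = sum_{c'} [x log(x/y) - x + y]; every term is >= 0, and >= lam (y - x) - y lam^2/2 for lam >= 0
(Fenchel: x log(x/y) - x + y >= -lam x + y (1 - exp(-lam)); if y = 0 then x = 0).  The indicator in SumReg is constant on tau' cells.
Take lam = gamma on the cells where the indicator is 1: the sum is >= gamma * gamma eS - gamma^2/2 * eS.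
A vertex level version avoids cells: with q = qB tau, q' = qB tau' (as functions of v,u), sum_{v,u} A F(tau' v, tau' u) = sum_{v,u} q' F.
If SumReg holds at stage j keep tau (composed with an injection Fin k_j -> Fin k_{j+1}, or with the trivial refinement).
-/

set_option autoImplicit false
set_option linter.unusedSectionVars false
open Finset Filter Topology

namespace Pool.Agent.MP_b5eafd_co
noncomputable section
open Classical

namespace RegAux

section
variable {V : Type} [Fintype V] {ι : Type} [Fintype ι]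

lemma adjR_nonneg (G : SimpleGraph V) (u v : V) : 0 ≤ adjR G u v := by
  unfold adjR; split_ifs <;> norm_num

lemma adjR_comm (G : SimpleGraph V) (u v : V) : adjR G u v = adjR G v u := by
  unfold adjR; simp only [G.adj_comm]

lemma eS_nonneg (G : SimpleGraph V) (S T : Finset V) : 0 ≤ eS G S T :=
  Finset.sum_nonneg fun _ _ => Finset.sum_nonneg fun _ _ => adjR_nonneg G _ _

lemma eS_comm (G : SimpleGraph V) (S T : Finset V) : eS G S T = eS G T S := by
  unfold eS
  rw [Finset.sum_comm]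
  exact Finset.sum_congr rfl fun _ _ => Finset.sum_congr rfl fun _ _ => adjR_comm G _ _

lemma qB_nonneg (G : SimpleGraph V) (τ : V → ι) (a b : ι) : 0 ≤ qB G τ a b :=
  div_nonneg (eS_nonneg G _ _) (by positivity)

lemma card_pos (G : SimpleGraph V) (hG : 0 < eS G univ univ) : (0 : ℝ) < Fintype.card V := by
  rcases isEmpty_or_nonempty V with h | h
  · simp [eS] at hG
  · exact_mod_cast Fintype.card_pos

lemma pD_pos (G : SimpleGraph V) (hG : 0 < eS G univ univ) : 0 < pD G :=
  div_pos hG (pow_pos (card_pos G hG) 2)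

lemma card_mul_qB (G : SimpleGraph V) (τ : V → ι) (a b : ι) :
    ((fib τ univ a).card : ℝ) * ((fib τ univ b).card : ℝ) * qB G τ a b =
      eS G (fib τ univ a) (fib τ univ b) := by
  unfold qB qL
  by_cases ha : (fib τ univ a).card = 0
  · rw [Finset.card_eq_zero.mp ha]
    simp [eS]
  by_cases hb : (fib τ univ b).card = 0
  · rw [Finset.card_eq_zero.mp hb]
    simp [eS]
  have ha' : ((fib τ univ a).card : ℝ) ≠ 0 := by exact_mod_cast ha
  have hb' : ((fib τ univ b).card : ℝ) ≠ 0 := by exact_mod_cast hb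
  field_simp

lemma sum_fib (τ : V → ι) (H : V → V → ℝ) :
    ∑ v, ∑ u, H v u = ∑ a, ∑ b, ∑ v ∈ fib τ univ a, ∑ u ∈ fib τ univ b, H v u := by
  rw [← Finset.sum_fiberwise (s := univ) (g := τ)]
  refine Finset.sum_congr rfl fun a _ => ?_
  rw [Finset.sum_comm (s := (univ : Finset ι))]
  refine Finset.sum_congr rfl fun v _ => ?_
  exact (Finset.sum_fiberwise (s := univ) (g := τ) _).symm

lemma mem_fib {τ : V → ι} {a : ι} {v : V} (h : v ∈ fib τ univ a) : τ v = a :=
  (Finset.mem_filter.mp h).2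

lemma sum_adj (G : SimpleGraph V) (τ : V → ι) (F : ι → ι → ℝ) :
    ∑ v, ∑ u, adjR G v u * F (τ v) (τ u) =
      ∑ a, ∑ b, eS G (fib τ univ a) (fib τ univ b) * F a b := by
  rw [sum_fib τ]
  refine Finset.sum_congr rfl fun a _ => Finset.sum_congr rfl fun b _ => ?_
  rw [eS, Finset.sum_mul]
  refine Finset.sum_congr rfl fun v hv => ?_
  rw [Finset.sum_mul]
  refine Finset.sum_congr rfl fun u hu => ?_
  rw [mem_fib hv, mem_fib hu]

/-- Averaging over the cells of the partition. -/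
lemma avg (G : SimpleGraph V) (τ : V → ι) (F : ι → ι → ℝ) :
    ∑ v, ∑ u, adjR G v u * F (τ v) (τ u) =
      ∑ v, ∑ u, qB G τ (τ v) (τ u) * F (τ v) (τ u) := by
  rw [sum_adj, sum_fib τ]
  refine Finset.sum_congr rfl fun a _ => Finset.sum_congr rfl fun b _ => ?_
  rw [Finset.sum_congr rfl (g := fun _ => ((fib τ univ b).card : ℝ) * (qB G τ a b * F a b))]
  · rw [Finset.sum_const, nsmul_eq_mul, ← card_mul_qB]
    ring
  · intro v hv
    rw [Finset.sum_congr rfl (g := fun _ => qB G τ a b * F a b)]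
    · rw [Finset.sum_const, nsmul_eq_mul]
    · intro u hu
      rw [mem_fib hv, mem_fib hu]

lemma sum_qB (G : SimpleGraph V) (τ : V → ι) :
    ∑ v, ∑ u, qB G τ (τ v) (τ u) = eS G univ univ := by
  have := avg G τ fun _ _ => 1
  simp only [mul_one] at this
  rw [← this]
  rfl

lemma wwU (G : SimpleGraph V) (τ : V → ι) (hG : 0 < eS G univ univ) (a b : ι) :
    wB τ a * wB τ b * UB G τ a b = eS G (fib τ univ a) (fib τ univ b) / eS G univ univ := by
  have hn := card_pos G hG
  rw [← card_mul_qB]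
  unfold wB UB pD
  field_simp

lemma ent_eq (G : SimpleGraph V) (τ : V → ι) (hG : 0 < eS G univ univ) :
    ent (wB τ) (UB G τ) * eS G univ univ =
      ∑ v, ∑ u, adjR G v u * Real.log (qB G τ (τ v) (τ u) / pD G) := by
  rw [sum_adj G τ fun a b => Real.log (qB G τ a b / pD G), ent, Finset.sum_mul]
  refine Finset.sum_congr rfl fun a _ => ?_
  rw [Finset.sum_mul]
  refine Finset.sum_congr rfl fun b _ => ?_
  rw [← mul_assoc, wwU G τ hG]
  unfold UB
  field_simp

lemma fenchel {x y p l : ℝ} (hx : 0 ≤ x) (hy : 0 ≤ y) (hxy : y = 0 → x = 0) (hp : 0 < p)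
    (hl : 0 ≤ l) :
    x - y + l * (y - x) - y * l ^ 2 / 2 ≤ x * (Real.log (x / p) - Real.log (y / p)) := by
  rcases hx.eq_or_lt with rfl | hx
  · have : 0 ≤ y * ((l - 1) ^ 2 + 1) := by positivity
    nlinarith
  have hy' : 0 < y := by
    rcases hy.eq_or_lt with h | h
    · exact absurd (hxy h.symm) hx.ne'
    · exact h
  have h1 : Real.log (y * Real.exp (-l) / x) ≤ y * Real.exp (-l) / x - 1 :=
    Real.log_le_sub_one_of_pos (by positivity)
  rw [Real.log_div (by positivity) hx.ne', Real.log_mul hy'.ne' (Real.exp_pos _).ne',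
    Real.log_exp] at h1
  rw [Real.log_div hx.ne' hp.ne', Real.log_div hy'.ne' hp.ne']
  have h2 : Real.exp (-l) ≤ 1 - l + l ^ 2 / 2 := by
    have h3 := Real.quadratic_le_exp_of_nonneg hl
    have h4 : 0 < 1 + l + l ^ 2 / 2 := by positivity
    rw [Real.exp_neg]
    calc (Real.exp l)⁻¹ ≤ (1 + l + l ^ 2 / 2)⁻¹ := inv_anti₀ h4 h3
      _ ≤ 1 - l + l ^ 2 / 2 := by
        rw [inv_le_iff_one_le_mul₀ h4]
        nlinarith [sq_nonneg (l ^ 2)]
  have h5 : x * (Real.log y + -l - Real.log x) ≤ y * Real.exp (-l) - x := by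
    calc _ ≤ x * (y * Real.exp (-l) / x - 1) := mul_le_mul_of_nonneg_left h1 hx.le
      _ = _ := by field_simp
  have h6 := mul_le_mul_of_nonneg_left h2 hy
  nlinarith

lemma ent_nonneg (G : SimpleGraph V) (τ : V → ι) (hG : 0 < eS G univ univ) :
    0 ≤ ent (wB τ) (UB G τ) := by
  have hp := pD_pos G hG
  have hn := card_pos G hG
  apply nonneg_of_mul_nonneg_left _ hG
  rw [ent_eq G τ hG, avg G τ fun a b => Real.log (qB G τ a b / pD G)]
  have h1 : ∑ v : V, ∑ u : V, (qB G τ (τ v) (τ u) - pD G) = 0 := by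
    simp only [Finset.sum_sub_distrib]
    rw [sum_qB]
    simp only [Finset.sum_const, Finset.card_univ, nsmul_eq_mul, pD]
    field_simp
    ring
  rw [← h1]
  refine Finset.sum_le_sum fun v _ => Finset.sum_le_sum fun u _ => ?_
  have := fenchel (qB_nonneg G τ (τ v) (τ u)) hp.le (fun h => absurd h hp.ne') hp le_rfl
  rw [div_self hp.ne', Real.log_one] at this
  simpa using this

lemma qB_comp {ι' : Type} [Fintype ι'] (G : SimpleGraph V) (τ : V → ι) (f : ι → ι')
    (hf : Function.Injective f) (a b : ι) :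
    qB G (fun v => f (τ v)) (f a) (f b) = qB G τ a b := by
  have h : ∀ c, fib (fun v => f (τ v)) univ (f c) = fib τ univ c := by
    intro c
    ext v
    simp [fib, hf.eq_iff]
  unfold qB qL
  rw [h, h]

lemma ent_comp {ι' : Type} [Fintype ι'] (G : SimpleGraph V) (τ : V → ι) (f : ι → ι')
    (hf : Function.Injective f) (hG : 0 < eS G univ univ) :
    ent (wB fun v => f (τ v)) (UB G fun v => f (τ v)) = ent (wB τ) (UB G τ) := by
  apply mul_right_cancel₀ hG.ne'
  rw [ent_eq G _ hG, ent_eq G _ hG]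
  simp only [qB_comp G τ f hf]

lemma sumReg_comp {ι' : Type} [Fintype ι'] (G : SimpleGraph V) (τ : V → ι) (f : ι → ι')
    (hf : Function.Injective f) {Γ : ℝ} (h : SumReg G τ Γ) :
    SumReg G (fun v => f (τ v)) Γ := by
  intro S T
  have := h (fun a b => S (f a) (f b)) (fun a b => T (f a) (f b))
  simpa only [qB_comp G τ f hf] using this

lemma step (G : SimpleGraph V) (τ : V → ι) (hG : 0 < eS G univ univ) {γ : ℝ} (hγ : 0 < γ)
    (h : ¬ SumReg G τ (γ * eS G univ univ)) :
    ∃ τ' : V → ι × (ι → Bool) × (ι → Bool), (∀ v, (τ' v).1 = τ v) ∧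
      ent (wB τ) (UB G τ) + γ ^ 2 / 2 ≤ ent (wB τ') (UB G τ') := by
  have hp := pD_pos G hG
  unfold SumReg at h
  push Not at h
  obtain ⟨S, T, hST⟩ := h
  let τ' : V → ι × (ι → Bool) × (ι → Bool) := fun v =>
    (τ v, fun b => decide (v ∈ S (τ v) b), fun a => decide (v ∈ T a (τ v)))
  refine ⟨τ', fun _ => rfl, ?_⟩
  let I : ι × (ι → Bool) × (ι → Bool) → ι × (ι → Bool) × (ι → Bool) → ℝ := fun c d =>
    if c.2.1 d.1 = true ∧ d.2.2 c.1 = true then 1 else 0
  have hI : ∀ v u, I (τ' v) (τ' u) =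
      if v ∈ S (τ v) (τ u) ∧ u ∈ T (τ v) (τ u) then 1 else 0 := by
    intro v u
    simp [I, τ']
  have hI01 : ∀ c d, I c d = 0 ∨ I c d = 1 := by
    intro c d
    simp only [I]
    split_ifs <;> simp
  -- vanishing block densities stay zero after refining
  have hzero : ∀ v u, qB G τ (τ v) (τ u) = 0 → qB G τ' (τ' v) (τ' u) = 0 := by
    intro v u h0
    let Z : ι → ι → ℝ := fun a b => if qB G τ a b = 0 then 1 else 0
    have h1 := avg G τ' fun c d => Z c.1 d.1
    have h2 := avg G τ Z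
    have h3 : ∑ v, ∑ u, qB G τ (τ v) (τ u) * Z (τ v) (τ u) = 0 := by
      refine Finset.sum_eq_zero fun v _ => Finset.sum_eq_zero fun u _ => ?_
      simp only [Z]
      split_ifs with hz
      · rw [hz, zero_mul]
      · rw [mul_zero]
    have h4 : ∑ v, ∑ u, qB G τ' (τ' v) (τ' u) * Z (τ v) (τ u) = 0 := h1.symm.trans (h2.trans h3)
    have hnn : ∀ v u, 0 ≤ qB G τ' (τ' v) (τ' u) * Z (τ v) (τ u) := by
      intro v u
      refine mul_nonneg (qB_nonneg _ _ _ _) ?_
      simp only [Z]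
      split_ifs <;> norm_num
    have h5 := (Finset.sum_eq_zero_iff_of_nonneg
      fun v _ => Finset.sum_nonneg fun u _ => hnn v u).mp h4 v (Finset.mem_univ _)
    have h6 := (Finset.sum_eq_zero_iff_of_nonneg fun u _ => hnn v u).mp h5 u (Finset.mem_univ _)
    simpa [Z, h0] using h6
  have hdiff : (ent (wB τ') (UB G τ') - ent (wB τ) (UB G τ)) * eS G univ univ =
      ∑ v, ∑ u, qB G τ' (τ' v) (τ' u) *
        (Real.log (qB G τ' (τ' v) (τ' u) / pD G) - Real.log (qB G τ (τ v) (τ u) / pD G)) := by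
    rw [sub_mul, ent_eq G _ hG, ent_eq G _ hG]
    refine Eq.trans ?_ (avg G τ' fun c d =>
      Real.log (qB G τ' c d / pD G) - Real.log (qB G τ c.1 d.1 / pD G))
    rw [← Finset.sum_sub_distrib]
    refine Finset.sum_congr rfl fun v _ => ?_
    rw [← Finset.sum_sub_distrib]
    refine Finset.sum_congr rfl fun u _ => ?_
    rw [mul_sub]
  have hlow : ∑ v, ∑ u, (qB G τ' (τ' v) (τ' u) - qB G τ (τ v) (τ u) +
        γ * (qB G τ (τ v) (τ u) * I (τ' v) (τ' u) - qB G τ' (τ' v) (τ' u) * I (τ' v) (τ' u)) -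
        γ ^ 2 / 2 * qB G τ (τ v) (τ u)) ≤
      (ent (wB τ') (UB G τ') - ent (wB τ) (UB G τ)) * eS G univ univ := by
    rw [hdiff]
    refine Finset.sum_le_sum fun v _ => Finset.sum_le_sum fun u _ => ?_
    have hq := qB_nonneg G τ (τ v) (τ u)
    rcases hI01 (τ' v) (τ' u) with h0 | h0
    · have := fenchel (qB_nonneg G τ' (τ' v) (τ' u)) hq (hzero v u) hp le_rfl
      rw [h0]
      have h7 : 0 ≤ γ ^ 2 / 2 * qB G τ (τ v) (τ u) := by positivity
      linarith
    · have := fenchel (qB_nonneg G τ' (τ' v) (τ' u)) hq (hzero v u) hp hγ.le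
      rw [h0]
      linarith
  have hsum : ∑ v, ∑ u, (qB G τ (τ v) (τ u) * I (τ' v) (τ' u) -
      qB G τ' (τ' v) (τ' u) * I (τ' v) (τ' u)) =
      ∑ v, ∑ u, (if v ∈ S (τ v) (τ u) ∧ u ∈ T (τ v) (τ u) then
        qB G τ (τ v) (τ u) - adjR G v u else 0) := by
    simp only [Finset.sum_sub_distrib]
    rw [← avg G τ' I, ← Finset.sum_sub_distrib]
    refine Finset.sum_congr rfl fun v _ => ?_
    rw [← Finset.sum_sub_distrib]
    refine Finset.sum_congr rfl fun u _ => ?_
    rw [hI]
    split_ifs <;> ring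
  have hexp : ∑ v, ∑ u, (qB G τ' (τ' v) (τ' u) - qB G τ (τ v) (τ u) +
        γ * (qB G τ (τ v) (τ u) * I (τ' v) (τ' u) - qB G τ' (τ' v) (τ' u) * I (τ' v) (τ' u)) -
        γ ^ 2 / 2 * qB G τ (τ v) (τ u)) =
      (∑ v, ∑ u, qB G τ' (τ' v) (τ' u)) - (∑ v, ∑ u, qB G τ (τ v) (τ u)) +
        γ * (∑ v, ∑ u, (qB G τ (τ v) (τ u) * I (τ' v) (τ' u) -
          qB G τ' (τ' v) (τ' u) * I (τ' v) (τ' u))) -
        γ ^ 2 / 2 * ∑ v, ∑ u, qB G τ (τ v) (τ u) := by
    simp only [Finset.mul_sum, ← Finset.sum_sub_distrib, ← Finset.sum_add_distrib]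
  rw [hexp, hsum, sum_qB, sum_qB] at hlow
  have h8 := mul_le_mul_of_nonneg_left hST.le hγ.le
  have h9 : γ ^ 2 / 2 * eS G univ univ ≤
      (ent (wB τ') (UB G τ') - ent (wB τ) (UB G τ)) * eS G univ univ := by nlinarith
  have := le_of_mul_le_mul_right h9 hG
  linarith

lemma step' (G : SimpleGraph V) (τ : V → ι) (hG : 0 < eS G univ univ) {γ : ℝ} (hγ : 0 < γ)
    (h : ¬ SumReg G τ (γ * eS G univ univ)) {ι' : Type} [Fintype ι']
    (f : ι × (ι → Bool) × (ι → Bool) → ι') (hf : Function.Injective f) :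
    ∃ τ' : V → ι × (ι → Bool) × (ι → Bool), (∀ v, (τ' v).1 = τ v) ∧
      ent (wB τ) (UB G τ) + γ ^ 2 / 2 ≤ ent (wB fun v => f (τ' v)) (UB G fun v => f (τ' v)) := by
  obtain ⟨τ', h1, h2⟩ := step G τ hG hγ h
  exact ⟨τ', h1, h2.trans (ent_comp G τ' f hf hG).ge⟩

end

lemma cutG_eq {n : ℕ} (G : SimpleGraph (Fin n)) (S : Finset (Fin n)) :
    cutG G S = ∑ v, ∑ u, adjR G v u * ((if v ∈ S then 1 else 0) * (if u ∈ S then 0 else 1)) := by
  have h : {p : Fin n × Fin n | G.Adj p.1 p.2 ∧ p.1 ∈ S ∧ p.2 ∉ S} =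
      ↑(univ.filter fun p : Fin n × Fin n => G.Adj p.1 p.2 ∧ p.1 ∈ S ∧ p.2 ∉ S) := by
    ext p
    simp
  rw [cutG, h, Set.ncard_coe_finset, Finset.card_filter, Fintype.sum_prod_type]
  push_cast
  refine Finset.sum_congr rfl fun v _ => Finset.sum_congr rfl fun u _ => ?_
  unfold adjR
  by_cases h1 : G.Adj v u <;> by_cases h2 : v ∈ S <;> by_cases h3 : u ∈ S <;> simp [h1, h2, h3]

lemma half_sum {n : ℕ} (v : Fin n) (g : Finset (Fin n) → ℝ)
    (hg : ∀ S, g (symmDiff S {v}) = g S) :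
    ∑ S : Finset (Fin n), (if v ∈ S then 1 else 0) * g S = (∑ S, g S) / 2 := by
  have hinv : Function.Involutive fun S : Finset (Fin n) => symmDiff S {v} :=
    fun S => symmDiff_symmDiff_cancel_right _ _
  have h1 := hinv.bijective.sum_comp fun S => (if v ∈ S then (1 : ℝ) else 0) * g S
  have h2 : ∀ S : Finset (Fin n),
      (if v ∈ symmDiff S {v} then (1 : ℝ) else 0) * g (symmDiff S {v}) =
        g S - (if v ∈ S then 1 else 0) * g S := by
    intro S
    rw [hg]
    by_cases hv : v ∈ S <;> simp [Finset.mem_symmDiff, hv]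
  simp_rw [h2] at h1
  rw [Finset.sum_sub_distrib] at h1
  linarith

lemma quarter_sum {n : ℕ} {v u : Fin n} (h : v ≠ u) :
    ∑ S : Finset (Fin n), (if v ∈ S then (1 : ℝ) else 0) * (if u ∈ S then 0 else 1) =
      (Fintype.card (Finset (Fin n)) : ℝ) / 4 := by
  rw [half_sum v (fun S => if u ∈ S then 0 else 1)]
  · have h1 := half_sum u (fun _ => 1) fun _ => rfl
    have h2 : ∀ S : Finset (Fin n), (if u ∈ S then (0 : ℝ) else 1) =
        1 - (if u ∈ S then 1 else 0) * 1 := by
      intro S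
      split_ifs <;> norm_num
    simp_rw [h2]
    rw [Finset.sum_sub_distrib, h1]
    simp only [Finset.sum_const, Finset.card_univ, nsmul_eq_mul, mul_one]
    ring
  · intro S
    have : u ∈ symmDiff S {v} ↔ u ∈ S := by simp [Finset.mem_symmDiff, h.symm]
    simp only [this]

end RegAux

open RegAux

theorem isKer_block {V : Type} [Fintype V] {ι : Type} [Fintype ι] (G : SimpleGraph V) (τ : V → ι)
    (hG : 0 < eS G univ univ) : IsKer (wB τ) (UB G τ) := by
  have hn := card_pos G hG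
  refine ⟨fun a => by unfold wB; positivity, ?_, fun a b => ?_, fun a b => ?_, ?_⟩
  · unfold wB
    rw [← Finset.sum_div, div_eq_one_iff_eq hn.ne']
    have := Finset.card_eq_sum_card_fiberwise (s := (univ : Finset V)) (t := (univ : Finset ι))
      (f := τ) fun _ _ => Finset.mem_coe.mpr (Finset.mem_univ _)
    rw [Finset.card_univ] at this
    rw [this]
    push_cast
    rfl
  · unfold UB qB qL
    rw [eS_comm, mul_comm]
  · exact div_nonneg (qB_nonneg G τ a b) (pD_pos G hG).le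
  · unfold mass
    simp_rw [wwU G τ hG, ← Finset.sum_div]
    rw [div_eq_one_iff_eq hG.ne']
    have := sum_adj G τ fun _ _ => 1
    simp only [mul_one] at this
    rw [← this]
    rfl

theorem cutK_block {n : ℕ} {ι : Type} [Fintype ι] (G : SimpleGraph (Fin n)) (τ : Fin n → ι)
    (hG : 0 < eS G univ univ) (Sg : Finset ι) (S : Finset (Fin n)) (hS : ∀ v, τ v ∈ Sg ↔ v ∈ S) :
    cutK (wB τ) (UB G τ) Sg * (eS G univ univ / 2) = cutG G S := by
  rw [cutG_eq]
  simp_rw [← hS]
  rw [sum_adj G τ fun a b => (if a ∈ Sg then 1 else 0) * (if b ∈ Sg then 0 else 1)]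
  unfold cutK
  simp_rw [wwU G τ hG, ← Finset.sum_div]
  have h1 : ∑ a, ∑ b, eS G (fib τ univ a) (fib τ univ b) *
      ((if a ∈ Sg then 1 else 0) * (if b ∈ Sg then 0 else 1)) =
      ∑ a ∈ Sg, ∑ b ∈ Sgᶜ, eS G (fib τ univ a) (fib τ univ b) := by
    rw [← Finset.sum_subset (Finset.subset_univ Sg)]
    · refine Finset.sum_congr rfl fun a ha => ?_
      rw [← Finset.sum_subset (Finset.subset_univ Sgᶜ)]
      · refine Finset.sum_congr rfl fun b hb => ?_
        simp [ha, Finset.mem_compl.mp hb]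
      · intro b _ hb
        have : b ∈ Sg := by simpa using hb
        simp [this]
    · intro a _ ha
      simp [ha]
  rw [h1]
  field_simp

theorem eS_univ_eq {n : ℕ} (G : SimpleGraph (Fin n)) :
    eS G univ univ = 2 * (G.edgeSet.ncard : ℝ) := by
  have h1 := G.sum_degrees_eq_twice_card_edges
  have h2 : G.edgeSet.ncard = G.edgeFinset.card := by
    rw [← G.coe_edgeFinset, Set.ncard_coe_finset]
  have h3 : ∀ v, ∑ u, adjR G v u = (G.degree v : ℝ) := by
    intro v
    unfold adjR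
    rw [Finset.sum_boole, ← G.card_neighborFinset_eq_degree, G.neighborFinset_eq_filter]
  unfold eS
  simp_rw [h3]
  rw [h2]
  exact_mod_cast h1

theorem exists_half_cut {n : ℕ} (G : SimpleGraph (Fin n)) :
    ∃ S : Finset (Fin n), (G.edgeSet.ncard : ℝ) / 2 ≤ cutG G S := by
  have h1 : ∑ S : Finset (Fin n), cutG G S =
      ∑ _S : Finset (Fin n), (G.edgeSet.ncard : ℝ) / 2 := by
    simp_rw [cutG_eq]
    rw [Finset.sum_comm]
    have h2 : ∀ v : Fin n, ∑ S : Finset (Fin n), ∑ u, adjR G v u *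
        ((if v ∈ S then 1 else 0) * (if u ∈ S then 0 else 1)) =
        ∑ u, adjR G v u * ((Fintype.card (Finset (Fin n)) : ℝ) / 4) := by
      intro v
      rw [Finset.sum_comm]
      refine Finset.sum_congr rfl fun u _ => ?_
      rw [← Finset.mul_sum]
      by_cases h : v = u
      · subst h
        simp [adjR]
      · rw [quarter_sum h]
    simp_rw [h2, ← Finset.sum_mul]
    have h3 := eS_univ_eq G
    unfold eS at h3
    rw [h3, Finset.sum_const, Finset.card_univ, nsmul_eq_mul]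
    ring
  obtain ⟨S, _, hS⟩ := Finset.exists_le_of_sum_le Finset.univ_nonempty h1.ge
  exact ⟨S, hS⟩

theorem exists_reg (γ K : ℝ) (hγ : 0 < γ) (k1 : ℕ) :
    ∃ k2 : ℕ, ∀ (n : ℕ) (G : SimpleGraph (Fin n)), 0 < eS G univ univ →
      ∀ τ1 : Fin n → Fin k1, ∃ τ : Fin n → Fin k2,
        (∃ ρ : Fin k2 → Fin k1, ∀ v, ρ (τ v) = τ1 v) ∧
        (SumReg G τ (γ * eS G univ univ) ∨ K ≤ ent (wB τ) (UB G τ)) := by
  have key : ∀ j : ℕ, ∃ k2 : ℕ, ∀ (n : ℕ) (G : SimpleGraph (Fin n)), 0 < eS G univ univ →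
      ∀ τ1 : Fin n → Fin k1, ∃ τ : Fin n → Fin k2,
        (∃ ρ : Fin k2 → Fin k1, ∀ v, ρ (τ v) = τ1 v) ∧
        (SumReg G τ (γ * eS G univ univ) ∨ j * (γ ^ 2 / 2) ≤ ent (wB τ) (UB G τ)) := by
    intro j
    induction j with
    | zero =>
      refine ⟨k1, fun n G hG τ1 => ⟨τ1, ⟨id, fun _ => rfl⟩, Or.inr ?_⟩⟩
      simpa using ent_nonneg G τ1 hG
    | succ j ih =>
      obtain ⟨k, hk⟩ := ih
      let e := Fintype.equivFin (Fin k × (Fin k → Bool) × (Fin k → Bool))
      refine ⟨Fintype.card (Fin k × (Fin k → Bool) × (Fin k → Bool)), fun n G hG τ1 => ?_⟩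
      obtain ⟨τ, ⟨ρ, hρ⟩, hτ⟩ := hk n G hG τ1
      by_cases hreg : SumReg G τ (γ * eS G univ univ)
      · refine ⟨fun v => e (τ v, fun _ => true, fun _ => true),
          ⟨fun c => ρ (e.symm c).1, fun v => by simp [hρ]⟩, Or.inl ?_⟩
        exact sumReg_comp G τ (fun a => e (a, fun _ => true, fun _ => true))
          (fun a b hab => (Prod.mk.inj (e.injective hab)).1) hreg
      · obtain ⟨τ', h1, h2⟩ := step' G τ hG hγ hreg e e.injective
        refine ⟨fun v => e (τ' v), ⟨fun c => ρ (e.symm c).1, fun v => by simp [h1, hρ]⟩,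
          Or.inr ?_⟩
        have h3 := hτ.resolve_left hreg
        push_cast
        linarith
  obtain ⟨j, hj⟩ := exists_nat_ge (K / (γ ^ 2 / 2))
  rw [div_le_iff₀ (by positivity)] at hj
  obtain ⟨k2, hk⟩ := key j
  refine ⟨k2, fun n G hG τ1 => ?_⟩
  obtain ⟨τ, h1, h2⟩ := hk n G hG τ1
  exact ⟨τ, h1, h2.imp id fun h => hj.trans h⟩

end
end Pool.Agent.MP_b5eafd_co
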